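import Pool.Agent.WPB.DAT
import Pool.Agent.WNV.ASC

open MvPolynomial WNV

set_option linter.unusedSectionVars false

namespace WPB

variable {c r N : ℕ} {K F : Type} [Field K] [Algebra ℂ K] [Field F] [Algebra ℂ F]
    [Algebra K F] [IsScalarTower ℂ K F]
    [Algebra (MvPolynomial (Fin r) K) F] [IsScalarTower K (MvPolynomial (Fin r) K) F]
    [IsFractionRing (MvPolynomial (Fin r) K) F]

/-- The values at a linear valuation. -/
theorem linear_bound (E : QVal F) (A : Matrix (Fin (r + 1)) (Fin (r + 1)) K) (hA : A.det ≠ 0)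
    (hE : ∀ (d : ℕ) (H : MvPolynomial (Fin (r + 1)) K), H.IsHomogeneous d → ∀ s ∈ H.support,
      E (aeval (lin F A) H) ≤ E (algebraMap K F (H.coeff s)) + ∑ i, (s i : ℤ) * E (lin F A i)) :
    ∃ T : Matrix (Fin (r + 1)) (Fin (r + 1)) F, T.det ≠ 0 ∧
      E T.det = ∑ i, E (lin F A i) - E (algebraMap K F A.det) ∧
      ∀ (d : ℕ) (G : MvPolynomial (Fin (r + 1)) K), G.IsHomogeneous d →
        ∀ a, Ge E (E (ev F G)) ((sub G T).coeff a) := by
  classical
  have hl : ∀ i, lin F A i ≠ 0 := fun i => lin_ne_zero A hA i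
  have hu : IsUnit A.det := isUnit_iff_ne_zero.2 hA
  have hAF : algebraMap K F A.det ≠ 0 := (map_ne_zero _).2 hA
  have hdet : ((A⁻¹).map (algebraMap K F)).det = (algebraMap K F A.det)⁻¹ := by
    have h1 : ((A⁻¹).map (algebraMap K F)).det = algebraMap K F (A⁻¹).det :=
      ((algebraMap K F).map_det _).symm
    rw [h1, Matrix.det_nonsing_inv, Ring.inverse_eq_inv', map_inv₀]
  have hpl : ∏ i, lin F A i ≠ 0 := Finset.prod_ne_zero_iff.2 fun i _ => hl i
  refine ⟨(A⁻¹).map (algebraMap K F) * Matrix.diagonal (lin F A), ?_, ?_, ?_⟩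
  · rw [Matrix.det_mul, Matrix.det_diagonal, hdet]
    exact mul_ne_zero (inv_ne_zero hAF) hpl
  · rw [Matrix.det_mul, Matrix.det_diagonal, hdet, E.mul (inv_ne_zero hAF) hpl, E.inv,
      E.prod _ _ fun i _ => hl i]
    ring
  · intro d G hG a
    -- `H = G ∘ A⁻¹`
    have hH : (sub G (A⁻¹)).IsHomogeneous d := sub_homog hG _
    have h1 : sub G ((A⁻¹).map (algebraMap K F) * Matrix.diagonal (lin F A)) =
        sub (sub G (A⁻¹)) (Matrix.diagonal (lin F A)) :=
      (sub_sub (R := K) (S := K) (S' := F) G (A⁻¹) (Matrix.diagonal (lin F A))).symm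
    have h2 : (sub (sub G (A⁻¹)) (Matrix.diagonal (lin F A))).coeff a =
        algebraMap K F ((sub G (A⁻¹)).coeff a) * ∏ i, lin F A i ^ a i := by
      rw [← sub_map (R := K) (S := F) (S' := F) (sub G (A⁻¹)) (Matrix.diagonal (lin F A)),
        coeff_sub_diagonal, coeff_map]
    have h3 : aeval (lin F A) (sub G (A⁻¹)) = ev F G := by
      unfold sub ev
      rw [← AlgHom.comp_apply]
      congr 1
      apply MvPolynomial.algHom_ext
      intro i
      rw [AlgHom.comp_apply, aeval_X, aeval_X, map_sum]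
      have h4 : ∀ j, aeval (lin F A) (C ((A⁻¹) i j) * X j : MvPolynomial (Fin (r + 1)) K) =
          ∑ k, algebraMap K F ((A⁻¹) i j * A j k) * zz r K F k := by
        intro j
        rw [map_mul, aeval_C, aeval_X]
        unfold lin
        rw [Finset.mul_sum]
        refine Finset.sum_congr rfl fun k _ => ?_
        rw [map_mul]
        ring
      rw [Finset.sum_congr rfl fun j _ => h4 j, Finset.sum_comm]
      have h5 : ∀ k, ∑ j, algebraMap K F ((A⁻¹) i j * A j k) * zz r K F k =
          algebraMap K F ((1 : Matrix (Fin (r + 1)) (Fin (r + 1)) K) i k) * zz r K F k := by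
        intro k
        rw [← Finset.sum_mul, ← map_sum, ← Matrix.mul_apply, Matrix.nonsing_inv_mul A hu]
      rw [Finset.sum_congr rfl fun k _ => h5 k, Finset.sum_eq_single i]
      · rw [Matrix.one_apply_eq, map_one, one_mul]
      · intro k _ hk
        rw [Matrix.one_apply_ne (Ne.symm hk), map_zero, zero_mul]
      · intro h
        exact absurd (Finset.mem_univ i) h
    rw [h1, h2]
    by_cases hc : (sub G (A⁻¹)).coeff a = 0
    · rw [hc, map_zero, zero_mul]
      exact E.ge_zero _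
    · right
      have h4 := hE d (sub G (A⁻¹)) hH a (mem_support_iff.2 hc)
      rw [h3] at h4
      rw [E.mul ((map_ne_zero _).2 hc) (Finset.prod_ne_zero_iff.2 fun i _ => pow_ne_zero _ (hl i)),
        E.prod _ _ fun i _ => pow_ne_zero _ (hl i)]
      have h5 : ∑ i, E (lin F A i ^ a i) = ∑ i, (a i : ℤ) * E (lin F A i) :=
        Finset.sum_congr rfl fun i _ => E.pow (hl i) _
      rw [h5]
      exact h4

/-- The order of vanishing depends only on the ideal of the equation. -/
theorem isOrdH_congr {E : F → ℤ} {P Q : MvPolynomial (Fin (r + 1)) K} (h : IsOrdH E P)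
    (hPQ : Associated P Q) : IsOrdH E Q := by
  obtain ⟨w, hw⟩ := hPQ
  intro m n d G H hG hH hQG hQH
  have hdvd : ∀ B : MvPolynomial (Fin (r + 1)) K, ∀ k : ℕ, ¬ Q ∣ B → ¬ P ∣ (w : MvPolynomial _ K) ^ k * B := by
    intro B k hB hd
    apply hB
    have hwk : IsUnit ((w : MvPolynomial (Fin (r + 1)) K) ^ k) := w.isUnit.pow k
    have h1 : P ∣ B := (hwk.dvd_mul_left).1 hd
    rw [← hw]
    exact (w.isUnit.mul_right_dvd).2 h1
  have e1 : ∀ (k : ℕ) (B : MvPolynomial (Fin (r + 1)) K),
      Q ^ k * B = P ^ k * ((w : MvPolynomial (Fin (r + 1)) K) ^ k * B) := by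
    intro k B
    rw [← hw, mul_pow]
    ring
  rw [e1 m G] at hG ⊢
  rw [e1 n H] at hH ⊢
  exact h m n d _ _ hG hH (hdvd G m hQG) (hdvd H n hQH)

open Classical in
/-- The normalised value of the equation of a prime divisor at a prime divisor. -/
theorem hv_Pf (hr : 0 < r) (E E' : DVal F) (hE : IsFibrePrime r K E) (hE' : IsFibrePrime r K E') :
    hv E (dg r K E') (Pf r K E') = if E' = E then 1 else 0 := by
  obtain ⟨h1, h2, h3, h4⟩ := Pf_spec hE
  obtain ⟨h1', h2', h3', h4'⟩ := Pf_spec hE'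
  split_ifs with hEE
  · subst hEE
    have := hv_ordH (E := E'.toQVal) hr h1' h3' h4' 1 (dg r K E') 1
      (by rw [pow_one, mul_one]; exact h1')
      (fun hd => h3'.not_isUnit (isUnit_of_dvd_one hd))
    rw [pow_one, mul_one] at this
    simpa using this
  · have hnd : ¬ Pf r K E ∣ Pf r K E' := by
      intro hd
      have has := (h3.dvd_irreducible_iff_associated h3').1 hd
      have h5 := isOrdH_congr h4 has
      apply hEE
      refine DVal.ext_of fun f _ => ?_
      exact ordH_unique (E := E'.toQVal) (E' := E.toQVal) h1' h3' h4' h5 f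
    have := hv_ordH (E := E.toQVal) hr h1 h3 h4 0 (dg r K E') (Pf r K E')
      (by rw [pow_zero, one_mul]; exact h1') hnd
    rw [pow_zero, one_mul] at this
    simpa using this

theorem weak_nonvanishing (hr : 0 < r) (y : Fin c → K) (hy : IsTranscendenceBasis ℂ y)
    {x : Fin (N + 1) → F} (hx : IsProjModel r K x)
    (hfib : ∀ E : DVal F, IsFibrePrime r K E → ∃ i, IsPrimeOf (chart x i) E)
    (hlin : ∀ i (E : DVal F), IsPrimeOf (chart x i) E →
      (∃ a : K, E (algebraMap K F a) ≠ 0) → IsLinear r K E)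
    (KX Δ : DVal F → ℝ)
    (hK : ∀ i (E : DVal F), IsPrimeOf (chart x i) E → ∃ k : ℤ, KX E = k ∧ IsOrd E (form r F y) k)
    (hΔ : ∀ i (E : DVal F), IsPrimeOf (chart x i) E → 0 ≤ Δ E)
    (hfin : {E : DVal F | (∃ i, IsPrimeOf (chart x i) E) ∧ Δ E ≠ 0}.Finite)
    (hκ : ∃ g : K →₀ ℝ, ∀ i (E : DVal F), IsPrimeOf (chart x i) E → ∀ (w : DVal K) (e : ℤ),
      0 < e → (∀ a : K, E (algebraMap K F a) = e * w a) →
      ∃ b : ℤ, OrdGE w (formY y) b ∧ 0 ≤ e * (b + 1) - 1 + Δ E + e * val g w)
    (hC : IsRCartier x (KX + Δ))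
    (hlc : ∀ E : DVal F, (∀ a : K, E (algebraMap K F a) = 0) →
      LcAt x (form r F y) (KX + Δ) E)
    (hps : IsPsef x (KX + Δ)) :
    ∃ φ : F →₀ ℝ, ∀ i (E : DVal F), IsPrimeOf (chart x i) E → 0 ≤ (KX + Δ) E + val φ E := by
  classical
  obtain ⟨g, hg⟩ := hκ
  obtain ⟨s, E₀, γ, Φ, hinj, hE₀, hγ0, hγΔ, hγsum, hΦ⟩ :=
    exists_data hr y hy hx hfib KX Δ hK hΔ hfin hC hlc hps
  refine ⟨lift F g + lift F Φ + ∑ i, Finsupp.single (zz r K F i) (1 : ℝ) -
    ∑ j, Finsupp.single (ev F (Pf r K (E₀ j))) (γ j), ?_⟩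
  intro i E hE
  have hval : val (lift F g + lift F Φ + ∑ i, Finsupp.single (zz r K F i) (1 : ℝ) -
      ∑ j, Finsupp.single (ev F (Pf r K (E₀ j))) (γ j)) E =
      val g (fun a => E (algebraMap K F a)) + val Φ (fun a => E (algebraMap K F a)) +
        ((∑ i, E (zz r K F i) : ℤ) : ℝ) - ∑ j, γ j * ((E (ev F (Pf r K (E₀ j))) : ℤ) : ℝ) := by
    rw [val_sub, val_add, val_add, val_lift, val_lift, val_sum, val_sum, Int.cast_sum]
    congr 1
    · congr 1
      refine Finset.sum_congr rfl fun i _ => ?_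
      rw [val_single, one_mul]
    · refine Finset.sum_congr rfl fun j _ => ?_
      rw [val_single]
  rw [hval]
  by_cases htriv : ∃ a : K, E (algebraMap K F a) ≠ 0
  · -- vertical primes
    obtain ⟨A, hA, hEA⟩ := hlin i E hE htriv
    obtain ⟨w₀, e, he, hw⟩ := exists_normalise (QVal.restr K E.toQVal) htriv
    have hEe : ∀ a : K, E (algebraMap K F a) = e * w₀ a := fun a => hw a
    obtain ⟨b, hb, hb0⟩ := hg i E hE w₀ e he hEe
    have hord := vertical_order (r := r) y hy E w₀ e he hEe b hb A hA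
    obtain ⟨k, hk, hko⟩ := hK i E hE
    have hle := le_of_isOrd hko hord
    obtain ⟨T, hT, hTE, hTG⟩ := linear_bound E.toQVal A hA hEA
    have h1 := hΦ E.toQVal T hT (fun j => E (ev F (Pf r K (E₀ j))))
      (fun j a => hTG _ _ (Pf_spec (hE₀ j)).1 a)
    have hvg : val g (fun a => E (algebraMap K F a)) = e * val g w₀ := by
      rw [val_eq_sum, val_eq_sum, Finset.mul_sum]
      refine Finset.sum_congr rfl fun a _ => ?_
      rw [hEe a]
      push_cast
      ring
    have hTE' : ((E.toQVal T.det : ℤ) : ℝ) = ((∑ i, E (lin F A i) : ℤ) : ℝ) -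
        ((E (algebraMap K F A.det) : ℤ) : ℝ) := by
      rw [hTE]
      push_cast
      rfl
    have hle' : ((e : ℝ) * b) + (e - 1) + ((∑ i, E (lin F A i) : ℤ) : ℝ) -
        ((E (algebraMap K F A.det) : ℤ) : ℝ) - ((∑ i, E (zz r K F i) : ℤ) : ℝ) ≤ k := by
      exact_mod_cast hle
    rw [hTE'] at h1
    rw [hvg, Pi.add_apply, hk]
    have h2 : ∑ j, γ j * ((E (ev F (Pf r K (E₀ j))) : ℤ) : ℝ) -
        (((∑ i, E (lin F A i) : ℤ) : ℝ) - ((E (algebraMap K F A.det) : ℤ) : ℝ)) ≤
        val Φ (fun a => E (algebraMap K F a)) := h1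
    linarith
  · -- horizontal primes
    push Not at htriv
    have hEf : IsFibrePrime r K E := trivial_prime hr hx i E hE htriv
    have hKX := canonical_fibre hr y hy hfib KX hK E hEf
    have hz : ∀ φ : K →₀ ℝ, val φ (fun a => E (algebraMap K F a)) = 0 := by
      intro φ
      rw [val_eq_sum]
      refine Finset.sum_eq_zero fun a _ => ?_
      rw [htriv a]
      simp
    rw [hz g, hz Φ, Pi.add_apply, hKX]
    -- the coordinates
    have h1 := sum_hv_X hr E hEf
    have h2 : ∑ i, E (zz r K F i) = cor r K E + (r + 1 : ℕ) * mu r K E := by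
      have e1 : ∀ i : Fin (r + 1), hv E 1 (X i : MvPolynomial (Fin (r + 1)) K) =
          E (zz r K F i) - mu r K E := by
        intro i
        unfold hv
        rw [ev_X]
        push_cast
        ring
      simp only [e1, Finset.sum_sub_distrib, Finset.sum_const, Finset.card_univ,
        Fintype.card_fin, nsmul_eq_mul] at h1
      linarith
    -- the equations
    have h3 : ∀ j, E (ev F (Pf r K (E₀ j))) =
        (if E₀ j = E then 1 else 0) + dg r K (E₀ j) * mu r K E := by
      intro j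
      have e1 := hv_Pf hr E (E₀ j) hEf (hE₀ j)
      unfold hv at e1
      linarith
    have h4 : ∑ j, γ j * ((E (ev F (Pf r K (E₀ j))) : ℤ) : ℝ) =
        ∑ j, γ j * (if E₀ j = E then (1 : ℝ) else 0) + (r + 1) * (mu r K E : ℝ) := by
      rw [← hγsum, Finset.sum_mul, ← Finset.sum_add_distrib]
      refine Finset.sum_congr rfl fun j _ => ?_
      rw [h3 j]
      push_cast
      split_ifs <;> ring
    rw [h2, h4]
    have h5 : ∑ j, γ j * (if E₀ j = E then (1 : ℝ) else 0) ≤ Δ E := by
      by_cases hex : ∃ j, E₀ j = E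
      · obtain ⟨j, hj⟩ := hex
        rw [Finset.sum_eq_single j]
        · rw [if_pos hj, mul_one, ← hj]
          exact hγΔ j
        · intro j' _ hj'
          rw [if_neg, mul_zero]
          intro h
          exact hj' (hinj (h.trans hj.symm))
        · intro h
          exact absurd (Finset.mem_univ j) h
      · push Not at hex
        rw [Finset.sum_eq_zero fun j _ => by rw [if_neg (hex j), mul_zero]]
        exact hΔ i E hE
    push_cast
    linarith

end WPB
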