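import Pool.Agent.WPB.SUB

open MvPolynomial

namespace WPB

/-- A coordinate system over a field extension specialises to one over a finite extension with
at most the same monomials. -/
theorem descent {k s : ℕ} {K κ : Type} [Field K] [Field κ] [Algebra K κ]
    (f : Fin s → MvPolynomial (Fin k) K) (h : Matrix (Fin k) (Fin k) κ) (hh : h.det ≠ 0) :
    ∃ (K' : Type) (_ : Field K') (_ : Algebra K K') (_ : Module.Finite K K')
      (h' : Matrix (Fin k) (Fin k) K'), h'.det ≠ 0 ∧
      ∀ j, (sub (f j) h').support ⊆ (sub (f j) h).support := by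
  classical
  let G : Finset κ := insert (h.det)⁻¹ (Finset.univ.image fun p : Fin k × Fin k => h p.1 p.2)
  let A0 : Subalgebra K κ := Algebra.adjoin K (G : Set κ)
  have hft : Algebra.FiniteType K A0 := by
    rw [← Subalgebra.fg_iff_finiteType]
    exact ⟨G, rfl⟩
  have hmem : ∀ i j, h i j ∈ A0 := fun i j =>
    Algebra.subset_adjoin (by
      simp only [G, Finset.coe_insert, Finset.coe_image, Finset.coe_univ, Set.image_univ,
        Set.mem_insert_iff, Set.mem_range]
      exact Or.inr ⟨(i, j), rfl⟩)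
  have hinv : (h.det)⁻¹ ∈ A0 := Algebra.subset_adjoin (by simp [G])
  let h0 : Matrix (Fin k) (Fin k) A0 := fun i j => ⟨h i j, hmem i j⟩
  have hmap : h0.map A0.val = h := by
    ext i j
    rfl
  have hdet : A0.val h0.det = h.det := by
    rw [← hmap]
    exact RingHom.map_det (A0.val : A0 →+* κ) h0
  have hunit : IsUnit h0.det := by
    refine IsUnit.of_mul_eq_one ⟨(h.det)⁻¹, hinv⟩ ?_
    apply Subtype.ext
    change (h0.det : κ) * (h.det)⁻¹ = 1
    have : (h0.det : κ) = h.det := hdet
    rw [this, mul_inv_cancel₀ hh]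
  obtain ⟨M, hM⟩ := Ideal.exists_maximal A0
  let _ : Field (A0 ⧸ M) := Ideal.Quotient.field M
  have hfin : Module.Finite K (A0 ⧸ M) := by
    have : Algebra.FiniteType K (A0 ⧸ M) :=
      Algebra.FiniteType.of_surjective (Ideal.Quotient.mkₐ K M) (Ideal.Quotient.mkₐ_surjective K M)
    exact finite_of_finite_type_of_isJacobsonRing K (A0 ⧸ M)
  refine ⟨A0 ⧸ M, inferInstance, inferInstance, hfin, h0.map (Ideal.Quotient.mkₐ K M), ?_, ?_⟩
  · have h1 : (h0.map (Ideal.Quotient.mkₐ K M)).det = Ideal.Quotient.mkₐ K M h0.det :=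
      (RingHom.map_det (Ideal.Quotient.mkₐ K M : A0 →+* A0 ⧸ M) h0).symm
    rw [h1]
    exact (hunit.map (Ideal.Quotient.mkₐ K M)).ne_zero
  · intro j a ha
    rw [MvPolynomial.mem_support_iff] at ha ⊢
    rw [← WPB.map_sub, coeff_map] at ha
    have h2 : (sub (f j) h0).coeff a ≠ 0 := fun h0' => ha (by rw [h0', map_zero])
    have h3 : (sub (f j) h).coeff a = A0.val ((sub (f j) h0).coeff a) := by
      rw [← hmap, ← WPB.map_sub, coeff_map]
      rfl
    rw [h3]
    intro h4
    apply h2
    apply Subtype.ext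
    exact h4

end WPB
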