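import Pool.Agent.WNV.FAR

namespace WPB

private theorem GOR_clear {κ : Type*} [Fintype κ] (w : κ → ℚ) (hw : ∀ k, 0 ≤ w k) :
    ∃ (D : ℕ) (n : κ → ℕ), 0 < D ∧ ∀ k, (n k : ℚ) = D * w k := by
  classical
  have h : ∀ k, ∃ c : ℕ, ∏ j, (w j).den = (w k).den * c := fun k =>
    (Finset.dvd_prod_of_mem (fun j => (w j).den) (Finset.mem_univ k))
  choose c hc using h
  refine ⟨∏ j, (w j).den, fun k => (w k).num.toNat * c k,
    Finset.prod_pos fun j _ => (w j).den_pos, fun k => ?_⟩
  rw [hc k]
  push_cast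
  have h0 : (((w k).num.toNat : ℤ) : ℚ) = (w k).num := by
    rw [Int.toNat_of_nonneg (Rat.num_nonneg.2 (hw k))]
  have h0' : ((w k).num.toNat : ℚ) = (w k).num := by
    rw [← h0, Int.cast_natCast]
  have h1 : ((w k).num : ℚ) = (w k).den * w k := by
    rw [mul_comm]
    exact (Rat.mul_den_eq_num (w k)).symm
  rw [h0', h1]
  ring

private theorem GOR_prod {ι Γ : Type*} [CommGroup Γ] (s : Finset ι) (u : Γ) (f : ι → ℤ) :
    ∏ b ∈ s, u ^ f b = u ^ ∑ b ∈ s, f b := by
  classical
  induction s using Finset.induction_on with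
  | empty => simp
  | insert a s ha ih => rw [Finset.prod_insert ha, Finset.sum_insert ha, zpow_add, ih]

/-- Finitely many strict integral inequalities which can be solved in an ordered abelian group can
be solved in the integers. -/
theorem gordan {k : ℕ} {Γ : Type*} [CommGroup Γ] [LinearOrder Γ] [IsOrderedMonoid Γ]
    (B : Finset (Fin k → ℤ)) (u : Fin k → Γ) (h : ∀ β ∈ B, 1 < ∏ i, u i ^ β i) :
    ∃ v : Fin k → ℤ, ∀ β ∈ B, 0 < ∑ i, β i * v i := by
  classical
  by_contra hcon
  push Not at hcon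
  obtain ⟨x, hx, hb⟩ := WNV.farkas_int (ι := B) (κ := Option (Fin k))
    (fun β o => o.elim (-1) (fun i => β.1 i)) (fun o => o.elim (-1) (fun _ => 0)) (by
      intro n hn
      rw [Fintype.sum_option]
      simp only [Option.elim_none, Option.elim_some, mul_zero, Finset.sum_const_zero, add_zero]
      by_contra hneg
      obtain ⟨β, hβ, hle⟩ := hcon (fun i => n (some i))
      have h1 := hn ⟨β, hβ⟩
      rw [Fintype.sum_option] at h1
      simp only [Option.elim_none, Option.elim_some] at h1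
      have h2 : ∑ i, n (some i) * β i = ∑ i, β i * n (some i) :=
        Finset.sum_congr rfl fun i _ => mul_comm _ _
      rw [h2] at h1
      linarith)
  obtain ⟨D, m, hD, hm⟩ := GOR_clear x hx
  have hsum : ∑ β : B, m β = D := by
    have h1 := hb none
    simp only [Option.elim_none] at h1
    have h2 : ∑ β : B, x β = 1 := by
      have h3 : ∑ β : B, x β * ((-1 : ℤ) : ℚ) = -∑ β : B, x β := by
        rw [← Finset.sum_neg_distrib]
        exact Finset.sum_congr rfl fun β _ => by push_cast; ring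
      rw [h3] at h1
      push_cast at h1
      linarith
    have h4 : ((∑ β : B, m β : ℕ) : ℚ) = D := by
      rw [Nat.cast_sum, Finset.sum_congr rfl fun β _ => hm β, ← Finset.mul_sum, h2, mul_one]
    exact_mod_cast h4
  have hzero : ∀ i, ∑ β : B, (m β : ℤ) * β.1 i = 0 := by
    intro i
    have h1 := hb (some i)
    simp only [Option.elim_some] at h1
    have h4 : ((∑ β : B, (m β : ℤ) * β.1 i : ℤ) : ℚ) = 0 := by
      rw [Int.cast_sum]
      have h5 : ∀ β : B, (((m β : ℤ) * β.1 i : ℤ) : ℚ) = D * (x β * (β.1 i : ℚ)) := by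
        intro β
        rw [Int.cast_mul, Int.cast_natCast, hm β]
        ring
      rw [Finset.sum_congr rfl fun β _ => h5 β, ← Finset.mul_sum, ← h1]
      push_cast
      ring
    exact_mod_cast h4
  have hprod : ∏ β : B, (∏ i, u i ^ β.1 i) ^ m β = 1 := by
    have h1 : ∀ β : B, (∏ i, u i ^ β.1 i) ^ m β = ∏ i, u i ^ ((m β : ℤ) * β.1 i) := by
      intro β
      rw [← Finset.prod_pow]
      refine Finset.prod_congr rfl fun i _ => ?_
      rw [← zpow_natCast, ← zpow_mul, mul_comm]
    rw [Finset.prod_congr rfl fun β _ => h1 β, Finset.prod_comm]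
    refine Finset.prod_eq_one fun i _ => ?_
    rw [GOR_prod, hzero i, zpow_zero]
  have hex : ∃ β : B, m β ≠ 0 := by
    by_contra hn
    push Not at hn
    rw [Finset.sum_eq_zero fun β _ => hn β] at hsum
    omega
  obtain ⟨β₀, hβ₀⟩ := hex
  have hlt : 1 < ∏ β : B, (∏ i, u i ^ β.1 i) ^ m β :=
    Finset.one_lt_prod' (fun β _ => one_le_pow_of_one_le' (h β.1 β.2).le _)
      ⟨β₀, Finset.mem_univ _, one_lt_pow' (h β₀.1 β₀.2) hβ₀⟩
  exact absurd hprod hlt.ne'

end WPB
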