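import Mathlib

namespace WPB

private def SmiP {L : Type*} [Field L] (V : ValuationSubring L) {n : Type*} [Fintype n]
    [DecidableEq n] (T : Matrix n n L) : Prop :=
  ∃ (A A' B B' : Matrix n n L) (t : n → L),
      (∀ i j, A i j ∈ V) ∧ (∀ i j, A' i j ∈ V) ∧ (∀ i j, B i j ∈ V) ∧ (∀ i j, B' i j ∈ V) ∧
      A * A' = 1 ∧ B * B' = 1 ∧ T = A * Matrix.diagonal t * B

private theorem smi_of_equiv {L : Type*} [Field L] (V : ValuationSubring L) {n m : Type*}
    [Fintype n] [DecidableEq n] [Fintype m] [DecidableEq m] (T : Matrix m m L) (σ τ : n ≃ m)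
    (h : SmiP V (T.submatrix σ τ)) : SmiP V T := by
  obtain ⟨A, A', B, B', t, hA, hA', hB, hB', hAA, hBB, hT⟩ := h
  refine ⟨A.submatrix σ.symm σ.symm, A'.submatrix σ.symm σ.symm, B.submatrix σ.symm τ.symm,
    B'.submatrix τ.symm σ.symm, t ∘ σ.symm, fun i j => hA _ _, fun i j => hA' _ _,
    fun i j => hB _ _, fun i j => hB' _ _, ?_, ?_, ?_⟩
  · rw [Matrix.submatrix_mul_equiv, hAA, Matrix.submatrix_one_equiv]
  · rw [Matrix.submatrix_mul_equiv, hBB, Matrix.submatrix_one_equiv]
  · have h1 : T = (T.submatrix σ τ).submatrix σ.symm τ.symm := by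
      ext i j
      simp
    rw [h1, hT, ← Matrix.submatrix_diagonal_equiv, Matrix.submatrix_mul_equiv,
      Matrix.submatrix_mul_equiv]

private theorem smi_zero {L : Type*} [Field L] (V : ValuationSubring L) {n : Type*}
    [Fintype n] [DecidableEq n] : SmiP V (0 : Matrix n n L) := by
  have h1 : ∀ i j, (1 : Matrix n n L) i j ∈ V := by
    intro i j
    rw [Matrix.one_apply]
    split_ifs
    · exact V.one_mem
    · exact V.zero_mem
  refine ⟨1, 1, 1, 1, 0, h1, h1, h1, h1, by simp, by simp, ?_⟩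
  ext i j
  simp

private theorem mul_mem_V {L : Type*} [Field L] (V : ValuationSubring L) {l m n : Type*}
    [Fintype m] (A : Matrix l m L) (B : Matrix m n L) (hA : ∀ i j, A i j ∈ V)
    (hB : ∀ i j, B i j ∈ V) (i : l) (j : n) : (A * B) i j ∈ V := by
  rw [Matrix.mul_apply]
  exact sum_mem fun c _ => mul_mem (hA _ _) (hB _ _)

private theorem smi_step {L : Type*} [Field L] (V : ValuationSubring L) {n : Type*}
    [Fintype n] [DecidableEq n] (ih : ∀ T : Matrix n n L, SmiP V T)
    (T : Matrix (Unit ⊕ n) (Unit ⊕ n) L) (hd : T (Sum.inl ()) (Sum.inl ()) ≠ 0)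
    (hT : ∀ i j, (T (Sum.inl ()) (Sum.inl ()))⁻¹ * T i j ∈ V) : SmiP V T := by
  set d := T (Sum.inl ()) (Sum.inl ()) with hdd
  set R := T.toBlocks₁₂ with hR
  set C := T.toBlocks₂₁ with hC
  set M := T.toBlocks₂₂ with hM
  have hTb : T = Matrix.fromBlocks (d • (1 : Matrix Unit Unit L)) R C M := by
    rw [← Matrix.fromBlocks_toBlocks T]
    congr 1
    ext i j
    simp [Matrix.toBlocks₁₁, hdd]
  obtain ⟨A, A', B, B', t, hA, hA', hB, hB', hAA, hBB, hM1⟩ := ih (M - d⁻¹ • (C * R))
  have hRV : ∀ i j, (d⁻¹ • R) i j ∈ V := fun i j => by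
    simpa [hR, Matrix.toBlocks₁₂] using hT (Sum.inl i) (Sum.inr j)
  have hCV : ∀ i j, (d⁻¹ • C) i j ∈ V := fun i j => by
    simpa [hC, Matrix.toBlocks₂₁] using hT (Sum.inr i) (Sum.inl j)
  have h1V : ∀ i j, (1 : Matrix Unit Unit L) i j ∈ V := fun i j => by
    rw [Matrix.one_apply]
    split_ifs
    · exact V.one_mem
    · exact V.zero_mem
  refine ⟨Matrix.fromBlocks 1 0 (d⁻¹ • C) A, Matrix.fromBlocks 1 0 (-(A' * (d⁻¹ • C))) A',
    Matrix.fromBlocks 1 (d⁻¹ • R) 0 B, Matrix.fromBlocks 1 (-((d⁻¹ • R) * B')) 0 B',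
    Sum.elim (fun _ => d) t, ?_, ?_, ?_, ?_, ?_, ?_, ?_⟩
  · rintro (i | i) (j | j)
    · exact h1V i j
    · exact V.zero_mem
    · exact hCV i j
    · exact hA i j
  · rintro (i | i) (j | j)
    · exact h1V i j
    · exact V.zero_mem
    · exact V.neg_mem _ (mul_mem_V V _ _ hA' hCV i j)
    · exact hA' i j
  · rintro (i | i) (j | j)
    · exact h1V i j
    · exact hRV i j
    · exact V.zero_mem
    · exact hB i j
  · rintro (i | i) (j | j)
    · exact h1V i j
    · exact V.neg_mem _ (mul_mem_V V _ _ hRV hB' i j)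
    · exact V.zero_mem
    · exact hB' i j
  · rw [Matrix.fromBlocks_multiply]
    simp only [Matrix.mul_neg, ← Matrix.mul_assoc, hAA, Matrix.one_mul, Matrix.mul_one,
      Matrix.mul_zero, Matrix.zero_mul, add_zero, zero_add, add_neg_cancel, neg_zero]
    rw [Matrix.fromBlocks_one]
  · rw [Matrix.fromBlocks_multiply]
    simp only [hBB, Matrix.one_mul, Matrix.mul_one,
      Matrix.mul_zero, Matrix.zero_mul, add_zero, zero_add, neg_add_cancel]
    exact Matrix.fromBlocks_one
  · have hD : Matrix.diagonal (Sum.elim (fun _ : Unit => d) t) =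
        Matrix.fromBlocks (d • (1 : Matrix Unit Unit L)) 0 0 (Matrix.diagonal t) := by
      rw [← Matrix.fromBlocks_diagonal]
      congr 1
      ext i j
      simp
    have hMM : M = d⁻¹ • (C * R) + A * Matrix.diagonal t * B := by
      rw [← hM1]
      abel
    rw [hD, Matrix.fromBlocks_multiply, Matrix.fromBlocks_multiply]
    conv_lhs => rw [hTb, hMM]
    simp only [Matrix.one_mul, Matrix.mul_one, Matrix.mul_zero, Matrix.zero_mul, add_zero,
      zero_add, Matrix.smul_mul, Matrix.mul_smul, smul_smul]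
    have e1 : d * d⁻¹ = 1 := mul_inv_cancel₀ hd
    have e2 : d⁻¹ * d = 1 := inv_mul_cancel₀ hd
    congr 1
    · simp [e2]
    · simp [e1]
    · simp [e1]

private theorem exists_pivot {L : Type*} [Field L] (V : ValuationSubring L) {n : Type*}
    [Fintype n] (T : Matrix n n L) (hT : T ≠ 0) :
    ∃ i j, T i j ≠ 0 ∧ ∀ a b, (T i j)⁻¹ * T a b ∈ V := by
  have hne : ∃ i j, T i j ≠ 0 := by
    by_contra h
    push Not at h
    exact hT (by ext i j; simpa using h i j)
  obtain ⟨i0, j0, h0⟩ := hne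
  have hne2 : (Finset.univ : Finset (n × n)).Nonempty := ⟨(i0, j0), Finset.mem_univ _⟩
  obtain ⟨p, -, hp⟩ := Finset.exists_max_image (Finset.univ : Finset (n × n))
    (fun p => V.valuation (T p.1 p.2)) hne2
  have hp0 : T p.1 p.2 ≠ 0 := by
    intro h
    have := hp (i0, j0) (Finset.mem_univ _)
    simp only [h, map_zero] at this
    have h2 : V.valuation (T i0 j0) = 0 := le_antisymm this zero_le
    exact h0 ((V.valuation.zero_iff).1 h2)
  refine ⟨p.1, p.2, hp0, fun a b => ?_⟩
  rw [← V.valuation_le_one_iff, map_mul, map_inv₀]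
  have h1 := hp (a, b) (Finset.mem_univ _)
  have h2 : V.valuation (T p.1 p.2) ≠ 0 := by
    rw [Ne, Valuation.zero_iff]
    exact hp0
  calc (V.valuation (T p.1 p.2))⁻¹ * V.valuation (T a b)
      ≤ (V.valuation (T p.1 p.2))⁻¹ * V.valuation (T p.1 p.2) := by
        gcongr
    _ = 1 := inv_mul_cancel₀ h2

private theorem smi_all {L : Type*} [Field L] (V : ValuationSubring L) (k : ℕ) :
    ∀ T : Matrix (Fin k) (Fin k) L, SmiP V T := by
  induction k with
  | zero =>
    intro T
    have : T = 0 := Subsingleton.elim _ _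
    rw [this]
    exact smi_zero V
  | succ k ih =>
    intro T
    by_cases hT : T = 0
    · rw [hT]
      exact smi_zero V
    · obtain ⟨i, j, hij, hV⟩ := exists_pivot V T hT
      have e : Unit ⊕ Fin k ≃ Fin (k + 1) :=
        (Fintype.equivOfCardEq (by simp [add_comm]))
      let σ : Unit ⊕ Fin k ≃ Fin (k + 1) := e.trans (Equiv.swap (e (Sum.inl ())) i)
      let τ : Unit ⊕ Fin k ≃ Fin (k + 1) := e.trans (Equiv.swap (e (Sum.inl ())) j)
      have hσ : σ (Sum.inl ()) = i := by simp [σ]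
      have hτ : τ (Sum.inl ()) = j := by simp [τ]
      apply smi_of_equiv V T σ τ
      apply smi_step V ih
      · rw [Matrix.submatrix_apply, hσ, hτ]
        exact hij
      · intro a b
        rw [Matrix.submatrix_apply, hσ, hτ, Matrix.submatrix_apply]
        exact hV _ _

/-- Smith normal form over a valuation ring. -/
theorem smith {L : Type*} [Field L] (V : ValuationSubring L) (k : ℕ)
    (T : Matrix (Fin k) (Fin k) L) :
    ∃ (A A' B B' : Matrix (Fin k) (Fin k) L) (t : Fin k → L),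
      (∀ i j, A i j ∈ V) ∧ (∀ i j, A' i j ∈ V) ∧ (∀ i j, B i j ∈ V) ∧ (∀ i j, B' i j ∈ V) ∧
      A * A' = 1 ∧ B * B' = 1 ∧ T = A * Matrix.diagonal t * B := by
  exact smi_all V k T

end WPB
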