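import Pool.Agent.WPB.SUB
import Pool.Agent.WPB.SMI
import Pool.Agent.WPB.GOR
import Pool.Agent.WPB.DSC

open MvPolynomial

namespace WPB

/-- The ring generated by the constants and the products of `m_j` coefficients of the generic
transform of `f_j`. -/
noncomputable def baseRing {k s : ℕ} {K : Type} [Field K] (f : Fin s → MvPolynomial (Fin k) K)
    (m : Fin s → ℕ) : Subring (MvPolynomial (Fin k × Fin k) K) :=
  Subring.closure (Set.range C ∪ {x | ∃ α : Fin s → Multiset (Fin k →₀ ℕ),
    (∀ j, Multiset.card (α j) = m j) ∧ x = mono (gco f) α})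

section core

variable {k s : ℕ} {K L : Type} [Field K] [Field L] [Algebra K L]

private theorem zpow_sum_eq {G ι : Type*} [CommGroup G] (g : G) (s : Finset ι) (a : ι → ℤ) :
    g ^ (∑ j ∈ s, a j) = ∏ j ∈ s, g ^ a j := by
  classical
  induction s using Finset.induction_on with
  | empty => simp
  | insert x s hx ih => rw [Finset.sum_insert hx, Finset.prod_insert hx, zpow_add, ih]

/-- The determinant of an invertible integral matrix is a unit. -/
private theorem val_det_eq_one (V : ValuationSubring L) {A A' : Matrix (Fin k) (Fin k) L}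
    (hA : ∀ i j, A i j ∈ V) (hA' : ∀ i j, A' i j ∈ V) (h : A * A' = 1) :
    V.valuation A.det = 1 := by
  have key : ∀ M : Matrix (Fin k) (Fin k) L, (∀ i j, M i j ∈ V) → V.valuation M.det ≤ 1 := by
    intro M hM
    have : M.det ∈ V := by
      rw [Matrix.det_apply]
      refine sum_mem fun σ _ => ?_
      rw [Units.smul_def]
      exact zsmul_mem (prod_mem fun i _ => hM _ _) _
    exact (V.valuation_le_one_iff _).2 this
  have h1 : V.valuation A.det * V.valuation A'.det = 1 := by
    rw [← map_mul, ← Matrix.det_mul, h, Matrix.det_one, map_one]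
  refine le_antisymm (key A hA) ?_
  rw [← h1]
  calc V.valuation A.det * V.valuation A'.det ≤ V.valuation A.det * 1 :=
        mul_le_mul_right (key A' hA') _
    _ = V.valuation A.det := mul_one _

/-- The supports of the reductions are seen on the coefficients. -/
private theorem reduce (V : ValuationSubring L) (hK : ∀ c : K, algebraMap K L c ∈ V)
    (f : Fin s → MvPolynomial (Fin k) K)
    {A A' : Matrix (Fin k) (Fin k) L}
    (hA : ∀ i j, A i j ∈ V) (hA' : ∀ i j, A' i j ∈ V) (h : A * A' = 1) :
    ∃ (κ : Type) (_ : Field κ) (_ : Algebra K κ) (Ab : Matrix (Fin k) (Fin k) κ), Ab.det ≠ 0 ∧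
      ∀ j, ∀ β ∈ (sub (f j) Ab).support, V.valuation ((sub (f j) A).coeff β) = 1 := by
  let alg : Algebra K V := ((algebraMap K L).codRestrict V.toSubring hK).toAlgebra
  have : IsScalarTower K V L := IsScalarTower.of_algebraMap_eq fun c => rfl
  let AV : Matrix (Fin k) (Fin k) V := fun i j => ⟨A i j, hA i j⟩
  let AV' : Matrix (Fin k) (Fin k) V := fun i j => ⟨A' i j, hA' i j⟩
  have hmap : AV.map (algebraMap V L) = A := by
    ext i j; rfl
  have hmap' : AV'.map (algebraMap V L) = A' := by
    ext i j; rfl
  have hinj : Function.Injective (algebraMap V L) := Subtype.val_injective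
  have hVV : AV * AV' = 1 := by
    have : (AV * AV').map (algebraMap V L) = (1 : Matrix (Fin k) (Fin k) V).map (algebraMap V L) := by
      rw [Matrix.map_mul, hmap, hmap', h, Matrix.map_one _ (map_zero _) (map_one _)]
    exact Matrix.map_injective hinj this
  let κ := IsLocalRing.ResidueField V
  let Ab : Matrix (Fin k) (Fin k) κ := AV.map (algebraMap V κ)
  let Ab' : Matrix (Fin k) (Fin k) κ := AV'.map (algebraMap V κ)
  have hb : Ab * Ab' = 1 := by
    rw [← Matrix.map_mul, hVV, Matrix.map_one _ (map_zero _) (map_one _)]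
  refine ⟨κ, inferInstance, inferInstance, Ab, ?_, ?_⟩
  · intro h0
    have : Ab.det * Ab'.det = 1 := by rw [← Matrix.det_mul, hb, Matrix.det_one]
    rw [h0, zero_mul] at this
    exact zero_ne_one this
  · intro j β hβ
    have e1 : map (algebraMap V κ) (sub (f j) AV) = sub (f j) Ab :=
      map_sub (IsScalarTower.toAlgHom K V κ) (f j) AV
    have e2 : map (algebraMap V L) (sub (f j) AV) = sub (f j) A := by
      have := map_sub (IsScalarTower.toAlgHom K V L) (f j) AV
      rw [← hmap]
      exact this
    have h1 : algebraMap V κ ((sub (f j) AV).coeff β) ≠ 0 := by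
      rw [mem_support_iff, ← e1, coeff_map] at hβ
      exact hβ
    have h2 : IsUnit ((sub (f j) AV).coeff β) := by
      by_contra hu
      apply h1
      exact (IsLocalRing.residue_eq_zero_iff _).2 ((IsLocalRing.mem_maximalIdeal _).2 hu)
    rw [← e2, coeff_map]
    exact (V.valuation_eq_one_iff _).1 h2

private theorem core (f : Fin s → MvPolynomial (Fin k) K) (hf : ∀ j, f j ≠ 0) (m : Fin s → ℕ)
    (N : ℕ) (hs : Semi f m N) (V : ValuationSubring L) (hK : ∀ c : K, algebraMap K L c ∈ V)
    (T : Matrix (Fin k) (Fin k) L) (hT : T.det ≠ 0)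
    (hV : ∀ α : Fin s → Multiset (Fin k →₀ ℕ), (∀ j, Multiset.card (α j) = m j) →
      mono (fun j a => (sub (f j) T).coeff a) α ∈ V) : T.det ^ N ∈ V := by
  by_contra hN
  have hN' : 1 < V.valuation T.det ^ N := by
    rw [← map_pow]
    by_contra h
    exact hN ((V.valuation_le_one_iff _).1 (not_lt.1 h))
  obtain ⟨A, A', B, B', t, hA, hA', hB, hB', hAA, hBB, hTt⟩ := smith V k T
  have hvT : V.valuation T.det = ∏ i, V.valuation (t i) := by
    rw [hTt, Matrix.det_mul, Matrix.det_mul, map_mul, map_mul, val_det_eq_one V hA hA' hAA,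
      val_det_eq_one V hB hB' hBB, one_mul, mul_one, Matrix.det_diagonal, map_prod]
  have ht : ∀ i, V.valuation (t i) ≠ 0 := by
    intro i h0
    apply hT
    have : V.valuation T.det = 0 := by
      rw [hvT]
      exact Finset.prod_eq_zero (Finset.mem_univ i) h0
    exact (Valuation.zero_iff _).1 this
  obtain ⟨κ, _, _, Ab, hAb, hred⟩ := reduce V hK f hA hA' hAA
  obtain ⟨K', _, _, _, h', hh', hsup⟩ := descent f Ab hAb
  -- the maximal coefficients
  have hex : ∀ j, ∃ a : Fin k →₀ ℕ, ∀ b, V.valuation ((sub (f j) T).coeff b) ≤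
      V.valuation ((sub (f j) T).coeff a) := by
    intro j
    have hne : (sub (f j) T).support.Nonempty := by
      rw [Finset.nonempty_iff_ne_empty, Ne, MvPolynomial.support_eq_empty]
      exact sub_ne_zero (hf j) hT
    obtain ⟨a, _, ha⟩ := Finset.exists_max_image (sub (f j) T).support
      (fun b => V.valuation ((sub (f j) T).coeff b)) hne
    refine ⟨a, fun b => ?_⟩
    by_cases hb : b ∈ (sub (f j) T).support
    · exact ha b hb
    · rw [notMem_support_iff.1 hb, map_zero]
      exact zero_le
  choose a ha using hex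
  have hprod : ∏ j, V.valuation ((sub (f j) T).coeff (a j)) ^ m j ≤ 1 := by
    have h1 := (V.valuation_le_one_iff _).2 (hV (fun j => Multiset.replicate (m j) (a j))
      (fun j => Multiset.card_replicate _ _))
    have h2 : mono (fun j a => (sub (f j) T).coeff a) (fun j => Multiset.replicate (m j) (a j)) =
        ∏ j, ((sub (f j) T).coeff (a j)) ^ m j := by
      unfold mono
      refine Finset.prod_congr rfl fun j _ => ?_
      rw [Multiset.map_replicate, Multiset.prod_replicate]
    rw [h2, map_prod] at h1
    simpa only [map_pow] using h1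
  -- the values of the monomials
  have hval : ∀ j, ∀ β ∈ (sub (f j) Ab).support, ∏ i, V.valuation (t i) ^ β i ≤
      V.valuation ((sub (f j) T).coeff (a j)) := by
    intro j β hβ
    have e1 : T * B' = A * Matrix.diagonal t := by
      rw [hTt, Matrix.mul_assoc, hBB, Matrix.mul_one]
    have e2 : sub (sub (f j) T) B' = sub (sub (f j) A) (Matrix.diagonal t) := by
      rw [sub_sub, sub_sub]
      have hid : ∀ M : Matrix (Fin k) (Fin k) L, M.map (algebraMap L L) = M := fun M => by
        ext i j; rfl
      rw [hid, hid, e1]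
    have h1 := valuation_sub_le V.valuation (sub (f j) T) (V.valuation ((sub (f j) T).coeff (a j)))
      (ha j) B' (fun i l => (V.valuation_le_one_iff _).2 (hB' i l)) β
    rw [e2, coeff_sub_diagonal, map_mul, hred j β hβ, one_mul, map_prod] at h1
    simpa only [map_pow] using h1
  -- integral inequalities
  classical
  let S : Finset (Fin s → (Fin k →₀ ℕ)) := Fintype.piFinset fun j => (sub (f j) Ab).support
  let bt : (Fin s → (Fin k →₀ ℕ)) → (Fin k → ℤ) := fun α i => (N : ℤ) - ∑ j, (m j : ℤ) * (α j i : ℤ)
  let u : Fin k → (V.ValueGroup)ˣ := fun i => Units.mk0 (V.valuation (t i)) (ht i)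
  have hu : ∀ β ∈ S.image bt, 1 < ∏ i, u i ^ β i := by
    intro β hβ
    obtain ⟨α, hα, rfl⟩ := Finset.mem_image.1 hβ
    rw [Fintype.mem_piFinset] at hα
    have h1 : ∏ i, u i ^ bt α i = (∏ i, u i) ^ N * (∏ j, (∏ i, u i ^ (α j i)) ^ m j)⁻¹ := by
      rw [← Finset.prod_inv_distrib, ← Finset.prod_pow]
      have : ∀ j, ((∏ i, u i ^ (α j i)) ^ m j)⁻¹ = ∏ i, (u i ^ (-((m j : ℤ) * (α j i : ℤ)))) := by
        intro j
        rw [← Finset.prod_pow, ← Finset.prod_inv_distrib]
        refine Finset.prod_congr rfl fun i _ => ?_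
        rw [zpow_neg, ← pow_mul, mul_comm (α j i) (m j)]
        congr 1
      simp_rw [this]
      rw [Finset.prod_comm, ← Finset.prod_mul_distrib]
      refine Finset.prod_congr rfl fun i _ => ?_
      rw [← zpow_sum_eq, ← zpow_natCast (u i) N, ← zpow_add]
      congr 1
      simp only [bt, Finset.sum_neg_distrib]
      ring
    rw [h1]
    have h2 : ∏ j, (∏ i, u i ^ (α j i)) ^ m j ≤ 1 := by
      rw [← Units.val_le_val]
      push_cast
      refine le_trans ?_ hprod
      refine Finset.prod_le_prod' fun j _ => ?_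
      exact pow_le_pow_left' (hval j (α j) (hα j)) (m j)
    have h3 : 1 < (∏ i, u i) ^ N := by
      rw [← Units.val_lt_val]
      push_cast
      rw [hvT] at hN'
      exact hN'
    calc (1 : (V.ValueGroup)ˣ) < (∏ i, u i) ^ N := h3
      _ = (∏ i, u i) ^ N * 1 := (mul_one _).symm
      _ ≤ _ := mul_le_mul_right (one_le_inv'.2 h2) _
  obtain ⟨w, hw⟩ := gordan (S.image bt) u hu
  obtain ⟨α, hα, hle⟩ := hs K' h' hh' (fun i => - w i)
  have hαS : α ∈ S := Fintype.mem_piFinset.2 fun j => hsup j (hα j)
  have h4 := hw _ (Finset.mem_image_of_mem bt hαS)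
  have h5 : ∑ i, bt α i * w i = (N : ℤ) * ∑ i, w i - ∑ j, (m j : ℤ) * pr (α j) w := by
    simp only [bt, sub_mul, Finset.sum_sub_distrib, pr, Finset.mul_sum, Finset.sum_mul]
    congr 1
    rw [Finset.sum_comm]
    refine Finset.sum_congr rfl fun j _ => Finset.sum_congr rfl fun i _ => by ring
  have h6 : ∀ j, pr (α j) (fun i => - w i) = - pr (α j) w := by
    intro j
    simp only [pr, mul_neg, Finset.sum_neg_distrib]
  simp only [h6, Finset.sum_neg_distrib, mul_neg] at hle
  rw [h5] at h4
  linarith

end core

/-- The Hilbert-Mumford criterion: `det ^ N` is integral over `baseRing f m`. -/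
theorem integral_of_semi {k s : ℕ} {K : Type} [Field K] (f : Fin s → MvPolynomial (Fin k) K)
    (hf : ∀ j, f j ≠ 0) (m : Fin s → ℕ) (N : ℕ) (hs : Semi f m N) :
    IsIntegral (baseRing f m) ((gen k K).det ^ N) := by
  let P := MvPolynomial (Fin k × Fin k) K
  let L := FractionRing P
  let ι : P →+* L := algebraMap P L
  have hι : Function.Injective ι := IsFractionRing.injective P L
  have hL : ι ((gen k K).det ^ N) ∈
      (integralClosure (Subring.closure (ι '' (baseRing f m : Set P))) L).toSubring := by
    rw [← iInf_valuationSubring_superset]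
    rw [Subring.mem_iInf]
    rintro ⟨V, hV⟩
    have hK : ∀ c : K, algebraMap K L c ∈ V := by
      intro c
      exact hV ⟨C c, Subring.subset_closure (Or.inl ⟨c, rfl⟩), rfl⟩
    have e1 : ι (gen k K).det = ((gen k K).map ι).det := by
      exact RingHom.map_det ι (gen k K)
    have e2 : ∀ (j : Fin s) (a : Fin k →₀ ℕ), ι (gco f j a) =
        (sub (f j) ((gen k K).map ι)).coeff a := by
      intro j a
      have := map_sub (IsScalarTower.toAlgHom K P L) (f j) (gen k K)
      have h2 := congrArg (coeff a) this
      rw [coeff_map] at h2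
      exact h2
    have h := core f hf m N hs V hK ((gen k K).map ι) (by
      rw [← e1]
      intro h0
      exact Matrix.det_mvPolynomialX_ne_zero (Fin k) K (hι (by rw [h0, map_zero]))) (by
      intro α hα
      have : mono (fun j a => (sub (f j) ((gen k K).map ι)).coeff a) α = ι (mono (gco f) α) := by
        unfold mono
        rw [map_prod]
        refine Finset.prod_congr rfl fun j _ => ?_
        rw [map_multiset_prod, Multiset.map_map]
        congr 1
        refine Multiset.map_congr rfl fun a _ => ?_
        exact (e2 j a).symm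
      rw [this]
      exact hV ⟨_, Subring.subset_closure (Or.inr ⟨α, hα, rfl⟩), rfl⟩)
    rw [map_pow, e1]
    exact h
  have hcl : Subring.closure (ι '' (baseRing f m : Set P)) = (baseRing f m).map ι := by
    rw [← Subring.coe_map, Subring.closure_eq]
  rw [hcl] at hL
  obtain ⟨p, hp, hp0⟩ : IsIntegral ((baseRing f m).map ι) (ι ((gen k K).det ^ N)) := hL
  let e : (baseRing f m) ≃+* ((baseRing f m).map ι) := (baseRing f m).equivMapOfInjective ι hι
  refine ⟨p.map (e.symm : ((baseRing f m).map ι) →+* (baseRing f m)), hp.map _, ?_⟩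
  apply hι
  rw [map_zero, Polynomial.hom_eval₂, Polynomial.eval₂_map, ← hp0]
  congr 1
  ext x
  have hx : ∀ y : (baseRing f m), ((e y : (baseRing f m).map ι) : L) = ι y := fun y => rfl
  have := hx (e.symm x)
  rw [RingEquiv.apply_symm_apply] at this
  exact this.symm

end WPB
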