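import Pool.Agent.WNV.FAR

namespace WPB

/-- Common denominator. -/
theorem rat_clear {ι : Type*} [Fintype ι] (w : ι → ℚ) (hw : ∀ i, 0 ≤ w i) :
    ∃ (D : ℕ) (n : ι → ℕ), 0 < D ∧ ∀ i, (n i : ℚ) = D * w i := by
  classical
  have h : ∀ i, ∃ c : ℕ, ∏ j, (w j).den = (w i).den * c := fun i =>
    (Finset.dvd_prod_of_mem (fun j => (w j).den) (Finset.mem_univ i))
  choose c hc using h
  refine ⟨∏ j, (w j).den, fun i => (w i).num.toNat * c i,
    Finset.prod_pos fun j _ => (w j).den_pos, fun i => ?_⟩
  rw [hc i]
  push_cast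
  have h0 : ((w i).num.toNat : ℤ) = (w i).num := Int.toNat_of_nonneg (Rat.num_nonneg.2 (hw i))
  have h0' : (((w i).num.toNat : ℕ) : ℚ) = ((w i).num : ℚ) := by exact_mod_cast h0
  rw [h0']
  have h1 : ((w i).num : ℚ) = (w i).den * w i := by
    rw [mul_comm]
    exact (Rat.mul_den_eq_num (w i)).symm
  rw [h1]
  ring

/-- A nonnegative real solution yields a solution in natural numbers which is supported in its
support and does not vanish at a given point of the support. -/
theorem rat_step {ι κ : Type*} [Fintype ι] [Fintype κ] (A : κ → ι → ℤ) (x : ι → ℝ)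
    (hx : ∀ i, 0 ≤ x i) (hA : ∀ l, ∑ i, (A l i : ℝ) * x i = 0) (i₀ : ι) (h0 : x i₀ ≠ 0) :
    ∃ y : ι → ℕ, (∀ r, ∑ i, A r i * (y i : ℤ) = 0) ∧ (∀ i, x i = 0 → y i = 0) ∧ y i₀ ≠ 0 := by
  classical
  obtain ⟨z, hz, hzA⟩ := WNV.farkas_int (ι := {i // x i ≠ 0}) (κ := κ)
    (fun i l => A l i.1) (fun l => -A l i₀) (by
      intro n hn
      -- the combination vanishes
      have h1 : ∑ i, x i * ((∑ l, n l * A l i : ℤ) : ℝ) = 0 := by
        have e : ∀ i, x i * ((∑ l, n l * A l i : ℤ) : ℝ) = ∑ l, (n l : ℝ) * ((A l i : ℝ) * x i) := by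
          intro i
          rw [Int.cast_sum, Finset.mul_sum]
          refine Finset.sum_congr rfl fun l _ => ?_
          push_cast
          ring
        simp_rw [e]
        rw [Finset.sum_comm]
        refine Finset.sum_eq_zero fun l _ => ?_
        rw [← Finset.mul_sum, hA l, mul_zero]
      have h2 : ∀ i ∈ (Finset.univ : Finset ι), 0 ≤ x i * ((∑ l, n l * A l i : ℤ) : ℝ) := by
        intro i _
        by_cases hi : x i = 0
        · rw [hi, zero_mul]
        · have := hn ⟨i, hi⟩
          exact mul_nonneg (hx i) (by exact_mod_cast this)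
      have h3 := (Finset.sum_eq_zero_iff_of_nonneg h2).1 h1 i₀ (Finset.mem_univ _)
      have h4 : ((∑ l, n l * A l i₀ : ℤ) : ℝ) = 0 := by
        rcases mul_eq_zero.1 h3 with h | h
        · exact absurd h h0
        · exact h
      have h5 : (∑ l, n l * A l i₀ : ℤ) = 0 := by exact_mod_cast h4
      have h6 : ∑ l, n l * (-A l i₀) = -∑ l, n l * A l i₀ := by
        rw [← Finset.sum_neg_distrib]
        exact Finset.sum_congr rfl fun l _ => by ring
      rw [h6, h5]
      simp)
  -- the rational solution
  let w : ι → ℚ := fun i => (if h : x i ≠ 0 then z ⟨i, h⟩ else 0) + (if i = i₀ then 1 else 0)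
  have hw : ∀ i, 0 ≤ w i := by
    intro i
    refine add_nonneg ?_ ?_
    · split_ifs with h
      · exact hz _
      · exact le_rfl
    · split_ifs
      · exact zero_le_one
      · exact le_rfl
  obtain ⟨D, n, hD, hn⟩ := rat_clear w hw
  have hDQ : (0 : ℚ) < D := by exact_mod_cast hD
  refine ⟨n, fun r => ?_, fun i hi => ?_, ?_⟩
  · have h1 : ((∑ i, A r i * (n i : ℤ) : ℤ) : ℚ) = D * ∑ i, (A r i : ℚ) * w i := by
      rw [Int.cast_sum, Finset.mul_sum]
      refine Finset.sum_congr rfl fun i _ => ?_
      push_cast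
      rw [hn i]
      ring
    have h2 : ∑ i, (A r i : ℚ) * w i = 0 := by
      have e1 : ∑ i, (A r i : ℚ) * w i =
          ∑ i, (A r i : ℚ) * (if h : x i ≠ 0 then z ⟨i, h⟩ else 0) + (A r i₀ : ℚ) := by
        simp only [w, mul_add, Finset.sum_add_distrib, mul_ite, mul_one, mul_zero,
          Finset.sum_ite_eq', Finset.mem_univ, if_true]
      have e2 : ∑ i, (A r i : ℚ) * (if h : x i ≠ 0 then z ⟨i, h⟩ else 0) =
          ∑ i : {i // x i ≠ 0}, z i * (A r i.1 : ℚ) := by
        rw [← Finset.sum_filter_add_sum_filter_not Finset.univ (fun i => x i ≠ 0)]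
        rw [Finset.sum_eq_zero (s := Finset.univ.filter fun i => ¬ x i ≠ 0), add_zero]
        · rw [Finset.sum_subtype (Finset.univ.filter fun i => x i ≠ 0)
            (p := fun i => x i ≠ 0) (by simp)]
          refine Finset.sum_congr rfl fun i _ => ?_
          rw [dif_pos i.2]
          ring
        · intro i hi
          rw [dif_neg (Finset.mem_filter.1 hi).2, mul_zero]
      rw [e1, e2]
      have := hzA r
      push_cast at this
      rw [← this]
      ring
    rw [h2, mul_zero] at h1
    exact_mod_cast h1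
  · have h1 : w i = 0 := by
      have hne : i ≠ i₀ := by
        rintro rfl
        exact h0 hi
      simp only [w]
      rw [dif_neg (by simpa using hi), if_neg hne, add_zero]
    have h2 := hn i
    rw [h1, mul_zero] at h2
    exact_mod_cast h2
  · intro h1
    have h2 := hn i₀
    rw [h1] at h2
    have h3 : 0 < w i₀ := by
      simp only [w]
      rw [dif_pos h0]
      have := hz ⟨i₀, h0⟩
      simp only [if_true]
      linarith
    have h4 : (0 : ℚ) < D * w i₀ := mul_pos hDQ h3
    rw [← h2] at h4
    simp at h4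

/-- A nonnegative real solution of a homogeneous linear system with integral coefficients is a
nonnegative combination of solutions in natural numbers. -/
theorem rat_cone {ι κ : Type*} [Fintype ι] [Fintype κ] (A : κ → ι → ℤ) (x : ι → ℝ)
    (hx : ∀ i, 0 ≤ x i) (hA : ∀ l, ∑ i, (A l i : ℝ) * x i = 0) :
    ∃ (M : ℕ) (t : Fin M → ℝ) (y : Fin M → ι → ℕ), (∀ l, 0 ≤ t l) ∧
      (∀ l r, ∑ i, A r i * (y l i : ℤ) = 0) ∧ ∀ i, x i = ∑ l, t l * (y l i : ℝ) := by
  classical
  obtain ⟨n, hn⟩ : ∃ n, (Finset.univ.filter fun i => x i ≠ 0).card = n := ⟨_, rfl⟩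
  induction n using Nat.strong_induction_on generalizing x with
  | _ n ih =>
    by_cases hall : ∀ i, x i = 0
    · refine ⟨0, Fin.elim0, fun l => l.elim0, fun l => l.elim0, fun l => l.elim0, fun i => ?_⟩
      rw [hall i]
      simp
    · push Not at hall
      obtain ⟨i₀, h0⟩ := hall
      obtain ⟨y, hyA, hys, hy0⟩ := rat_step A x hx hA i₀ h0
      -- the minimal quotient
      obtain ⟨i₁, hi₁, hmin⟩ := Finset.exists_min_image (Finset.univ.filter fun i => y i ≠ 0)
        (fun i => x i / y i) ⟨i₀, by simp [hy0]⟩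
      have hi1 : y i₁ ≠ 0 := by simpa using hi₁
      have hy1 : (0 : ℝ) < y i₁ := by exact_mod_cast Nat.pos_of_ne_zero hi1
      set τ : ℝ := x i₁ / y i₁ with hτ
      have hτ0 : 0 ≤ τ := div_nonneg (hx _) hy1.le
      have hge : ∀ i, 0 ≤ x i - τ * y i := by
        intro i
        by_cases hyi : y i = 0
        · rw [hyi]
          simpa using hx i
        · have h1 := hmin i (by simp [hyi])
          have h2 : (0 : ℝ) < y i := by exact_mod_cast Nat.pos_of_ne_zero hyi
          rw [le_div_iff₀ h2] at h1
          linarith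
      have hAx : ∀ l, ∑ i, (A l i : ℝ) * (x i - τ * y i) = 0 := by
        intro l
        have h1 : ((∑ i, A l i * (y i : ℤ) : ℤ) : ℝ) = 0 := by
          rw [hyA l]
          simp
        rw [Int.cast_sum] at h1
        simp only [Int.cast_mul, Int.cast_natCast] at h1
        calc ∑ i, (A l i : ℝ) * (x i - τ * y i)
            = ∑ i, (A l i : ℝ) * x i - τ * ∑ i, (A l i : ℝ) * (y i : ℝ) := by
              rw [Finset.mul_sum, ← Finset.sum_sub_distrib]
              exact Finset.sum_congr rfl fun i _ => by ring
          _ = 0 := by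
              rw [hA l, h1]
              ring
      have hcard : (Finset.univ.filter fun i => x i - τ * y i ≠ 0).card < n := by
        rw [← hn]
        refine Finset.card_lt_card ?_
        rw [Finset.ssubset_iff_of_subset]
        · refine ⟨i₁, ?_, ?_⟩
          · simp only [Finset.mem_filter, Finset.mem_univ, true_and]
            intro h
            exact hi1 (hys _ h)
          · simp only [Finset.mem_filter, Finset.mem_univ, true_and, not_not]
            rw [hτ, div_mul_cancel₀ _ hy1.ne', sub_self]
        · intro i hi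
          simp only [Finset.mem_filter, Finset.mem_univ, true_and] at hi ⊢
          intro h
          apply hi
          rw [h, hys i h]
          simp
      obtain ⟨M, t, Y, ht, hY, hsum⟩ := ih _ hcard (fun i => x i - τ * y i) hge hAx rfl
      refine ⟨M + 1, Fin.cons τ t, Fin.cons y Y, fun l => ?_, fun l r => ?_, fun i => ?_⟩
      · refine Fin.cases ?_ (fun l => ?_) l
        · simpa using hτ0
        · simpa using ht l
      · refine Fin.cases ?_ (fun l => ?_) l
        · simpa using hyA r
        · simpa using hY l r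
      · rw [Fin.sum_univ_succ]
        simp only [Fin.cons_zero, Fin.cons_succ]
        rw [← hsum i]
        ring

end WPB
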