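import Pool.Agent.WPB.SUB
import Pool.Agent.WPB.RAT
import Pool.Agent.WNV.SEP

open MvPolynomial

namespace WPB

/-- The tuples of supports which occur. -/
def Occ {k s : ℕ} {K : Type} [Field K] (f : Fin s → MvPolynomial (Fin k) K)
    (S : Fin s → Finset (Fin k →₀ ℕ)) : Prop :=
  ∃ (K' : Type) (_ : Field K') (_ : Algebra K K') (_ : Module.Finite K K')
    (h : Matrix (Fin k) (Fin k) K'), h.det ≠ 0 ∧ ∀ j, S j = (sub (f j) h).support

/-- Only finitely many exponents have a given degree. -/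
theorem finite_degree (k d : ℕ) : {a : Fin k →₀ ℕ | ∑ i, a i = d}.Finite := by
  classical
  refine Set.Finite.subset ((Finset.univ : Finset (Fin k)).finsuppAntidiag d).finite_toSet ?_
  intro a ha
  simp only [Finset.mem_coe, Finset.mem_finsuppAntidiag]
  exact ⟨ha, Finset.subset_univ _⟩

theorem sum_of_mem_support {k d : ℕ} {K : Type*} [CommSemiring K] {f : MvPolynomial (Fin k) K}
    (hf : f.IsHomogeneous d) {a : Fin k →₀ ℕ} (ha : a ∈ f.support) : ∑ i, a i = d := by
  have h := hf (mem_support_iff.1 ha)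
  rw [Finsupp.weight_apply, Finsupp.sum_fintype] at h
  · simpa using h
  · simp

open Classical in
/-- The linear system for the weights. -/
noncomputable def mat {k s : ℕ} {D : Finset (Fin k →₀ ℕ)}
    {W : Finset (Fin s → Finset (Fin k →₀ ℕ))} (r : {S // S ∈ W} × (Fin s ⊕ Fin k))
    (i : (Fin s ⊕ Unit) ⊕ ({S // S ∈ W} × Fin s × {t // t ∈ D})) : ℤ :=
  Sum.elim
    (fun i => Sum.elim
      (fun j' => Sum.elim (fun j => if j' = j then -1 else 0) (fun _ => 0) r.2)
      (fun _ => Sum.elim (fun _ => 0) (fun _ => -1) r.2) i)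
    (fun i => Sum.elim
      (fun j => if i.1 = r.1 then (if i.2.1 = j then
        (if (i.2.2 : Fin k →₀ ℕ) ∈ r.1.1 j then 1 else 0) else 0) else 0)
      (fun a => if i.1 = r.1 then (if (i.2.2 : Fin k →₀ ℕ) ∈ r.1.1 i.2.1 then
        ((i.2.2 : Fin k →₀ ℕ) a : ℤ) else 0) else 0) r.2) i

open Classical in
theorem mat_inl {k s : ℕ} {D : Finset (Fin k →₀ ℕ)} {W : Finset (Fin s → Finset (Fin k →₀ ℕ))}
    {R : Type*} [CommRing R] (S : {S // S ∈ W}) (j : Fin s)
    (x : (Fin s ⊕ Unit) ⊕ ({S // S ∈ W} × Fin s × {t // t ∈ D}) → R) :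
    ∑ i, (mat (S, Sum.inl j) i : R) * x i = - x (.inl (.inl j)) +
      ∑ t : {t // t ∈ D}, if (t : Fin k →₀ ℕ) ∈ S.1 j then x (.inr (S, j, t)) else 0 := by
  rw [Fintype.sum_sum_type, Fintype.sum_sum_type, Fintype.sum_prod_type]
  have e1 : ∑ a : Fin s, (mat (D := D) (W := W) (S, Sum.inl j) (.inl (.inl a)) : R) *
      x (.inl (.inl a)) = - x (.inl (.inl j)) := by
    rw [Finset.sum_eq_single j]
    · simp [mat]
    · intro b _ hb
      simp [mat, hb]
    · intro h
      exact absurd (Finset.mem_univ j) h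
  have e2 : ∑ a : Unit, (mat (D := D) (W := W) (S, Sum.inl j) (.inl (.inr a)) : R) *
      x (.inl (.inr a)) = 0 := by
    simp [mat]
  have e3 : ∑ a : {S // S ∈ W}, ∑ y : Fin s × {t // t ∈ D},
      (mat (D := D) (W := W) (S, Sum.inl j) (.inr (a, y)) : R) * x (.inr (a, y)) =
      ∑ t : {t // t ∈ D}, if (t : Fin k →₀ ℕ) ∈ S.1 j then x (.inr (S, j, t)) else 0 := by
    rw [Finset.sum_eq_single S]
    · rw [Fintype.sum_prod_type, Finset.sum_eq_single j]
      · refine Finset.sum_congr rfl fun t _ => ?_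
        by_cases ht : (t : Fin k →₀ ℕ) ∈ S.1 j
        · simp [mat, ht]
        · simp [mat, ht]
      · intro b _ hb
        exact Finset.sum_eq_zero fun t _ => by simp [mat, hb]
      · intro h
        exact absurd (Finset.mem_univ j) h
    · intro b _ hb
      exact Finset.sum_eq_zero fun t _ => by simp [mat, hb]
    · intro h
      exact absurd (Finset.mem_univ _) h
  rw [e1, e2, e3, add_zero]

open Classical in
theorem mat_inr {k s : ℕ} {D : Finset (Fin k →₀ ℕ)} {W : Finset (Fin s → Finset (Fin k →₀ ℕ))}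
    {R : Type*} [CommRing R] (S : {S // S ∈ W}) (c : Fin k)
    (x : (Fin s ⊕ Unit) ⊕ ({S // S ∈ W} × Fin s × {t // t ∈ D}) → R) :
    ∑ i, (mat (S, Sum.inr c) i : R) * x i = - x (.inl (.inr ())) +
      ∑ j : Fin s, ∑ t : {t // t ∈ D}, if (t : Fin k →₀ ℕ) ∈ S.1 j then
        ((t : Fin k →₀ ℕ) c : R) * x (.inr (S, j, t)) else 0 := by
  rw [Fintype.sum_sum_type, Fintype.sum_sum_type, Fintype.sum_prod_type]
  have e1 : ∑ a : Fin s, (mat (D := D) (W := W) (S, Sum.inr c) (.inl (.inl a)) : R) *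
      x (.inl (.inl a)) = 0 := by
    simp [mat]
  have e2 : ∑ a : Unit, (mat (D := D) (W := W) (S, Sum.inr c) (.inl (.inr a)) : R) *
      x (.inl (.inr a)) = - x (.inl (.inr ())) := by
    simp [mat]
  have e3 : ∑ a : {S // S ∈ W}, ∑ y : Fin s × {t // t ∈ D},
      (mat (D := D) (W := W) (S, Sum.inr c) (.inr (a, y)) : R) * x (.inr (a, y)) =
      ∑ j : Fin s, ∑ t : {t // t ∈ D}, if (t : Fin k →₀ ℕ) ∈ S.1 j then
        ((t : Fin k →₀ ℕ) c : R) * x (.inr (S, j, t)) else 0 := by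
    rw [Finset.sum_eq_single S]
    · rw [Fintype.sum_prod_type]
      refine Finset.sum_congr rfl fun j _ => Finset.sum_congr rfl fun t _ => ?_
      by_cases ht : (t : Fin k →₀ ℕ) ∈ S.1 j
      · simp [mat, ht]
      · simp [mat, ht]
    · intro b _ hb
      exact Finset.sum_eq_zero fun t _ => by simp [mat, hb]
    · intro h
      exact absurd (Finset.mem_univ _) h
  rw [e1, e2, e3, zero_add]

open Classical in
/-- Sums over the members of `D` which lie in `T ⊆ D` are sums over `T`. -/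
theorem sum_ite_mem {k : ℕ} {D T : Finset (Fin k →₀ ℕ)} (h : T ⊆ D) {R : Type*} [AddCommMonoid R]
    (g : (Fin k →₀ ℕ) → R) :
    (∑ t : {t // t ∈ D}, if (t : Fin k →₀ ℕ) ∈ T then g t else 0) = ∑ t ∈ T, g t := by
  have e := Finset.sum_coe_sort D (fun t => if t ∈ T then g t else 0)
  rw [e, ← Finset.sum_filter]
  refine Finset.sum_congr ?_ fun _ _ => rfl
  ext t
  simp only [Finset.mem_filter]
  exact ⟨fun ht => ht.2, fun ht => ⟨h ht, ht⟩⟩

theorem semi_of_solution {k s : ℕ} {K : Type} [Field K] (f : Fin s → MvPolynomial (Fin k) K)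
    (m : Fin s → ℕ) (N : ℕ) (hne : ∀ S, Occ f S → ∀ j, (S j).Nonempty)
    (h : ∀ S, Occ f S → ∃ y : Fin s → (Fin k →₀ ℕ) → ℕ, (∀ j, ∑ t ∈ S j, y j t = m j) ∧
      ∀ i, ∑ j, ∑ t ∈ S j, y j t * t i = N) : Semi f m N := by
  intro K' _ _ _ g hg v
  have hO : Occ f (fun j => (sub (f j) g).support) :=
    ⟨K', inferInstance, inferInstance, inferInstance, g, hg, fun j => rfl⟩
  obtain ⟨y, hy, hyN⟩ := h _ hO
  have hmin : ∀ j, ∃ t ∈ (sub (f j) g).support, ∀ t' ∈ (sub (f j) g).support,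
      pr t v ≤ pr t' v := fun j => Finset.exists_min_image _ _ (hne _ hO j)
  choose α hα hαm using hmin
  refine ⟨α, hα, ?_⟩
  calc ∑ j, (m j : ℤ) * pr (α j) v
      = ∑ j, ∑ t ∈ (sub (f j) g).support, (y j t : ℤ) * pr (α j) v := by
        refine Finset.sum_congr rfl fun j _ => ?_
        rw [← hy j, Nat.cast_sum, Finset.sum_mul]
    _ ≤ ∑ j, ∑ t ∈ (sub (f j) g).support, (y j t : ℤ) * pr t v := by
        refine Finset.sum_le_sum fun j _ => Finset.sum_le_sum fun t ht => ?_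
        exact mul_le_mul_of_nonneg_left (hαm j t ht) (Int.natCast_nonneg _)
    _ = ∑ i, (∑ j, ∑ t ∈ (sub (f j) g).support, (y j t : ℤ) * (t i : ℤ)) * v i := by
        simp only [pr, Finset.mul_sum, Finset.sum_mul]
        rw [Finset.sum_comm (s := (Finset.univ : Finset (Fin k)))]
        refine Finset.sum_congr rfl fun j _ => ?_
        rw [Finset.sum_comm]
        exact Finset.sum_congr rfl fun t _ => Finset.sum_congr rfl fun i _ => by ring
    _ = N * ∑ i, v i := by
        rw [Finset.mul_sum]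
        refine Finset.sum_congr rfl fun i _ => ?_
        have := hyN i
        rw [← this]
        push_cast
        rfl

theorem degree_of_solution {k s : ℕ} (d m : Fin s → ℕ) (N : ℕ) (S : Fin s → Finset (Fin k →₀ ℕ))
    (hS : ∀ j, ∀ t ∈ S j, ∑ i, t i = d j) (y : Fin s → (Fin k →₀ ℕ) → ℕ)
    (hy : ∀ j, ∑ t ∈ S j, y j t = m j) (hyN : ∀ i, ∑ j, ∑ t ∈ S j, y j t * t i = N) :
    ∑ j, m j * d j = N * k := by
  have h1 : ∑ i : Fin k, ∑ j, ∑ t ∈ S j, y j t * t i = N * k := by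
    rw [Finset.sum_congr rfl fun i _ => hyN i]
    simp [mul_comm]
  rw [← h1, Finset.sum_comm]
  refine Finset.sum_congr rfl fun j _ => ?_
  rw [Finset.sum_comm, ← hy j, Finset.sum_mul]
  refine Finset.sum_congr rfl fun t ht => ?_
  rw [← Finset.mul_sum, hS j t ht]

/-- Real semistable weights are nonnegative combinations of integral ones. -/
theorem exists_decomposition {k s : ℕ} (hk : 0 < k) {K : Type} [Field K]
    (f : Fin s → MvPolynomial (Fin k) K) (hf : ∀ j, f j ≠ 0) (d : Fin s → ℕ)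
    (hd : ∀ j, (f j).IsHomogeneous (d j)) (hd0 : ∀ j, 0 < d j) (c : Fin s → ℝ)
    (hc : ∀ j, 0 ≤ c j) (hs : SemiR f c) :
    ∃ (M : ℕ) (t : Fin M → ℝ) (m : Fin M → Fin s → ℕ) (N : Fin M → ℕ), (∀ l, 0 ≤ t l) ∧
      (∀ l, 0 < N l) ∧ (∀ l, ∑ j, m l j * d j = N l * k) ∧ (∀ l, Semi f (m l) (N l)) ∧
      (∀ j, c j = ∑ l, t l * (m l j : ℝ)) ∧ 1 = ∑ l, t l * (N l : ℝ) := by
  classical
  have hne : ∀ S, Occ f S → ∀ j, (S j).Nonempty := by
    rintro S ⟨K', _, _, _, g, hg, hS⟩ j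
    rw [hS j]
    exact support_nonempty.2 (sub_ne_zero (hf j) hg)
  have hdeg : ∀ S, Occ f S → ∀ j, ∀ t ∈ S j, ∑ i, t i = d j := by
    rintro S ⟨K', _, _, _, g, hg, hS⟩ j t ht
    rw [hS j] at ht
    exact sum_of_mem_support (sub_homog (hd j) g) ht
  -- the finite sets
  let D : Finset (Fin k →₀ ℕ) := Finset.univ.biUnion fun j => (finite_degree k (d j)).toFinset
  have hD : ∀ S, Occ f S → ∀ j, S j ⊆ D := by
    intro S hS j t ht
    simp only [D, Finset.mem_biUnion, Finset.mem_univ, true_and, Set.Finite.mem_toFinset]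
    exact ⟨j, hdeg S hS j t ht⟩
  let W : Finset (Fin s → Finset (Fin k →₀ ℕ)) :=
    (Fintype.piFinset fun _ => D.powerset).filter fun S => Occ f S
  have hW : ∀ S, S ∈ W ↔ Occ f S := by
    intro S
    simp only [W, Finset.mem_filter, Fintype.mem_piFinset, Finset.mem_powerset]
    exact ⟨fun h => h.2, fun h => ⟨hD S h, h⟩⟩
  -- the real solutions
  have hsol : ∀ S : {S // S ∈ W}, ∃ lam : Fin s → (Fin k →₀ ℕ) → ℝ, (∀ j t, 0 ≤ lam j t) ∧
      (∀ j, ∑ t ∈ S.1 j, lam j t = 1) ∧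
      ∀ i : Fin k, (1 : ℝ) = ∑ j, c j * ∑ t ∈ S.1 j, lam j t * (t i : ℝ) := by
    intro S
    have hS := (hW S.1).1 S.2
    refine WNV.exists_convex S.1 (hne _ hS) c hc (fun _ => 1) ?_
    intro v _
    obtain ⟨K', _, _, _, g, hg, hSg⟩ := hS
    obtain ⟨α, hα, hle⟩ := hs K' g hg v
    refine ⟨α, fun j => ?_, ?_⟩
    · rw [hSg j]
      exact hα j
    · have e : ∀ j, ((pr (α j) v : ℤ) : ℝ) = ∑ i, (α j i : ℝ) * (v i : ℝ) := by
        intro j
        simp only [pr]
        push_cast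
        rfl
      simp only [e] at hle
      push_cast at hle
      simpa using hle
  choose lam hlam hlam1 hlami using hsol
  let x : (Fin s ⊕ Unit) ⊕ ({S // S ∈ W} × Fin s × {t // t ∈ D}) → ℝ :=
    Sum.elim (Sum.elim c fun _ => 1) fun i => c i.2.1 * lam i.1 i.2.1 (i.2.2 : Fin k →₀ ℕ)
  obtain ⟨M, t, y, ht, hyA, hyx⟩ := rat_cone (mat (D := D) (W := W)) x (by
    intro i
    rcases i with (i | i) | i
    · exact hc i
    · exact zero_le_one
    · exact mul_nonneg (hc _) (hlam _ _ _)) (by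
    rintro ⟨S, j | a⟩
    · rw [mat_inl S j x]
      have h1 := sum_ite_mem (hD _ ((hW S.1).1 S.2) j) (fun t => c j * lam S j t)
      simp only [x, Sum.elim_inl, Sum.elim_inr]
      rw [h1, ← Finset.mul_sum, hlam1 S j]
      ring
    · rw [mat_inr S a x]
      have h1 : ∀ j, _ := fun j => sum_ite_mem (hD _ ((hW S.1).1 S.2) j)
        (fun t => (t a : ℝ) * (c j * lam S j t))
      simp only [x, Sum.elim_inl, Sum.elim_inr]
      rw [Finset.sum_congr rfl fun j _ => h1 j]
      have h2 := hlami S a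
      have h3 : ∑ j, ∑ t ∈ S.1 j, (t a : ℝ) * (c j * lam S j t) =
          ∑ j, c j * ∑ t ∈ S.1 j, lam S j t * (t a : ℝ) := by
        refine Finset.sum_congr rfl fun j _ => ?_
        rw [Finset.mul_sum]
        exact Finset.sum_congr rfl fun t _ => by ring
      rw [h3, ← h2]
      ring)
  -- the integral solutions
  have hy1 : ∀ l (S : {S // S ∈ W}) (j : Fin s), ∑ t ∈ S.1 j,
      (if ht : t ∈ D then y l (.inr (S, j, ⟨t, ht⟩)) else 0) = y l (.inl (.inl j)) := by
    intro l S j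
    have h1 := hyA l (S, .inl j)
    have h2 := mat_inl (R := ℤ) S j (fun i => (y l i : ℤ))
    simp only [Int.cast_id] at h2
    rw [h1] at h2
    have h3 := sum_ite_mem (hD _ ((hW S.1).1 S.2) j)
      (fun t => ((if ht : t ∈ D then y l (.inr (S, j, ⟨t, ht⟩)) else 0 : ℕ) : ℤ))
    have h4 : ∀ t : {t // t ∈ D}, (if ht : (t : Fin k →₀ ℕ) ∈ D then
        y l (.inr (S, j, ⟨t, ht⟩)) else 0 : ℕ) = y l (.inr (S, j, t)) := by
      intro t
      rw [dif_pos t.2]
    simp only [h4] at h3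
    rw [h3] at h2
    have h5 : (y l (.inl (.inl j)) : ℤ) = ((∑ t ∈ S.1 j,
        (if ht : t ∈ D then y l (.inr (S, j, ⟨t, ht⟩)) else 0) : ℕ) : ℤ) := by
      rw [Nat.cast_sum]
      linarith
    exact_mod_cast h5.symm
  have hy2 : ∀ l (S : {S // S ∈ W}) (a : Fin k), ∑ j, ∑ t ∈ S.1 j,
      (if ht : t ∈ D then y l (.inr (S, j, ⟨t, ht⟩)) else 0) * t a = y l (.inl (.inr ())) := by
    intro l S a
    have h1 := hyA l (S, .inr a)
    have h2 := mat_inr (R := ℤ) S a (fun i => (y l i : ℤ))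
    simp only [Int.cast_id] at h2
    rw [h1] at h2
    have h3 : ∀ j, _ := fun j => sum_ite_mem (hD _ ((hW S.1).1 S.2) j)
      (fun t => ((t a : ℕ) : ℤ) *
        ((if ht : t ∈ D then y l (.inr (S, j, ⟨t, ht⟩)) else 0 : ℕ) : ℤ))
    have h4 : ∀ (j : Fin s) (t : {t // t ∈ D}), (if ht : (t : Fin k →₀ ℕ) ∈ D then
        y l (.inr (S, j, ⟨t, ht⟩)) else 0 : ℕ) = y l (.inr (S, j, t)) := by
      intro j t
      rw [dif_pos t.2]
    simp only [h4] at h3
    rw [Finset.sum_congr rfl fun j _ => h3 j] at h2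
    have h5 : (y l (.inl (.inr ())) : ℤ) = ((∑ j, ∑ t ∈ S.1 j,
        (if ht : t ∈ D then y l (.inr (S, j, ⟨t, ht⟩)) else 0) * t a : ℕ) : ℤ) := by
      rw [Nat.cast_sum]
      have h6 : ∀ j, ((∑ t ∈ S.1 j,
          (if ht : t ∈ D then y l (.inr (S, j, ⟨t, ht⟩)) else 0) * t a : ℕ) : ℤ) =
          ∑ t ∈ S.1 j, ((t a : ℕ) : ℤ) *
            ((if ht : t ∈ D then y l (.inr (S, j, ⟨t, ht⟩)) else 0 : ℕ) : ℤ) := by
        intro j
        rw [Nat.cast_sum]
        exact Finset.sum_congr rfl fun t _ => by push_cast; ring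
      rw [Finset.sum_congr rfl fun j _ => h6 j]
      linarith
    exact_mod_cast h5.symm
  have hsemi : ∀ l, Semi f (fun j => y l (.inl (.inl j))) (y l (.inl (.inr ()))) := by
    intro l
    refine semi_of_solution f _ _ hne fun S hS => ?_
    exact ⟨fun j t => if ht : t ∈ D then y l (.inr (⟨S, (hW S).2 hS⟩, j, ⟨t, ht⟩)) else 0,
      fun j => hy1 l ⟨S, (hW S).2 hS⟩ j, fun a => hy2 l ⟨S, (hW S).2 hS⟩ a⟩
  have hO : Occ f (fun j => (sub (f j) (1 : Matrix (Fin k) (Fin k) K)).support) :=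
    ⟨K, inferInstance, inferInstance, inferInstance, 1, by simp, fun j => rfl⟩
  have hdegl : ∀ l, ∑ j, y l (.inl (.inl j)) * d j = y l (.inl (.inr ())) * k := by
    intro l
    exact degree_of_solution d _ _ _ (hdeg _ hO)
      (fun j t => if ht : t ∈ D then y l (.inr (⟨_, (hW _).2 hO⟩, j, ⟨t, ht⟩)) else 0)
      (fun j => hy1 l ⟨_, (hW _).2 hO⟩ j) (fun a => hy2 l ⟨_, (hW _).2 hO⟩ a)
  have hc' : ∀ j, c j = ∑ l, t l * (y l (.inl (.inl j)) : ℝ) := fun j => hyx (.inl (.inl j))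
  have h1' : 1 = ∑ l, t l * (y l (.inl (.inr ())) : ℝ) := hyx (.inl (.inr ()))
  -- remove the solutions with `N = 0`
  obtain ⟨l₀, hl₀⟩ : ∃ l₀, y l₀ (.inl (.inr ())) ≠ 0 := by
    by_contra hcon
    push Not at hcon
    rw [Finset.sum_eq_zero (fun l _ => by rw [hcon l]; simp)] at h1'
    exact one_ne_zero h1'
  have hzero : ∀ l, y l (.inl (.inr ())) = 0 → ∀ j, y l (.inl (.inl j)) = 0 := by
    intro l hl j
    have h2 := hdegl l
    rw [hl, zero_mul] at h2
    have h3 := (Finset.sum_eq_zero_iff.1 h2) j (Finset.mem_univ j)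
    rcases mul_eq_zero.1 h3 with h | h
    · exact h
    · exact absurd h (hd0 j).ne'
  refine ⟨M, fun l => if y l (.inl (.inr ())) = 0 then 0 else t l,
    fun l j => if y l (.inl (.inr ())) = 0 then y l₀ (.inl (.inl j)) else y l (.inl (.inl j)),
    fun l => if y l (.inl (.inr ())) = 0 then y l₀ (.inl (.inr ())) else y l (.inl (.inr ())),
    fun l => ?_, fun l => ?_, fun l => ?_, fun l => ?_, fun j => ?_, ?_⟩
  · simp only
    split_ifs
    · exact le_rfl
    · exact ht l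
  · simp only
    split_ifs with h
    · exact Nat.pos_of_ne_zero hl₀
    · exact Nat.pos_of_ne_zero h
  · by_cases h : y l (.inl (.inr ())) = 0
    · simp only [h, if_true]
      exact hdegl l₀
    · simp only [h, if_false]
      exact hdegl l
  · by_cases h : y l (.inl (.inr ())) = 0
    · simp only [h, if_true]
      exact hsemi l₀
    · simp only [h, if_false]
      exact hsemi l
  · rw [hc' j]
    refine Finset.sum_congr rfl fun l _ => ?_
    by_cases h : y l (.inl (.inr ())) = 0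
    · simp only [h, if_true, hzero l h j]
      simp
    · simp only [h, if_false]
  · rw [h1']
    refine Finset.sum_congr rfl fun l _ => ?_
    by_cases h : y l (.inl (.inr ())) = 0
    · simp only [h, if_true]
      simp
    · simp only [h, if_false]

end WPB
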