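import Pool.Agent.WPB.LFT
import Pool.Agent.WNV.VAL

open MvPolynomial WNV

namespace WPB

/-- All coefficients of `P` have value at least `a`. -/
def GeP {F σ : Type*} [CommRing F] (E : F → ℤ) (a : ℤ) (P : MvPolynomial σ F) : Prop :=
  ∀ m, P.coeff m = 0 ∨ a ≤ E (P.coeff m)

section

variable {F : Type} [Field F] [Algebra ℂ F] (E : QVal F) {σ : Type*}

theorem geP_mul {a b : ℤ} {P Q : MvPolynomial σ F} (hP : GeP E a P) (hQ : GeP E b Q) :
    GeP E (a + b) (P * Q) := by
  classical
  intro m
  rw [coeff_mul]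
  exact E.ge_sum _ _ fun x _ => E.ge_mul (hP x.1) (hQ x.2)

theorem geP_add {a : ℤ} {P Q : MvPolynomial σ F} (hP : GeP E a P) (hQ : GeP E a Q) :
    GeP E a (P + Q) := by
  intro m
  rw [coeff_add]
  exact E.ge_add (hP m) (hQ m)

theorem geP_zero (a : ℤ) : GeP E a (0 : MvPolynomial σ F) := fun m => Or.inl (by simp)

theorem geP_map (P : MvPolynomial σ ℤ) : GeP E 0 (map (Int.castRingHom F) P) := by
  intro m
  rw [coeff_map]
  exact E.ge_intCast _

theorem geP_C {a : ℤ} {c : F} (hc : Ge E a c) : GeP E a (C c : MvPolynomial σ F) := by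
  classical
  intro m
  rw [coeff_C]
  split_ifs
  · exact hc
  · exact E.ge_zero a

theorem geP_one : GeP E 0 (1 : MvPolynomial σ F) := by
  simpa using geP_map E (1 : MvPolynomial σ ℤ)

theorem geP_multiset {ι : Type*} (P : ι → MvPolynomial σ F) {a : ℤ} (hP : ∀ i, GeP E a (P i))
    (m : Multiset ι) : GeP E (Multiset.card m * a) (m.map P).prod := by
  induction m using Multiset.induction_on with
  | empty => simpa using geP_one E
  | cons i m ih =>
    rw [Multiset.map_cons, Multiset.prod_cons, Multiset.card_cons]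
    have h := geP_mul E (hP i) ih
    have e : a + (Multiset.card m : ℤ) * a = ((Multiset.card m + 1 : ℕ) : ℤ) * a := by
      push_cast
      ring
    rwa [e] at h

theorem geP_prod {ι : Type*} (P : ι → MvPolynomial σ F) (a : ι → ℤ) (s : Finset ι)
    (hP : ∀ i ∈ s, GeP E (a i) (P i)) : GeP E (∑ i ∈ s, a i) (∏ i ∈ s, P i) := by
  classical
  induction s using Finset.induction_on with
  | empty => simpa using geP_one E
  | insert i s hi ih =>
    rw [Finset.sum_insert hi, Finset.prod_insert hi]
    exact geP_mul E (hP i (Finset.mem_insert_self i s))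
      (ih fun j hj => hP j (Finset.mem_insert_of_mem hj))

theorem geP_fis {a : ℤ} {P Q : MvPolynomial σ F} (hP : GeP E 0 P) (hQ : GeP E a Q) :
    Ge E a (fis P Q) := by
  unfold fis
  refine E.ge_sum _ _ fun m _ => ?_
  have h1 : Ge E 0 (m.prod fun _ n => ((Nat.factorial n : ℕ) : F)) := by
    have : (m.prod fun _ n => ((Nat.factorial n : ℕ) : F)) =
        ((m.prod fun _ n => Nat.factorial n : ℕ) : F) := by
      unfold Finsupp.prod
      push_cast
      rfl
    rw [this]
    exact E.ge_natCast _
  have h2 := E.ge_mul (E.ge_mul h1 (hP m)) (hQ m)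
  rwa [add_zero, zero_add] at h2

end

theorem map_gen_det {k : ℕ} {R S : Type*} [CommRing R] [CommRing S] (φ : R →+* S) :
    map φ (gen k R).det = (gen k S).det := by
  rw [RingHom.map_det]
  congr 1
  ext i j : 2
  simp [Matrix.mvPolynomialX]

theorem geP_gen_det {k : ℕ} {F : Type} [Field F] [Algebra ℂ F] (E : QVal F) (n : ℕ) :
    GeP E 0 ((gen k F).det ^ n) := by
  rw [← map_gen_det (Int.castRingHom F), ← map_pow]
  exact geP_map E _

theorem geP_gco {k s : ℕ} {F : Type} [Field F] [Algebra ℂ F] (E : QVal F)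
    (g : Fin s → MvPolynomial (Fin k) F) (μ : Fin s → ℤ) (hμ : ∀ j a, Ge E (μ j) ((g j).coeff a))
    (j : Fin s) (a : Fin k →₀ ℕ) : GeP E (μ j) (gco g j a) := by
  classical
  have e : gco g j a = ∑ b ∈ (g j).support, C ((g j).coeff b) *
      (sub (monomial b (1 : F)) (gen k F)).coeff a := by
    unfold gco
    conv_lhs => rw [(g j).as_sum]
    unfold sub
    rw [map_sum, coeff_sum]
    refine Finset.sum_congr rfl fun b _ => ?_
    have h1 : monomial b ((g j).coeff b) = (g j).coeff b • monomial b (1 : F) := by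
      rw [smul_monomial, smul_eq_mul, mul_one]
    rw [h1, map_smul, coeff_smul, Algebra.smul_def]
    rfl
  rw [e]
  refine Finset.sum_induction _ (GeP E (μ j)) (fun _ _ => geP_add E) (geP_zero E _) fun b _ => ?_
  have h1 : (sub (monomial b (1 : F)) (gen k F)).coeff a =
      map (Int.castRingHom F) ((sub (monomial b (1 : ℤ)) (gen k ℤ)).coeff a) := by
    have h := map_gco (Int.castRingHom F) (fun _ : Fin 1 => monomial b (1 : ℤ)) 0 a
    unfold gco at h
    rw [h]
    simp
  rw [h1]
  have h2 := geP_mul E (geP_C E (σ := Fin k × Fin k) (hμ j b))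
    (geP_map E ((sub (monomial b (1 : ℤ)) (gen k ℤ)).coeff a))
  rwa [add_zero] at h2

theorem map_mono {k s : ℕ} {R S : Type*} [CommRing R] [CommRing S] (φ : R →+* S)
    (P : Fin s → (Fin k →₀ ℕ) → R) (α : Fin s → Multiset (Fin k →₀ ℕ)) :
    φ (mono P α) = mono (fun j a => φ (P j a)) α := by
  unfold mono
  rw [map_prod]
  refine Finset.prod_congr rfl fun j _ => ?_
  rw [map_multiset_prod, Multiset.map_map]
  rfl

/-- Lower bound for the value of an invariant. -/
theorem inv_bound {k s : ℕ} {K F : Type} [Field K] [Field F] [Algebra ℂ F] [Algebra K F]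
    (f : Fin s → MvPolynomial (Fin k) K) (N q t : ℕ) (α : Fin s → Multiset (Fin k →₀ ℕ))
    (hJ : fis ((gen k K).det ^ (N * (q + t))) (mono (gco f) α * (gen k K).det ^ (N * t)) ≠ 0)
    (E : QVal F) (T : Matrix (Fin k) (Fin k) F) (hT : T.det ≠ 0) (μ : Fin s → ℤ)
    (hμ : ∀ j a, Ge E (μ j) ((sub (f j) T).coeff a)) :
    ∑ j, (Multiset.card (α j) : ℤ) * μ j - N * q * E T.det ≤
      E (algebraMap K F (fis ((gen k K).det ^ (N * (q + t)))
        (mono (gco f) α * (gen k K).det ^ (N * t)))) := by
  set J := fis ((gen k K).det ^ (N * (q + t))) (mono (gco f) α * (gen k K).det ^ (N * t)) with hJd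
  have hJF : algebraMap K F J ≠ 0 := (map_ne_zero _).2 hJ
  -- base change
  have e1 : algebraMap K F J = fis ((gen k F).det ^ (N * (q + t)))
      (mono (gco fun j => map (algebraMap K F) (f j)) α * (gen k F).det ^ (N * t)) := by
    rw [hJd, ← fis_map, map_pow, map_mul, map_pow, map_gen_det, map_mono]
    simp only [map_gco]
  -- covariance
  have e2 := fis_leftSub T (N * (q + t))
    (mono (gco fun j => map (algebraMap K F) (f j)) α * (gen k F).det ^ (N * t))
  have e3 : leftSub T (mono (gco fun j => map (algebraMap K F) (f j)) α *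
      (gen k F).det ^ (N * t)) = C (T.det ^ (N * t)) *
        (mono (gco fun j => sub (f j) T) α * (gen k F).det ^ (N * t)) := by
    rw [map_mul, map_pow, leftSub_det]
    have e4 : leftSub T (mono (gco fun j => map (algebraMap K F) (f j)) α) =
        mono (gco fun j => sub (f j) T) α := by
      have := map_mono (leftSub T : MvPolynomial (Fin k × Fin k) F →ₐ[F] _).toRingHom
        (gco fun j => map (algebraMap K F) (f j)) α
      refine this.trans ?_
      unfold mono
      refine Finset.prod_congr rfl fun j _ => ?_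
      congr 2
      funext a
      have h := leftSub_gco T (fun j => map (algebraMap K F) (f j)) j a
      simp only [sub_map] at h
      exact h
    rw [e4, mul_pow, C_pow]
    ring
  rw [e3, fis_C_mul_right, ← e1] at e2
  have hD : T.det ^ (N * t) ≠ 0 := pow_ne_zero _ hT
  have e5 : fis ((gen k F).det ^ (N * (q + t)))
      (mono (gco fun j => sub (f j) T) α * (gen k F).det ^ (N * t)) =
      T.det ^ (N * q) * algebraMap K F J := by
    apply mul_left_cancel₀ hD
    rw [e2, mul_add, pow_add]
    ring
  have h6 : Ge E (∑ j, (Multiset.card (α j) : ℤ) * μ j) (T.det ^ (N * q) * algebraMap K F J) := by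
    rw [← e5]
    refine geP_fis E (geP_gen_det E _) ?_
    have h7 : GeP E (∑ j, (Multiset.card (α j) : ℤ) * μ j) (mono (gco fun j => sub (f j) T) α) := by
      unfold mono
      exact geP_prod E _ _ _ fun j _ => geP_multiset E _
        (fun a => geP_gco E (fun j => sub (f j) T) μ hμ j a) _
    have h8 := geP_mul E h7 (geP_gen_det E (k := k) (N * t))
    rwa [add_zero] at h8
  rcases h6 with h | h
  · exact absurd h (mul_ne_zero (pow_ne_zero _ hT) hJF)
  · rw [E.mul (pow_ne_zero _ hT) hJF, E.pow hT] at h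
    push_cast at h
    linarith

end WPB
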