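import Pool.Agent.WPB.INV
import Pool.Agent.WPB.VIN
import Pool.Agent.WPB.DEC

open MvPolynomial WNV

namespace WPB

/-- The value of a finite sum of single terms. -/
theorem val_sum_single {K : Type} [Field K] {M : ℕ} (r : Fin M → ℝ) (J : Fin M → K)
    (E : K → ℤ) :
    val (∑ l, Finsupp.single (J l) (r l)) E = ∑ l, r l * (E (J l) : ℝ) := by
  unfold val
  rw [← Finsupp.sum_finsetSum_index]
  · refine Finset.sum_congr rfl fun l _ => ?_
    rw [Finsupp.sum_single_index (by simp)]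
  · intro a
    simp
  · intro a b₁ b₂
    ring

/-- For semistable real weights there is a real combination `Φ` of logarithms of elements of `K`
which bounds the values of the forms in all coordinate systems. -/
theorem exists_phi {k s : ℕ} (hk : 0 < k) {K : Type} [Field K] [CharZero K]
    (f : Fin s → MvPolynomial (Fin k) K) (hf : ∀ j, f j ≠ 0) (d : Fin s → ℕ)
    (hd : ∀ j, (f j).IsHomogeneous (d j)) (hd0 : ∀ j, 0 < d j) (c : Fin s → ℝ)
    (hc : ∀ j, 0 ≤ c j) (hs : SemiR f c) :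
    ∃ Φ : K →₀ ℝ, ∀ (F : Type) [Field F] [Algebra ℂ F] [Algebra K F] (E : QVal F)
      (T : Matrix (Fin k) (Fin k) F), T.det ≠ 0 → ∀ μ : Fin s → ℤ,
      (∀ j a, Ge E (μ j) ((sub (f j) T).coeff a)) →
      ∑ j, c j * (μ j : ℝ) - (E T.det : ℝ) ≤ val Φ (fun a => E (algebraMap K F a)) := by
  obtain ⟨M, t, m, N, ht, hN, hdeg, hsemi, hcj, h1⟩ :=
    exists_decomposition hk f hf d hd hd0 c hc hs
  have hinv : ∀ l : Fin M, ∃ (q u : ℕ) (α : Fin s → Multiset (Fin k →₀ ℕ)), 0 < q ∧
      (∀ j, Multiset.card (α j) = q * m l j) ∧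
      fis ((gen k K).det ^ (N l * (q + u))) (mono (gco f) α * (gen k K).det ^ (N l * u)) ≠ 0 :=
    fun l => exists_inv f d hd (m l) (N l) (hdeg l) (Nat.mul_pos (hN l) hk)
      (integral_of_semi f hf (m l) (N l) (hsemi l))
  choose q u α hq hcard hJ using hinv
  refine ⟨∑ l, Finsupp.single (fis ((gen k K).det ^ (N l * (q l + u l)))
    (mono (gco f) (α l) * (gen k K).det ^ (N l * u l))) (t l / q l), ?_⟩
  intro F _ _ _ E T hT μ hμ
  rw [val_sum_single]
  have hb : ∀ l : Fin M, t l * (∑ j, (m l j : ℝ) * (μ j : ℝ)) - t l * (N l : ℝ) * (E T.det : ℝ) ≤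
      t l / q l * (E (algebraMap K F (fis ((gen k K).det ^ (N l * (q l + u l)))
        (mono (gco f) (α l) * (gen k K).det ^ (N l * u l)))) : ℝ) := by
    intro l
    have h := inv_bound f (N l) (q l) (u l) (α l) (hJ l) E T hT μ hμ
    have hR : (∑ j, ((q l : ℝ) * (m l j : ℝ)) * (μ j : ℝ)) - (N l : ℝ) * (q l : ℝ) * (E T.det : ℝ) ≤
        (E (algebraMap K F (fis ((gen k K).det ^ (N l * (q l + u l)))
        (mono (gco f) (α l) * (gen k K).det ^ (N l * u l)))) : ℝ) := by
      have h' := h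
      simp only [hcard l] at h'
      exact_mod_cast h'
    have hq0 : (0 : ℝ) < q l := by exact_mod_cast hq l
    have h2 := mul_le_mul_of_nonneg_left hR (div_nonneg (ht l) hq0.le)
    refine le_trans (le_of_eq ?_) h2
    have h3 : ∑ j, ((q l : ℝ) * (m l j : ℝ)) * (μ j : ℝ) = (q l : ℝ) * ∑ j, (m l j : ℝ) * (μ j : ℝ) := by
      rw [Finset.mul_sum]
      exact Finset.sum_congr rfl fun j _ => by ring
    rw [h3]
    field_simp
  have hsum := Finset.sum_le_sum fun (l : Fin M) (_ : l ∈ Finset.univ) => hb l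
  refine le_trans (le_of_eq ?_) hsum
  rw [Finset.sum_sub_distrib]
  congr 1
  · calc ∑ j, c j * (μ j : ℝ) = ∑ j, ∑ l, t l * (m l j : ℝ) * (μ j : ℝ) := by
          refine Finset.sum_congr rfl fun j _ => ?_
          rw [hcj j, Finset.sum_mul]
      _ = ∑ l, ∑ j, t l * (m l j : ℝ) * (μ j : ℝ) := Finset.sum_comm
      _ = ∑ l, t l * ∑ j, (m l j : ℝ) * (μ j : ℝ) := by
          refine Finset.sum_congr rfl fun l _ => ?_
          rw [Finset.mul_sum]
          exact Finset.sum_congr rfl fun j _ => by ring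
  · rw [← Finset.sum_mul, ← h1, one_mul]

end WPB
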