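import Pool.Agent.WPB.LCS
import Pool.Agent.WPB.GIT
import Pool.Agent.WNV.ODB

open MvPolynomial WNV

set_option linter.unusedSectionVars false

namespace WPB

variable {c r N : ℕ} {K F : Type} [Field K] [Algebra ℂ K] [Field F] [Algebra ℂ F]
    [Algebra K F] [IsScalarTower ℂ K F]
    [Algebra (MvPolynomial (Fin r) K) F] [IsScalarTower K (MvPolynomial (Fin r) K) F]
    [IsFractionRing (MvPolynomial (Fin r) K) F]

/-- The canonical divisor on the prime divisors of `P^r`. -/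
theorem canonical_fibre (hr : 0 < r) (y : Fin c → K) (hy : IsTranscendenceBasis ℂ y)
    {x : Fin (N + 1) → F}
    (hfib : ∀ E : DVal F, IsFibrePrime r K E → ∃ i, IsPrimeOf (chart x i) E)
    (KX : DVal F → ℝ)
    (hK : ∀ i (E : DVal F), IsPrimeOf (chart x i) E → ∃ k : ℤ, KX E = k ∧ IsOrd E (form r F y) k)
    (E : DVal F) (hE : IsFibrePrime r K E) : KX E = -(cor r K E : ℝ) := by
  obtain ⟨i, hi⟩ := hfib E hE
  obtain ⟨k, hk, hko⟩ := hK i E hi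
  have h1 := isOrd_unique hko (form_fibre hr y hy E hE)
  rw [hk, h1]
  push_cast
  ring

theorem cor_nonneg (E : F → ℤ) : 0 ≤ cor r K E := by
  unfold cor
  split_ifs
  · exact zero_le_one
  · exact le_rfl

theorem exists_data (hr : 0 < r) (y : Fin c → K) (hy : IsTranscendenceBasis ℂ y)
    {x : Fin (N + 1) → F} (hx : IsProjModel r K x)
    (hfib : ∀ E : DVal F, IsFibrePrime r K E → ∃ i, IsPrimeOf (chart x i) E)
    (KX Δ : DVal F → ℝ)
    (hK : ∀ i (E : DVal F), IsPrimeOf (chart x i) E → ∃ k : ℤ, KX E = k ∧ IsOrd E (form r F y) k)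
    (hΔ : ∀ i (E : DVal F), IsPrimeOf (chart x i) E → 0 ≤ Δ E)
    (hfin : {E : DVal F | (∃ i, IsPrimeOf (chart x i) E) ∧ Δ E ≠ 0}.Finite)
    (hC : IsRCartier x (KX + Δ))
    (hlc : ∀ E : DVal F, (∀ a : K, E (algebraMap K F a) = 0) →
      LcAt x (form r F y) (KX + Δ) E)
    (hps : IsPsef x (KX + Δ)) :
    ∃ (s : ℕ) (E₀ : Fin s → DVal F) (γ : Fin s → ℝ) (Φ : K →₀ ℝ),
      Function.Injective E₀ ∧ (∀ j, IsFibrePrime r K (E₀ j)) ∧ (∀ j, 0 ≤ γ j) ∧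
      (∀ j, γ j ≤ Δ (E₀ j)) ∧ ∑ j, γ j * (dg r K (E₀ j) : ℝ) = r + 1 ∧
      ∀ (E : QVal F) (T : Matrix (Fin (r + 1)) (Fin (r + 1)) F), T.det ≠ 0 → ∀ μ : Fin s → ℤ,
        (∀ j a, Ge E (μ j) ((sub (Pf r K (E₀ j)) T).coeff a)) →
        ∑ j, γ j * (μ j : ℝ) - (E T.det : ℝ) ≤ val Φ (fun a => E (algebraMap K F a)) := by
  classical
  have hKX := canonical_fibre hr y hy hfib KX hK
  -- the finite set of primes
  have hSfin : ({E : DVal F | IsFibrePrime r K E ∧ Δ E ≠ 0} ∪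
      {E : DVal F | IsFibrePrime r K E ∧ cor r K E ≠ 0}).Finite := by
    refine Set.Finite.union (hfin.subset ?_) (finite_cor hr)
    rintro E ⟨h1, h2⟩
    exact ⟨hfib E h1, h2⟩
  let S : Finset (DVal F) := hSfin.toFinset
  have hmem : ∀ E, E ∈ S ↔ IsFibrePrime r K E ∧ (Δ E ≠ 0 ∨ cor r K E ≠ 0) := by
    intro E
    simp only [S, Set.Finite.mem_toFinset, Set.mem_union, Set.mem_setOf_eq]
    tauto
  have hS : ∀ E ∈ S, IsFibrePrime r K E := fun E hE => ((hmem E).1 hE).1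
  have hcorS : ∀ E : DVal F, IsFibrePrime r K E → cor r K E ≠ 0 → E ∈ S :=
    fun E h1 h2 => (hmem E).2 ⟨h1, Or.inr h2⟩
  have hDS : ∀ E : DVal F, IsFibrePrime r K E → (KX + Δ) E ≠ 0 → E ∈ S := by
    intro E h1 h2
    refine (hmem E).2 ⟨h1, ?_⟩
    by_contra hcon
    push Not at hcon
    apply h2
    rw [Pi.add_apply, hKX E h1, hcon.1, hcon.2]
    simp
  have hΔ0 : ∀ E : DVal F, IsFibrePrime r K E → 0 ≤ Δ E := by
    intro E hE
    obtain ⟨i, hi⟩ := hfib E hE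
    exact hΔ i E hi
  -- the degree
  have hdeg := degree_nonneg hr hx hfib (KX + Δ) hps S hS hDS
  have hsc := sum_cor hr S hS hcorS
  have hdeg' : (r : ℝ) + 1 ≤ ∑ E ∈ S, (dg r K E : ℝ) * Δ E := by
    have e : ∑ E ∈ S, (dg r K E : ℝ) * (KX + Δ) E =
        ∑ E ∈ S, (dg r K E : ℝ) * Δ E - ∑ E ∈ S, (dg r K E : ℝ) * (cor r K E : ℝ) := by
      rw [← Finset.sum_sub_distrib]
      refine Finset.sum_congr rfl fun E hE => ?_
      rw [Pi.add_apply, hKX E (hS E hE)]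
      ring
    rw [e, hsc] at hdeg
    linarith
  set M : ℝ := ∑ E ∈ S, (dg r K E : ℝ) * Δ E with hM
  have hr0 : (0 : ℝ) < (r : ℝ) + 1 := by positivity
  have hM0 : 0 < M := lt_of_lt_of_le hr0 hdeg'
  set τ : ℝ := ((r : ℝ) + 1) / M with hτ
  have hτ0 : 0 ≤ τ := div_nonneg hr0.le hM0.le
  have hτ1 : τ ≤ 1 := (div_le_one hM0).2 hdeg'
  -- the enumeration
  let e := S.equivFin.symm
  let E₀ : Fin S.card → DVal F := fun j => (e j : DVal F)
  have hE₀ : ∀ j, IsFibrePrime r K (E₀ j) := fun j => hS _ (e j).2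
  have hinj : Function.Injective E₀ := fun a b h => e.injective (Subtype.ext h)
  have hsurj : ∀ E ∈ S, ∃ j, E = E₀ j := by
    intro E hE
    refine ⟨e.symm ⟨E, hE⟩, ?_⟩
    simp only [E₀, Equiv.apply_symm_apply]
  have hsum : ∀ g : DVal F → ℝ, ∑ j, g (E₀ j) = ∑ E ∈ S, g E := by
    intro g
    rw [← Finset.sum_coe_sort S g]
    exact Equiv.sum_comp e (fun E : S => g E)
  have hdegτ : ∑ j, τ * Δ (E₀ j) * (dg r K (E₀ j) : ℝ) = r + 1 := by
    rw [hsum fun E => τ * Δ E * (dg r K E : ℝ)]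
    have e1 : ∑ E ∈ S, τ * Δ E * (dg r K E : ℝ) = τ * M := by
      rw [hM, Finset.mul_sum]
      exact Finset.sum_congr rfl fun E _ => by ring
    rw [e1, hτ, div_mul_cancel₀ _ hM0.ne']
  have hsemi := semi_of_lc hr y hy hx hfib (KX + Δ) hC hlc E₀ hinj hE₀ (fun j => Δ (E₀ j))
    (fun j => hΔ0 _ (hE₀ j))
    (by
      intro j
      rw [Pi.add_apply, hKX _ (hE₀ j)]
      ring)
    (fun E h1 h2 => hsurj E (hcorS E h1 h2)) (fun E h1 h2 => hsurj E (hDS E h1 h2))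
    τ hτ0 hτ1 hdegτ
  haveI : CharZero K := charZero_of_injective_algebraMap (algebraMap ℂ K).injective
  obtain ⟨Φ, hΦ⟩ := exists_phi (Nat.succ_pos r) (fun j => Pf r K (E₀ j))
    (fun j => (Pf_spec (hE₀ j)).2.2.1.ne_zero) (fun j => dg r K (E₀ j))
    (fun j => (Pf_spec (hE₀ j)).1) (fun j => (Pf_spec (hE₀ j)).2.1) (fun j => τ * Δ (E₀ j))
    (fun j => mul_nonneg hτ0 (hΔ0 _ (hE₀ j))) hsemi
  refine ⟨S.card, E₀, fun j => τ * Δ (E₀ j), Φ, hinj, hE₀,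
    fun j => mul_nonneg hτ0 (hΔ0 _ (hE₀ j)), fun j => ?_, hdegτ, fun E T hT μ hμ => hΦ F E T hT μ hμ⟩
  have := mul_le_mul_of_nonneg_right hτ1 (hΔ0 _ (hE₀ j))
  rwa [one_mul] at this

end WPB
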