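import Mathlib

/-!
Definitions for the invariant theoretic part of the weak non-vanishing theorem on projective
bundles.
-/

open MvPolynomial

namespace WPB

/-- `f(A z)`: the linear forms `Σ_b A a b z_b` are substituted for the variables of `f`. -/
noncomputable def sub {k : ℕ} {R S : Type*} [CommRing R] [CommRing S] [Algebra R S]
    (f : MvPolynomial (Fin k) R) (A : Matrix (Fin k) (Fin k) S) : MvPolynomial (Fin k) S :=
  aeval (fun a => ∑ b, C (A a b) * X b) f

/-- The pairing `⟨s, v⟩` of an exponent with an integer vector. -/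
def pr {k : ℕ} (s : Fin k →₀ ℕ) (v : Fin k → ℤ) : ℤ := ∑ i, (s i : ℤ) * v i

/-- The forms `f_j` with the weights `m_j` are semistable: over no finite extension is there a
coordinate system `h` with a one-parameter group `v` in which all monomials which occur have too
large weight. -/
def Semi {k s : ℕ} {K : Type} [Field K] (f : Fin s → MvPolynomial (Fin k) K) (m : Fin s → ℕ)
    (N : ℕ) : Prop :=
  ∀ (K' : Type) [Field K'] [Algebra K K'] [Module.Finite K K'] (h : Matrix (Fin k) (Fin k) K'),
    h.det ≠ 0 → ∀ v : Fin k → ℤ, ∃ α : Fin s → (Fin k →₀ ℕ),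
      (∀ j, α j ∈ (sub (f j) h).support) ∧ ∑ j, (m j : ℤ) * pr (α j) v ≤ N * ∑ i, v i

/-- The same with real weights. -/
def SemiR {k s : ℕ} {K : Type} [Field K] (f : Fin s → MvPolynomial (Fin k) K) (c : Fin s → ℝ) :
    Prop :=
  ∀ (K' : Type) [Field K'] [Algebra K K'] [Module.Finite K K'] (h : Matrix (Fin k) (Fin k) K'),
    h.det ≠ 0 → ∀ v : Fin k → ℤ, ∃ α : Fin s → (Fin k →₀ ℕ),
      (∀ j, α j ∈ (sub (f j) h).support) ∧ ∑ j, c j * (pr (α j) v : ℝ) ≤ ((∑ i, v i : ℤ) : ℝ)

/-- The product of the `P_j(a)` over all `a` in the multisets `α_j`. -/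
noncomputable def mono {k s : ℕ} {R : Type*} [CommMonoid R]
    (P : Fin s → (Fin k →₀ ℕ) → R) (α : Fin s → Multiset (Fin k →₀ ℕ)) : R :=
  ∏ j, ((α j).map (P j)).prod

/-- The generic square matrix over `R`. -/
noncomputable abbrev gen (k : ℕ) (R : Type*) [CommRing R] :
    Matrix (Fin k) (Fin k) (MvPolynomial (Fin k × Fin k) R) :=
  Matrix.mvPolynomialX (Fin k) (Fin k) R

/-- The coefficients of the transform of `f_j` by the generic matrix. -/
noncomputable def gco {k s : ℕ} {R : Type*} [CommRing R] (f : Fin s → MvPolynomial (Fin k) R)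
    (j : Fin s) (a : Fin k →₀ ℕ) : MvPolynomial (Fin k × Fin k) R :=
  (sub (f j) (gen k R)).coeff a

/-- The apolar (Fischer) pairing `Σ_α α! p_α q_α`. -/
noncomputable def fis {σ R : Type*} [CommRing R] (p q : MvPolynomial σ R) : R :=
  ∑ a ∈ p.support, (a.prod fun _ n => (Nat.factorial n : R)) * p.coeff a * q.coeff a

/-- The linear substitution `X_i ↦ Σ_j L i j X_j`. -/
noncomputable def linSub {σ R : Type*} [Fintype σ] [CommRing R] (L : Matrix σ σ R) :
    MvPolynomial σ R →ₐ[R] MvPolynomial σ R :=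
  aeval fun i => ∑ j, C (L i j) * X j

/-- The substitution `T ↦ S T` in polynomials in the entries of a square matrix `T`. -/
noncomputable def leftSub {k : ℕ} {R : Type*} [CommRing R] (S : Matrix (Fin k) (Fin k) R) :
    MvPolynomial (Fin k × Fin k) R →ₐ[R] MvPolynomial (Fin k × Fin k) R :=
  aeval fun i => ∑ c, C (S i.1 c) * X (c, i.2)

end WPB
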