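import Pool.Agent.WPB.GDefs
import Pool.Agent.WNV.GVL

open MvPolynomial WNV

set_option linter.unusedSectionVars false

namespace WPB

section homog

variable {k : ℕ} {K : Type} [Field K]

/-- The substitution `X_i ↦ X_i T`. -/
private noncomputable def EVA_phi (k : ℕ) (K : Type) [Field K] :
    MvPolynomial (Fin k) K →ₐ[K] Polynomial (MvPolynomial (Fin k) K) :=
  aeval fun i => Polynomial.C (X i) * Polynomial.X

private theorem EVA_phi_monomial (s : Fin k →₀ ℕ) (c : K) :
    EVA_phi k K (monomial s c) = Polynomial.C (monomial s c) * Polynomial.X ^ s.degree := by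
  unfold EVA_phi
  rw [aeval_monomial]
  have h1 : (s.prod fun i n => (Polynomial.C (X i : MvPolynomial (Fin k) K) * Polynomial.X) ^ n) =
      Polynomial.C (monomial s (1 : K)) * Polynomial.X ^ s.degree := by
    rw [Finsupp.prod_fintype _ _ (fun i => by simp)]
    simp only [mul_pow]
    rw [Finset.prod_mul_distrib, Finset.prod_pow_eq_pow_sum, Finsupp.degree_eq_sum]
    congr 1
    rw [monomial_eq, Finsupp.prod_fintype _ _ (fun i => by simp)]
    simp
  rw [h1, ← mul_assoc]
  congr 1
  have h2 : (algebraMap K (Polynomial (MvPolynomial (Fin k) K))) c =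
      Polynomial.C (C c) := by
    rw [IsScalarTower.algebraMap_apply K (MvPolynomial (Fin k) K)]
    rfl
  rw [h2, ← Polynomial.C_mul, C_mul_monomial, mul_one]

private theorem EVA_phi_coeff (p : MvPolynomial (Fin k) K) (n : ℕ) :
    (EVA_phi k K p).coeff n = homogeneousComponent n p := by
  have h : EVA_phi k K p = ∑ s ∈ p.support,
      Polynomial.C (monomial s (p.coeff s)) * Polynomial.X ^ s.degree := by
    conv_lhs => rw [p.as_sum]
    rw [map_sum]
    exact Finset.sum_congr rfl fun s _ => EVA_phi_monomial s _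
  rw [h, Polynomial.finsetSum_coeff, homogeneousComponent_apply, Finset.sum_filter]
  refine Finset.sum_congr rfl fun s _ => ?_
  rw [Polynomial.coeff_C_mul, Polynomial.coeff_X_pow]
  by_cases hs : s.degree = n
  · simp [hs]
  · simp [hs, Ne.symm hs]

private theorem EVA_phi_inj {p : MvPolynomial (Fin k) K} (h : p ≠ 0) : EVA_phi k K p ≠ 0 := by
  intro h1
  apply h
  rw [← sum_homogeneousComponent p]
  refine Finset.sum_eq_zero fun i _ => ?_
  rw [← EVA_phi_coeff, h1, Polynomial.coeff_zero]

private theorem EVA_homog_iff {p : MvPolynomial (Fin k) K} {n : ℕ}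
    (h : ∀ m, m ≠ n → (EVA_phi k K p).coeff m = 0) : p.IsHomogeneous n := by
  have h1 : p = homogeneousComponent n p := by
    conv_lhs => rw [← sum_homogeneousComponent p]
    by_cases hn : n ∈ Finset.range (p.totalDegree + 1)
    · rw [Finset.sum_eq_single_of_mem n hn]
      intro m _ hm
      rw [← EVA_phi_coeff]
      exact h m hm
    · rw [homogeneousComponent_eq_zero n p (by simpa using hn)]
      refine Finset.sum_eq_zero fun m hm => ?_
      rw [← EVA_phi_coeff]
      refine h m fun hmn => hn (hmn ▸ hm)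
  rw [h1]
  exact homogeneousComponent_isHomogeneous n p

private theorem EVA_phi_homog {p : MvPolynomial (Fin k) K} {n : ℕ} (h : p.IsHomogeneous n) {m : ℕ}
    (hm : m ≠ n) : (EVA_phi k K p).coeff m = 0 := by
  rw [EVA_phi_coeff, homogeneousComponent_of_mem h, if_neg hm]

/-- A divisor of a form is a form. -/
theorem homog_of_dvd {k d : ℕ} {K : Type} [Field K] {P G : MvPolynomial (Fin k) K}
    (hG : G.IsHomogeneous d) (h0 : G ≠ 0) (h : P ∣ G) : ∃ e, e ≤ d ∧ P.IsHomogeneous e := by
  obtain ⟨Q, rfl⟩ := h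
  have hP0 : P ≠ 0 := left_ne_zero_of_mul h0
  have hQ0 : Q ≠ 0 := right_ne_zero_of_mul h0
  have hP := EVA_phi_inj hP0
  have hQ := EVA_phi_inj hQ0
  have hPQ := EVA_phi_inj h0
  have hmul : EVA_phi k K (P * Q) = EVA_phi k K P * EVA_phi k K Q := map_mul _ _ _
  have hd : (EVA_phi k K (P * Q)).natDegree = d := by
    by_contra h1
    have h2 := EVA_phi_homog hG h1
    exact hPQ (Polynomial.leadingCoeff_eq_zero.1 h2)
  have ht : (EVA_phi k K (P * Q)).natTrailingDegree = d := by
    by_contra h1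
    have h2 := EVA_phi_homog hG h1
    exact hPQ (Polynomial.trailingCoeff_eq_zero.1 h2)
  rw [hmul, Polynomial.natDegree_mul hP hQ] at hd
  rw [hmul, Polynomial.natTrailingDegree_mul hP hQ] at ht
  have h1 := Polynomial.natTrailingDegree_le_natDegree (EVA_phi k K P)
  have h2 := Polynomial.natTrailingDegree_le_natDegree (EVA_phi k K Q)
  refine ⟨(EVA_phi k K P).natDegree, by omega, EVA_homog_iff fun m hm => ?_⟩
  rcases lt_or_gt_of_ne hm with h3 | h3
  · exact Polynomial.coeff_eq_zero_of_lt_natTrailingDegree (by omega)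
  · exact Polynomial.coeff_eq_zero_of_natDegree_lt h3

/-- A form is a product of irreducible forms. -/
theorem form_factor {k d : ℕ} {K : Type} [Field K] {G : MvPolynomial (Fin k) K}
    (hG : G.IsHomogeneous d) (h0 : G ≠ 0) :
    ∃ (u : K) (s : Multiset (MvPolynomial (Fin k) K)), u ≠ 0 ∧
      (∀ P ∈ s, Irreducible P ∧ ∃ e, 0 < e ∧ P.IsHomogeneous e) ∧ G = C u * s.prod := by
  obtain ⟨s, hs, w, hw⟩ := WfDvdMonoid.exists_factors G h0
  have hu : IsUnit (w : MvPolynomial (Fin k) K) := w.isUnit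
  rw [MvPolynomial.isUnit_iff_eq_C_of_isReduced] at hu
  obtain ⟨u, hu, hu'⟩ := hu
  refine ⟨u, s, hu.ne_zero, fun P hP => ⟨hs P hP, ?_⟩, ?_⟩
  · have hd : P ∣ G := (Multiset.dvd_prod hP).trans ⟨_, hw.symm⟩
    obtain ⟨e, _, he⟩ := homog_of_dvd hG h0 hd
    refine ⟨e, ?_, he⟩
    rcases Nat.eq_zero_or_pos e with h1 | h1
    · exfalso
      subst h1
      have h2 := (totalDegree_zero_iff_isHomogeneous (Fin k)).2 he
      rw [totalDegree_eq_zero_iff_eq_C] at h2
      have hP0 : P ≠ 0 := (hs P hP).ne_zero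
      apply (hs P hP).not_isUnit
      rw [MvPolynomial.isUnit_iff_eq_C_of_isReduced]
      refine ⟨_, ?_, h2⟩
      refine IsUnit.mk0 _ fun h3 => hP0 ?_
      rw [h2, h3, C_0]
    · exact h1
  · rw [← hw, hu', mul_comm]

end homog

section deh

variable {r : ℕ} {K : Type} [Field K]

/-- Dehomogenisation `X_0 ↦ 1`. -/
private noncomputable def EVA_deh (r : ℕ) (K : Type) [Field K] :
    MvPolynomial (Fin (r + 1)) K →ₐ[K] MvPolynomial (Fin r) K :=
  aeval (Fin.cons 1 X)

/-- Homogenisation in degree `d`. -/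
private noncomputable def EVA_hom (d : ℕ) (p : MvPolynomial (Fin r) K) :
    MvPolynomial (Fin (r + 1)) K :=
  ∑ s ∈ p.support, monomial (Finsupp.cons (d - s.degree) s) (p.coeff s)

private theorem EVA_deh_monomial (s : Fin (r + 1) →₀ ℕ) (c : K) :
    EVA_deh r K (monomial s c) = monomial s.tail c := by
  unfold EVA_deh
  rw [aeval_monomial, Finsupp.prod_fintype _ _ (fun i => by simp), Fin.prod_univ_succ]
  simp only [Fin.cons_zero, one_pow, one_mul, Fin.cons_succ]
  rw [monomial_eq, Finsupp.prod_fintype _ _ (fun i => by simp)]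
  rfl

private theorem EVA_degree_cons (a : ℕ) (s : Fin r →₀ ℕ) :
    (Finsupp.cons a s).degree = a + s.degree := by
  rw [Finsupp.degree_eq_sum, Finsupp.degree_eq_sum, Fin.sum_univ_succ]
  simp

private theorem EVA_degree_tail (s : Fin (r + 1) →₀ ℕ) : s.degree = s 0 + s.tail.degree := by
  conv_lhs => rw [← Finsupp.cons_tail s]
  exact EVA_degree_cons _ _

private theorem EVA_le {p : MvPolynomial (Fin r) K} {s : Fin r →₀ ℕ} (hs : s ∈ p.support) :
    s.degree ≤ p.totalDegree := by
  have := le_totalDegree hs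
  rwa [Finsupp.degree_eq_sum, ← Finsupp.sum_fintype s (fun _ n => n) (fun _ => rfl)]

private theorem EVA_hom_homog {d : ℕ} {p : MvPolynomial (Fin r) K} (h : p.totalDegree ≤ d) :
    (EVA_hom d p).IsHomogeneous d := by
  unfold EVA_hom
  refine IsHomogeneous.sum _ _ _ fun s hs => isHomogeneous_monomial _ ?_
  rw [EVA_degree_cons]
  have := EVA_le hs
  omega

private theorem EVA_deh_hom (d : ℕ) (p : MvPolynomial (Fin r) K) :
    EVA_deh r K (EVA_hom d p) = p := by
  unfold EVA_hom
  rw [map_sum]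
  conv_rhs => rw [p.as_sum]
  refine Finset.sum_congr rfl fun s _ => ?_
  rw [EVA_deh_monomial, Finsupp.tail_cons]

private theorem EVA_deh_coeff {d : ℕ} {G : MvPolynomial (Fin (r + 1)) K} (hG : G.IsHomogeneous d)
    {s : Fin (r + 1) →₀ ℕ} (hs : s.degree = d) : (EVA_deh r K G).coeff s.tail = G.coeff s := by
  classical
  have h : EVA_deh r K G = ∑ t ∈ G.support, monomial t.tail (G.coeff t) := by
    conv_lhs => rw [G.as_sum]
    rw [map_sum]
    exact Finset.sum_congr rfl fun t _ => EVA_deh_monomial t _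
  rw [h, coeff_sum]
  simp only [coeff_monomial]
  have h1 : ∀ t ∈ G.support, (if t.tail = s.tail then G.coeff t else 0) =
      if t = s then G.coeff s else 0 := by
    intro t ht
    have h2 : t.degree = d := by
      by_contra h3
      exact (mem_support_iff.1 ht) (hG.coeff_eq_zero h3)
    by_cases h3 : t = s
    · subst h3
      simp
    · rw [if_neg h3, if_neg]
      intro h4
      apply h3
      rw [EVA_degree_tail] at h2 hs
      rw [h4] at h2
      rw [← Finsupp.cons_tail t, ← Finsupp.cons_tail s, h4]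
      congr 1
      omega
  rw [Finset.sum_congr rfl h1, Finset.sum_ite_eq']
  split_ifs with h2
  · rfl
  · exact (notMem_support_iff.1 h2).symm

private theorem EVA_deh_inj {d : ℕ} {G H : MvPolynomial (Fin (r + 1)) K} (hG : G.IsHomogeneous d)
    (hH : H.IsHomogeneous d) (h : EVA_deh r K G = EVA_deh r K H) : G = H := by
  ext s
  by_cases hs : s.degree = d
  · rw [← EVA_deh_coeff hG hs, ← EVA_deh_coeff hH hs, h]
  · rw [hG.coeff_eq_zero hs, hH.coeff_eq_zero hs]

private theorem EVA_deh_ne {d : ℕ} {G : MvPolynomial (Fin (r + 1)) K} (hG : G.IsHomogeneous d)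
    (h : G ≠ 0) : EVA_deh r K G ≠ 0 := fun h1 =>
  h (EVA_deh_inj hG (isHomogeneous_zero _ _ d) (by rw [h1, map_zero]))

private theorem EVA_X0 {G : MvPolynomial (Fin (r + 1)) K} :
    X 0 ∣ G ↔ ∀ s ∈ G.support, s 0 ≠ 0 := by
  rw [← Ideal.mem_span_singleton, ← Set.image_singleton (f := X), mem_ideal_span_X_image]
  simp

private theorem EVA_deh_deg {d : ℕ} {G : MvPolynomial (Fin (r + 1)) K} (hG : G.IsHomogeneous d) :
    (EVA_deh r K G).totalDegree ≤ d := by
  classical
  have h : EVA_deh r K G = ∑ t ∈ G.support, monomial t.tail (G.coeff t) := by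
    conv_lhs => rw [G.as_sum]
    rw [map_sum]
    exact Finset.sum_congr rfl fun t _ => EVA_deh_monomial t _
  rw [h]
  refine totalDegree_finsetSum_le fun t ht => ?_
  have h2 : t.degree = d := by
    by_contra h3
    exact (mem_support_iff.1 ht) (hG.coeff_eq_zero h3)
  rw [EVA_degree_tail] at h2
  refine (totalDegree_monomial_le _ _).trans ?_
  have h3 : (t.tail.sum fun _ => id) = t.tail.degree := by
    rw [Finsupp.degree_eq_sum, Finsupp.sum_fintype _ _ (fun _ => rfl)]
    rfl
  rw [h3]
  omega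

private theorem EVA_deh_deg_eq {d : ℕ} {G : MvPolynomial (Fin (r + 1)) K}
    (hG : G.IsHomogeneous d) (hX : ¬ X 0 ∣ G) : (EVA_deh r K G).totalDegree = d := by
  refine le_antisymm (EVA_deh_deg hG) ?_
  rw [EVA_X0] at hX
  push Not at hX
  obtain ⟨s, hs, hs0⟩ := hX
  have h2 : s.degree = d := by
    by_contra h3
    exact (mem_support_iff.1 hs) (hG.coeff_eq_zero h3)
  have h3 : s.tail ∈ (EVA_deh r K G).support := by
    rw [mem_support_iff, EVA_deh_coeff hG h2]
    exact mem_support_iff.1 hs
  have h4 := EVA_le h3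
  rw [EVA_degree_tail, hs0] at h2
  omega

private theorem EVA_hom_X0 {p : MvPolynomial (Fin r) K} (hp : p ≠ 0) :
    ¬ X 0 ∣ EVA_hom p.totalDegree p := by
  rw [EVA_X0]
  push Not
  obtain ⟨s, hs, hs'⟩ : ∃ s ∈ p.support, s.degree = p.totalDegree := by
    by_contra h
    push Not at h
    have hne : p.support.Nonempty := by
      rw [Finset.nonempty_iff_ne_empty]
      intro h1
      exact hp (support_eq_empty.1 h1)
    obtain ⟨s, hs, h1⟩ := Finset.exists_mem_eq_sup p.support hne (fun s => s.sum fun _ e => e)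
    refine h s hs ?_
    rw [Finsupp.degree_eq_sum, ← Finsupp.sum_fintype s (fun _ n => n) (fun _ => rfl)]
    exact h1.symm
  refine ⟨Finsupp.cons 0 s, ?_, Finsupp.cons_zero _ _⟩
  have h1 : (Finsupp.cons 0 s).degree = p.totalDegree := by
    rw [EVA_degree_cons, hs', zero_add]
  have h2 := EVA_deh_coeff (EVA_hom_homog (le_refl p.totalDegree)) h1
  rw [EVA_deh_hom, Finsupp.tail_cons] at h2
  rw [mem_support_iff, ← h2]
  exact mem_support_iff.1 hs

private theorem EVA_hom_ne {d : ℕ} {p : MvPolynomial (Fin r) K} (hp : p ≠ 0) :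
    EVA_hom d p ≠ 0 := by
  intro h
  apply hp
  rw [← EVA_deh_hom d p, h, map_zero]

end deh

variable {r : ℕ} {K F : Type} [Field K] [Algebra ℂ K] [Field F] [Algebra ℂ F]
    [Algebra K F] [IsScalarTower ℂ K F]
    [Algebra (MvPolynomial (Fin r) K) F] [IsScalarTower K (MvPolynomial (Fin r) K) F]
    [IsFractionRing (MvPolynomial (Fin r) K) F]

private theorem EVA_alg_inj : Function.Injective (algebraMap (MvPolynomial (Fin r) K) F) :=
  IsFractionRing.injective _ _

theorem zz_ne_zero (i : Fin (r + 1)) : zz r K F i ≠ 0 := by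
  refine Fin.cases ?_ (fun j => ?_) i
  · simp [zz]
  · simp only [zz, Fin.cons_succ, tt]
    rw [Ne, map_eq_zero_iff _ (EVA_alg_inj (r := r) (K := K) (F := F))]
    exact X_ne_zero j

theorem ev_mul (G H : MvPolynomial (Fin (r + 1)) K) : ev F (G * H) = ev F G * ev F H := by
  simp [ev]

theorem ev_pow (G : MvPolynomial (Fin (r + 1)) K) (n : ℕ) : ev F (G ^ n) = ev F G ^ n := by
  simp [ev]

theorem ev_C (a : K) : ev F (C a : MvPolynomial (Fin (r + 1)) K) = algebraMap K F a := by
  simp [ev]

theorem ev_X (i : Fin (r + 1)) : ev F (X i : MvPolynomial (Fin (r + 1)) K) = zz r K F i := by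
  simp [ev]

private theorem EVA_ev_deh (G : MvPolynomial (Fin (r + 1)) K) :
    ev F G = algebraMap _ F (EVA_deh r K G) := by
  have h : (aeval (zz r K F) : MvPolynomial (Fin (r + 1)) K →ₐ[K] F) =
      (IsScalarTower.toAlgHom K (MvPolynomial (Fin r) K) F).comp (EVA_deh r K) := by
    apply MvPolynomial.algHom_ext
    intro i
    simp only [AlgHom.comp_apply, EVA_deh, aeval_X, IsScalarTower.coe_toAlgHom']
    refine Fin.cases ?_ (fun j => ?_) i
    · simp [zz]
    · simp [zz, tt]
  unfold ev
  rw [h]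
  rfl

theorem ev_ne_zero {G : MvPolynomial (Fin (r + 1)) K} {d : ℕ} (hG : G.IsHomogeneous d)
    (h0 : G ≠ 0) : ev F G ≠ 0 := by
  rw [EVA_ev_deh, Ne, map_eq_zero_iff _ (EVA_alg_inj (r := r) (K := K) (F := F))]
  exact EVA_deh_ne hG h0

/-- Every polynomial in `t` is the dehomogenisation of a form which is not divisible by `z_0`. -/
theorem exists_homogenize (p : MvPolynomial (Fin r) K) (hp : p ≠ 0) :
    ∃ G : MvPolynomial (Fin (r + 1)) K, G ≠ 0 ∧ G.IsHomogeneous p.totalDegree ∧ ¬ X 0 ∣ G ∧
      ev F G = algebraMap _ F p := by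
  refine ⟨EVA_hom p.totalDegree p, EVA_hom_ne hp, EVA_hom_homog le_rfl, EVA_hom_X0 hp, ?_⟩
  rw [EVA_ev_deh, EVA_deh_hom]

private theorem EVA_unit {p : MvPolynomial (Fin r) K} (d : ℕ) (h : IsUnit (EVA_hom d p)) :
    IsUnit p := by
  have h1 := h.map (EVA_deh r K)
  rwa [EVA_deh_hom] at h1

/-- Dehomogenisation. -/
theorem exists_dehomogenize {G : MvPolynomial (Fin (r + 1)) K} {d : ℕ} (hG : G.IsHomogeneous d)
    (h0 : G ≠ 0) (hX : ¬ X 0 ∣ G) :
    ∃ p : MvPolynomial (Fin r) K, p ≠ 0 ∧ p.totalDegree = d ∧ ev F G = algebraMap _ F p ∧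
      (Irreducible G → 0 < d → Irreducible p) ∧
      (∀ i : Fin r, Associated p (X i) → 0 < d → Associated G (X i.succ)) ∧
      ∀ (H : MvPolynomial (Fin (r + 1)) K) (e : ℕ) (q : MvPolynomial (Fin r) K),
        H.IsHomogeneous e → ev F H = algebraMap _ F q → (p ∣ q ↔ G ∣ H) := by
  have hdeg := EVA_deh_deg_eq hG hX
  have hp0 := EVA_deh_ne hG h0
  refine ⟨EVA_deh r K G, hp0, hdeg, EVA_ev_deh G, ?_, ?_, ?_⟩
  · intro hirr hd
    refine ⟨?_, ?_⟩
    · intro hu
      rw [MvPolynomial.isUnit_iff_totalDegree_of_isReduced] at hu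
      omega
    · intro a b hab
      have ha : a ≠ 0 := by
        rintro rfl
        exact hp0 (by rw [hab, zero_mul])
      have hb : b ≠ 0 := by
        rintro rfl
        exact hp0 (by rw [hab, mul_zero])
      have h1 := (EVA_hom_homog (le_refl a.totalDegree)).mul (EVA_hom_homog (le_refl b.totalDegree))
      have h2 : a.totalDegree + b.totalDegree = d := by
        rw [← hdeg, hab, totalDegree_mul_of_isDomain ha hb]
      rw [h2] at h1
      have h3 : G = EVA_hom a.totalDegree a * EVA_hom b.totalDegree b := by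
        refine EVA_deh_inj hG h1 ?_
        rw [map_mul, EVA_deh_hom, EVA_deh_hom, hab]
      rcases hirr.isUnit_or_isUnit h3 with h4 | h4
      · exact Or.inl (EVA_unit _ h4)
      · exact Or.inr (EVA_unit _ h4)
  · intro i hi hd
    obtain ⟨w, hw⟩ := hi
    have hu : IsUnit (w : MvPolynomial (Fin r) K) := w.isUnit
    rw [MvPolynomial.isUnit_iff_eq_C_of_isReduced] at hu
    obtain ⟨u, hu, hu'⟩ := hu
    have hd1 : d = 1 := by
      have h1 : ((EVA_deh r K G) * (w : MvPolynomial (Fin r) K)).totalDegree = 1 := by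
        rw [hw, totalDegree_X]
      rw [totalDegree_mul_of_isDomain hp0 w.isUnit.ne_zero, hdeg, hu', totalDegree_C] at h1
      omega
    subst hd1
    have h1 : (G * C u).IsHomogeneous 1 := by
      have := hG.mul (isHomogeneous_C (Fin (r + 1)) u)
      simpa using this
    have h2 : G * C u = X i.succ := by
      refine EVA_deh_inj h1 (isHomogeneous_X K _) ?_
      rw [map_mul]
      have h3 : EVA_deh r K (C u) = C u := by
        simp [EVA_deh]
      have h4 : EVA_deh r K (X i.succ) = X i := by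
        simp [EVA_deh]
      rw [h3, h4, ← hu', hw]
    have h3 : IsUnit (C u : MvPolynomial (Fin (r + 1)) K) := hu.map C
    exact ⟨h3.unit, by rw [IsUnit.unit_spec]; exact h2⟩
  · intro H e q hH hq
    rw [EVA_ev_deh] at hq
    have hq' := EVA_alg_inj (r := r) (K := K) (F := F) hq
    subst hq'
    constructor
    · rintro ⟨c, hc⟩
      by_cases hH0 : H = 0
      · subst hH0
        exact dvd_zero _
      · have hq0 := EVA_deh_ne hH hH0
        have hc0 : c ≠ 0 := by
          rintro rfl
          exact hq0 (by rw [hc, mul_zero])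
        have h1 : d + c.totalDegree ≤ e := by
          have h2 := EVA_deh_deg hH
          rw [hc, totalDegree_mul_of_isDomain hp0 hc0, hdeg] at h2
          exact h2
        have h2 : (G * EVA_hom (e - d) c).IsHomogeneous e := by
          have h3 := hG.mul (EVA_hom_homog (d := e - d) (p := c) (by omega))
          have h4 : d + (e - d) = e := by omega
          rwa [h4] at h3
        refine ⟨EVA_hom (e - d) c, EVA_deh_inj hH h2 ?_⟩
        rw [map_mul, EVA_deh_hom, hc]
    · rintro ⟨Q, rfl⟩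
      exact ⟨EVA_deh r K Q, map_mul _ _ _⟩

/-- Every rational function is a quotient of two forms of the same degree. -/
theorem exists_forms (f : F) : ∃ (d : ℕ) (G H : MvPolynomial (Fin (r + 1)) K),
    G.IsHomogeneous d ∧ H.IsHomogeneous d ∧ H ≠ 0 ∧ f = ev F G / ev F H := by
  obtain ⟨a, b, hb, rfl⟩ := IsFractionRing.div_surjective (A := MvPolynomial (Fin r) K) f
  have hb0 : b ≠ 0 := nonZeroDivisors.ne_zero hb
  refine ⟨max a.totalDegree b.totalDegree, EVA_hom _ a, EVA_hom _ b,
    EVA_hom_homog (le_max_left _ _), EVA_hom_homog (le_max_right _ _), EVA_hom_ne hb0, ?_⟩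
  rw [EVA_ev_deh, EVA_ev_deh, EVA_deh_hom, EVA_deh_hom]

end WPB
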