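import Pool.Agent.WNV.LOH

open MvPolynomial WNV

namespace WPB

open exteriorPower in
private theorem fex_chain {c : ℕ} {F : Type} [Field F] [Algebra ℂ F] (X : Fin c → F)
    (P : MvPolynomial (Fin c) ℂ) :
    KaehlerDifferential.D ℂ F (MvPolynomial.aeval X P) =
      ∑ i, MvPolynomial.aeval X (MvPolynomial.pderiv i P) • KaehlerDifferential.D ℂ F (X i) := by
  classical
  induction P using MvPolynomial.induction_on with
  | C a =>
    rw [MvPolynomial.aeval_C, Derivation.map_algebraMap]
    simp
  | add p q hp hq =>
    rw [map_add, map_add, hp, hq, ← Finset.sum_add_distrib]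
    refine Finset.sum_congr rfl fun i _ => ?_
    rw [map_add, map_add, add_smul]
  | mul_X p i hp =>
    rw [map_mul, Derivation.leibniz, hp, MvPolynomial.aeval_X, Finset.smul_sum]
    have h1 : ∀ j, MvPolynomial.aeval X (MvPolynomial.pderiv j (p * MvPolynomial.X i)) •
        KaehlerDifferential.D ℂ F (X j) =
        (if i = j then MvPolynomial.aeval X p • KaehlerDifferential.D ℂ F (X j) else 0) +
        X i • MvPolynomial.aeval X (MvPolynomial.pderiv j p) • KaehlerDifferential.D ℂ F (X j) := by
      intro j
      rw [Derivation.leibniz, MvPolynomial.pderiv_X, map_add, smul_eq_mul, smul_eq_mul, map_mul,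
        map_mul, MvPolynomial.aeval_X, add_smul, smul_smul]
      congr 1
      by_cases h : i = j
      · subst h
        simp
      · rw [if_neg h, Pi.single_eq_of_ne h]
        simp
    simp only [h1]
    rw [Finset.sum_add_distrib, Finset.sum_ite_eq, if_pos (Finset.mem_univ _)]

open exteriorPower in
private theorem fex_update {c : ℕ} {F : Type} [Field F] [Algebra ℂ F] (X : Fin c → F)
    (P : MvPolynomial (Fin c) ℂ) (j : Fin c) :
    ιMulti F c (Function.update (fun i => KaehlerDifferential.D ℂ F (X i)) j
      (KaehlerDifferential.D ℂ F (MvPolynomial.aeval X P))) =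
      MvPolynomial.aeval X (MvPolynomial.pderiv j P) •
        ιMulti F c (fun i => KaehlerDifferential.D ℂ F (X i)) := by
  classical
  set θ : Fin c → KaehlerDifferential ℂ F := fun i => KaehlerDifferential.D ℂ F (X i) with hθ
  have hθ' : ∀ i, θ i = KaehlerDifferential.D ℂ F (X i) := fun i => rfl
  rw [fex_chain, AlternatingMap.map_update_sum, Finset.sum_eq_single j]
  · rw [AlternatingMap.map_update_smul, ← hθ' j, Function.update_eq_self]
  · intro i _ hij
    rw [AlternatingMap.map_update_smul]
    rw [AlternatingMap.map_eq_zero_of_eq (ιMulti F c) _ (i := j) (j := i), smul_zero]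
    · rw [Function.update_self, Function.update_of_ne hij, hθ' i]
    · exact hij.symm
  · intro h
    exact absurd (Finset.mem_univ j) h

open exteriorPower in
/-- The generators: the form `dx_1 ∧ … ∧ dx_m` with `x_i` in the valuation ring of `E`. -/
theorem ordGE_ext_gen {F F' : Type} [Field F] [Field F'] [Algebra ℂ F] [Algebra ℂ F']
    [Algebra F F'] [IsScalarTower ℂ F F'] {m : ℕ} (y : Fin m → F)
    (hy : IsTranscendenceBasis ℂ y) (E : DVal F) (E' : DVal F') (e : ℤ) (he : 0 < e)
    (hE : ∀ a : F, E' (algebraMap F F' a) = e * E a) (x : Fin m → F) (hx : ∀ i, Ge E 0 (x i)) :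
    OrdGE E' (ιMulti F' m fun i => KaehlerDifferential.D ℂ F' (algebraMap F F' (x i)))
      (e - 1) := by
  obtain ⟨P, j, hP1, hP2, hP3⟩ := exists_relation y hy E x hx
  have hal : ∀ Q : MvPolynomial (Fin m) ℂ,
      MvPolynomial.aeval (fun i => algebraMap F F' (x i)) Q =
        algebraMap F F' (MvPolynomial.aeval x Q) := fun Q => by
    have := MvPolynomial.aeval_algebraMap_apply F' x Q
    exact this
  have hup := fex_update (fun i => algebraMap F F' (x i)) P j
  have hGE : Ge E' e (algebraMap F F' (MvPolynomial.aeval x P)) := by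
    rcases hP1 with h | h
    · left
      rw [h, map_zero]
    · right
      rw [hE]
      nlinarith
  have hdz := ordGE_dz (n := m) E'
    (Function.update (fun i => KaehlerDifferential.D ℂ F' (algebraMap F F' (x i))) j
      (KaehlerDifferential.D ℂ F' (MvPolynomial.aeval (fun i => algebraMap F F' (x i)) P)))
    j (algebraMap F F' (MvPolynomial.aeval x P)) e hGE
    (by rw [Function.update_self, hal]) (by
      intro k hk
      rw [Function.update_of_ne hk]
      left
      refine regDiff_D (E := E'.toQVal) ?_
      rcases hx k with h | h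
      · left
        rw [h, map_zero]
      · right
        show 0 ≤ E' (algebraMap F F' (x k))
        rw [hE]
        positivity)
  rw [hup, hal] at hdz
  set u := MvPolynomial.aeval x (MvPolynomial.pderiv j P) with hu
  have hu' : algebraMap F F' u ≠ 0 := (map_ne_zero_iff _ (algebraMap F F').injective).2 hP2
  have hinv : Ge E'.toQVal 0 (algebraMap F F' u)⁻¹ := by
    right
    rw [QVal.inv]
    show 0 ≤ -E' (algebraMap F F' u)
    rw [hE, hP3]
    simp
  have h2 := ordGE_smul E'.toQVal hinv hdz
  rw [inv_smul_smul₀ hu'] at h2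
  exact ordGE_mono (by omega) h2

/-- Extension of the field: a valuation `E'` of `F'` whose restriction to `F` is `e E` has order at
least `e a + (e - 1)` along a form of order at least `a` along `E`. -/
theorem ordGE_ext {F F' : Type} [Field F] [Field F'] [Algebra ℂ F] [Algebra ℂ F'] [Algebra F F']
    [IsScalarTower ℂ F F'] {m : ℕ} (y : Fin m → F) (hy : IsTranscendenceBasis ℂ y)
    (E : DVal F) (E' : DVal F') (e : ℤ) (he : 0 < e)
    (hE : ∀ a : F, E' (algebraMap F F' a) = e * E a) (g : F) (a : ℤ)
    (h : OrdGE E (g • exteriorPower.ιMulti F m fun i => KaehlerDifferential.D ℂ F (y i)) a) :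
    OrdGE E' (algebraMap F F' g • exteriorPower.ιMulti F' m fun i =>
      KaehlerDifferential.D ℂ F' (algebraMap F F' (y i))) (e * a + (e - 1)) := by
  obtain ⟨Φ, hΦ'⟩ := exists_push (K := F) (F := F') (c := m) (r := 0)
    (fun i : Fin 0 => (i.elim0 : KaehlerDifferential ℂ F'))
  have hΦ : ∀ (f : F) (x : Fin m → F),
      Φ (f • exteriorPower.ιMulti F m (fun i => KaehlerDifferential.D ℂ F (x i))) =
        algebraMap F F' f • exteriorPower.ιMulti F' m
          (fun i => KaehlerDifferential.D ℂ F' (algebraMap F F' (x i))) := by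
    intro f x
    rw [hΦ' f x]
    congr 2
    funext i
    exact Fin.append_left (fun i => KaehlerDifferential.D ℂ F' (algebraMap F F' (x i)))
      (fun i : Fin 0 => (i.elim0 : KaehlerDifferential ℂ F')) i
  rw [← hΦ]
  unfold OrdGE at h
  generalize (g • exteriorPower.ιMulti F m fun i => KaehlerDifferential.D ℂ F (y i)) = ω at h
  induction h using AddSubgroup.closure_induction with
  | mem τ hτ =>
    obtain ⟨f, x, hf, hx, rfl⟩ := hτ
    rw [hΦ]
    have h2 := ordGE_ext_gen y hy E E' e he hE x hx
    have h3 : Ge E'.toQVal (e * a) (algebraMap F F' f) := by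
      rcases hf with hf | hf
      · left
        rw [hf, map_zero]
      · right
        show e * a ≤ E' (algebraMap F F' f)
        rw [hE]
        exact mul_le_mul_of_nonneg_left hf he.le
    exact ordGE_smul E'.toQVal h3 h2
  | zero =>
    rw [map_zero]
    exact ordGE_zero _ _
  | add τ τ' _ _ h h' =>
    rw [map_add]
    exact ordGE_add h h'
  | neg τ _ h =>
    rw [map_neg]
    exact ordGE_neg h

end WPB
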