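import Pool.Agent.WPB.ASM
import Pool.Agent.WNV.BRG

open MvPolynomial WNV

namespace WPB

theorem final {c r N : ℕ} {K F : Type} [Field K] [Algebra ℂ K] [Field F]
    [Algebra ℂ F] [Algebra K F] [IsScalarTower ℂ K F]
    [Algebra (MvPolynomial (Fin r) K) F] [IsScalarTower K (MvPolynomial (Fin r) K) F]
    [IsFractionRing (MvPolynomial (Fin r) K) F] (hr : 0 < r)
    (y : Fin c → K) (hy : IsTranscendenceBasis ℂ y)
    (x : Fin (N + 1) → F) (hx : IsProjModel r K x)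
    (hfib : ∀ E : DVal F, IsFibrePrime r K E → ∃ i, IsPrimeOf (chart x i) E)
    (hlin : ∀ i (E : DVal F), IsPrimeOf (chart x i) E →
      (∃ a : K, E (algebraMap K F a) ≠ 0) → IsLinear r K E)
    (KX Δ : DVal F → ℝ) (hK : IsCanonical x (tform r F y) KX) (hΔ : IsBoundary x Δ)
    (hB : IsBaseEff x y Δ) (hC : IsRCartier x (KX + Δ))
    (hlc : ∀ E : DVal F, (∀ a : K, E (algebraMap K F a) = 0) →
      IsLcAt x (tform r F y) (KX + Δ) E)
    (hps : IsPsef x (KX + Δ)) : IsLinEff x (KX + Δ) := by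
  have ht := transcendence_append (r := r) (F := F) y hy
  have hiff : ∀ (E : DVal F) (a : ℤ), FIsOrd E (tform r F y) a ↔ IsOrd E (form r F y) a := by
    intro E a
    rw [← pairMap_form]
    exact fIsOrd_iff _ ht E _ a
  refine weak_nonvanishing hr y hy hx hfib hlin KX Δ ?_ hΔ.1 hΔ.2 ?_ hC ?_ hps
  · intro i E hE
    obtain ⟨k, hk, hko⟩ := hK i E hE
    exact ⟨k, hk, (hiff E k).1 hko⟩
  · obtain ⟨g, hg⟩ := hB
    refine ⟨g, fun i E hE w e he hw => ?_⟩
    obtain ⟨b, hb, hb0⟩ := hg i E hE w e he hw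
    refine ⟨b, ?_, hb0⟩
    rw [← pairMap_D] at hb
    exact ordGE_of (pairMap_injective y hy) hb
  · intro E hE i hi ψ hψ a ha
    exact hlc E hE i hi ψ hψ a ((hiff E a).2 ha)

end WPB
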