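import Pool.Agent.WPB.Defs

open MvPolynomial

namespace WPB

variable {σ R S : Type*} [CommRing R] [CommRing S]

private theorem FIS_superset (p q : MvPolynomial σ R) (s : Finset (σ →₀ ℕ)) (hs : p.support ⊆ s) :
    fis p q = ∑ a ∈ s, (a.prod fun _ n => (Nat.factorial n : R)) * p.coeff a * q.coeff a := by
  unfold fis
  refine Finset.sum_subset hs fun a _ ha => ?_
  rw [MvPolynomial.notMem_support_iff.1 ha, mul_zero, zero_mul]

theorem fis_add_left (p p' q : MvPolynomial σ R) : fis (p + p') q = fis p q + fis p' q := by
  classical
  rw [FIS_superset (p + p') q (p.support ∪ p'.support) MvPolynomial.support_add,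
    FIS_superset p q (p.support ∪ p'.support) Finset.subset_union_left,
    FIS_superset p' q (p.support ∪ p'.support) Finset.subset_union_right,
    ← Finset.sum_add_distrib]
  refine Finset.sum_congr rfl fun a _ => ?_
  rw [MvPolynomial.coeff_add]
  ring

theorem fis_add_right (p q q' : MvPolynomial σ R) : fis p (q + q') = fis p q + fis p q' := by
  unfold fis
  rw [← Finset.sum_add_distrib]
  refine Finset.sum_congr rfl fun a _ => ?_
  rw [MvPolynomial.coeff_add]
  ring

theorem fis_C_mul_left (c : R) (p q : MvPolynomial σ R) : fis (C c * p) q = c * fis p q := by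
  classical
  have hs : (C c * p).support ⊆ p.support := by
    intro a ha
    rw [MvPolynomial.mem_support_iff] at ha ⊢
    intro h0
    apply ha
    rw [MvPolynomial.coeff_C_mul, h0, mul_zero]
  rw [FIS_superset (C c * p) q p.support hs]
  unfold fis
  rw [Finset.mul_sum]
  refine Finset.sum_congr rfl fun a _ => ?_
  rw [MvPolynomial.coeff_C_mul]
  ring

theorem fis_C_mul_right (c : R) (p q : MvPolynomial σ R) : fis p (C c * q) = c * fis p q := by
  unfold fis
  rw [Finset.mul_sum]
  refine Finset.sum_congr rfl fun a _ => ?_
  rw [MvPolynomial.coeff_C_mul]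
  ring

private theorem FIS_mono (a : σ →₀ ℕ) (c : R) (q : MvPolynomial σ R) :
    fis (monomial a c) q = (a.prod fun _ n => (Nat.factorial n : R)) * c * q.coeff a := by
  classical
  rw [FIS_superset (monomial a c) q {a} MvPolynomial.support_monomial_subset,
    Finset.sum_singleton, MvPolynomial.coeff_monomial, if_pos rfl]

private theorem FIS_coeff_pderiv (i : σ) (q : MvPolynomial σ R) (a : σ →₀ ℕ) :
    (pderiv i q).coeff a = ((a i : R) + 1) * q.coeff (a + Finsupp.single i 1) := by
  classical
  induction q using MvPolynomial.induction_on' with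
  | monomial b c =>
    rw [pderiv_monomial, coeff_monomial, coeff_monomial]
    by_cases h : b = a + Finsupp.single i 1
    · have h1 : b - Finsupp.single i 1 = a := by
        rw [h, add_tsub_cancel_right]
      rw [if_pos h1, if_pos h, h]
      simp
      ring
    · rw [if_neg h, mul_zero]
      split_ifs with h1
      · have hb : b i = 0 := by
          by_contra hb
          apply h
          rw [← h1, tsub_add_cancel_of_le]
          rw [Finsupp.single_le_iff]
          omega
        rw [hb, Nat.cast_zero, mul_zero]
      · rfl
  | add p q hp hq =>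
    rw [map_add, coeff_add, coeff_add, hp, hq]
    ring

private theorem FIS_prod_add (i : σ) (a : σ →₀ ℕ) :
    ((a + Finsupp.single i 1).prod fun _ n => (Nat.factorial n : R))
      = ((a i : R) + 1) * a.prod fun _ n => (Nat.factorial n : R) := by
  classical
  have h1 : ∀ b : σ →₀ ℕ, b.support ⊆ insert i a.support →
      (b.prod fun _ n => (Nat.factorial n : R)) = ∏ j ∈ insert i a.support, (Nat.factorial (b j) : R) := by
    intro b hb
    exact Finsupp.prod_of_support_subset _ hb _ fun j _ => by simp
  rw [h1 a (Finset.subset_insert _ _), h1 (a + Finsupp.single i 1) (by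
    intro j hj
    by_cases hji : j = i
    · rw [hji]
      exact Finset.mem_insert_self _ _
    · apply Finset.mem_insert_of_mem
      rw [Finsupp.mem_support_iff] at hj ⊢
      rw [Finsupp.add_apply, Finsupp.single_apply, if_neg (fun h => hji h.symm), add_zero] at hj
      exact hj)]
  rw [← Finset.mul_prod_erase _ _ (Finset.mem_insert_self i a.support),
    ← Finset.mul_prod_erase (insert i a.support) (fun j => (Nat.factorial (a j) : R))
      (Finset.mem_insert_self i a.support)]
  have h2 : ∏ j ∈ (insert i a.support).erase i, (Nat.factorial ((a + Finsupp.single i 1 : σ →₀ ℕ) j) : R)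
      = ∏ j ∈ (insert i a.support).erase i, (Nat.factorial (a j) : R) := by
    refine Finset.prod_congr rfl fun j hj => ?_
    have hji : j ≠ i := Finset.ne_of_mem_erase hj
    rw [Finsupp.add_apply, Finsupp.single_apply, if_neg (fun h => hji h.symm), add_zero]
  rw [h2, Finsupp.add_apply, Finsupp.single_apply, if_pos rfl, Nat.factorial_succ]
  push_cast
  ring

/-- Multiplication by a variable is adjoint to the derivative. -/
theorem fis_X_mul (i : σ) (p q : MvPolynomial σ R) : fis (X i * p) q = fis p (pderiv i q) := by
  classical
  induction p using MvPolynomial.induction_on' with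
  | monomial b c =>
    have h1 : (X i : MvPolynomial σ R) * monomial b c = monomial (b + Finsupp.single i 1) c := by
      rw [X, monomial_mul, one_mul, add_comm]
    rw [h1, FIS_mono, FIS_mono, FIS_coeff_pderiv, FIS_prod_add]
    ring
  | add p p' hp hp' => rw [mul_add, fis_add_left, fis_add_left, hp, hp']

theorem fis_one (q : MvPolynomial σ R) : fis 1 q = q.coeff 0 := by
  have h1 : (1 : MvPolynomial σ R) = monomial 0 1 := rfl
  rw [h1, FIS_mono]
  simp

private theorem FIS_C (c : R) (q : MvPolynomial σ R) : fis (C c) q = c * q.coeff 0 := by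
  have h1 : (C c : MvPolynomial σ R) = C c * 1 := (mul_one _).symm
  rw [h1, fis_C_mul_left, fis_one]

private theorem FIS_sum_left {ι : Type*} (s : Finset ι) (p : ι → MvPolynomial σ R)
    (q : MvPolynomial σ R) : fis (∑ i ∈ s, p i) q = ∑ i ∈ s, fis (p i) q := by
  classical
  induction s using Finset.induction_on with
  | empty =>
    rw [Finset.sum_empty, Finset.sum_empty]
    have h1 : (0 : MvPolynomial σ R) = C 0 * 1 := by simp
    rw [h1, fis_C_mul_left, zero_mul]
  | insert a s ha ih => rw [Finset.sum_insert ha, Finset.sum_insert ha, fis_add_left, ih]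

private theorem FIS_sum_right {ι : Type*} (s : Finset ι) (p : MvPolynomial σ R)
    (q : ι → MvPolynomial σ R) : fis p (∑ i ∈ s, q i) = ∑ i ∈ s, fis p (q i) := by
  classical
  induction s using Finset.induction_on with
  | empty =>
    rw [Finset.sum_empty, Finset.sum_empty]
    have h1 : (0 : MvPolynomial σ R) = C 0 * 1 := by simp
    rw [h1, fis_C_mul_right, zero_mul]
  | insert a s ha ih => rw [Finset.sum_insert ha, Finset.sum_insert ha, fis_add_right, ih]

private theorem FIS_linSub_X [Fintype σ] (L : Matrix σ σ R) (i : σ) :
    linSub L (X i) = ∑ j, C (L i j) * X j := by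
  unfold linSub
  rw [aeval_X]

private theorem FIS_linSub_C [Fintype σ] (L : Matrix σ σ R) (c : R) :
    linSub L (C c) = C c := by
  unfold linSub
  rw [aeval_C]
  rfl

private theorem FIS_coeff_zero [Fintype σ] (L : Matrix σ σ R) (q : MvPolynomial σ R) :
    (linSub L q).coeff 0 = q.coeff 0 := by
  induction q using MvPolynomial.induction_on with
  | C c => rw [FIS_linSub_C]
  | add p q hp hq => rw [map_add, coeff_add, coeff_add, hp, hq]
  | mul_X p i hp =>
    rw [map_mul, FIS_linSub_X, ← constantCoeff_eq]
    simp

private theorem FIS_chain [Fintype σ] [DecidableEq σ] (L : Matrix σ σ R) (i : σ)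
    (q : MvPolynomial σ R) :
    pderiv i (linSub L q) = ∑ l, C (L l i) * linSub L (pderiv l q) := by
  induction q using MvPolynomial.induction_on with
  | C c =>
    rw [FIS_linSub_C, pderiv_C]
    refine (Finset.sum_eq_zero fun l _ => ?_).symm
    rw [pderiv_C, map_zero, mul_zero]
  | add p q hp hq =>
    rw [map_add, map_add, hp, hq, ← Finset.sum_add_distrib]
    refine Finset.sum_congr rfl fun l _ => ?_
    rw [map_add, map_add, mul_add]
  | mul_X p j hp =>
    have h1 : pderiv i (linSub L (X j : MvPolynomial σ R)) = C (L j i) := by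
      rw [FIS_linSub_X, map_sum]
      rw [Finset.sum_eq_single i]
      · rw [pderiv_C_mul, pderiv_X_self, mul_one]
      · intro l _ hl
        rw [pderiv_C_mul, pderiv_X_of_ne hl, mul_zero]
      · intro h
        exact absurd (Finset.mem_univ i) h
    have h2 : ∀ l, C (L l i) * linSub L (pderiv l (p * X j))
        = C (L l i) * linSub L (pderiv l p) * linSub L (X j)
          + (if l = j then C (L l i) * linSub L p else 0) := by
      intro l
      rw [Derivation.leibniz, smul_eq_mul, smul_eq_mul, map_add, map_mul, map_mul]
      by_cases h : l = j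
      · rw [if_pos h, h, pderiv_X_self, map_one]
        ring
      · rw [if_neg h, pderiv_X_of_ne (fun h' => h h'.symm), map_zero]
        ring
    rw [map_mul, Derivation.leibniz, smul_eq_mul, smul_eq_mul, h1, hp,
      Finset.sum_congr rfl fun l _ => h2 l, Finset.sum_add_distrib, ← Finset.sum_mul,
      Finset.sum_ite_eq' Finset.univ j, if_pos (Finset.mem_univ j)]
    ring

/-- The transposed substitution is the adjoint. -/
theorem fis_linSub [Fintype σ] [DecidableEq σ] (L : Matrix σ σ R) (p q : MvPolynomial σ R) :
    fis p (linSub L q) = fis (linSub L.transpose p) q := by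
  induction p using MvPolynomial.induction_on generalizing q with
  | C c => rw [FIS_linSub_C, FIS_C, FIS_C, FIS_coeff_zero]
  | add p p' hp hp' => rw [map_add, fis_add_left, fis_add_left, hp, hp']
  | mul_X p i hp =>
    rw [mul_comm p (X i), fis_X_mul, FIS_chain, FIS_sum_right, map_mul, FIS_linSub_X,
      Finset.sum_mul, FIS_sum_left]
    refine Finset.sum_congr rfl fun l _ => ?_
    rw [fis_C_mul_right, hp, Matrix.transpose_apply, mul_assoc, fis_C_mul_left, fis_X_mul]

theorem fis_map (φ : R →+* S) (p q : MvPolynomial σ R) :
    fis (map φ p) (map φ q) = φ (fis p q) := by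
  classical
  rw [FIS_superset (map φ p) (map φ q) p.support (MvPolynomial.support_map_subset φ p)]
  unfold fis
  rw [map_sum]
  refine Finset.sum_congr rfl fun a _ => ?_
  rw [coeff_map, coeff_map, map_mul, map_mul]
  congr 2
  unfold Finsupp.prod
  rw [map_prod]
  refine Finset.prod_congr rfl fun j _ => ?_
  rw [map_natCast]

theorem fis_self_pos (p : MvPolynomial σ ℤ) (hp : p ≠ 0) : 0 < fis p p := by
  unfold fis
  refine Finset.sum_pos (fun a ha => ?_) ?_
  · have h1 : p.coeff a ≠ 0 := MvPolynomial.mem_support_iff.1 ha
    have h2 : 0 < (a.prod fun _ n => (Nat.factorial n : ℤ)) := by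
      unfold Finsupp.prod
      exact Finset.prod_pos fun j _ => Nat.cast_pos.2 (Nat.factorial_pos (a j))
    rw [mul_assoc]
    exact mul_pos h2 (mul_self_pos.2 h1)
  · rw [Finset.nonempty_iff_ne_empty]
    intro h
    exact hp (MvPolynomial.support_eq_empty.1 h)

/-- Homogeneous polynomials of different degrees are orthogonal. -/
theorem fis_eq_zero_of_homog {p q : MvPolynomial σ R} {m n : ℕ} (hp : p.IsHomogeneous m)
    (hq : q.IsHomogeneous n) (h : m ≠ n) : fis p q = 0 := by
  unfold fis
  refine Finset.sum_eq_zero fun a ha => ?_
  have h1 : p.coeff a ≠ 0 := MvPolynomial.mem_support_iff.1 ha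
  have h2 : q.coeff a = 0 := by
    by_contra h2
    exact h ((hp h1).symm.trans (hq h2))
  rw [h2, mul_zero]

end WPB
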