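import Pool.Agent.WPB.Defs

open MvPolynomial

namespace WPB

section

variable {k : ℕ} {R S S' : Type*} [CommRing R] [CommRing S] [CommRing S'] [Algebra R S]
  [Algebra R S'] [Algebra S S'] [IsScalarTower R S S']

/-- Composition of substitutions. -/
theorem sub_sub (f : MvPolynomial (Fin k) R) (A : Matrix (Fin k) (Fin k) S)
    (B : Matrix (Fin k) (Fin k) S') :
    sub (sub f A) B = sub f (A.map (algebraMap S S') * B) := by
  unfold sub
  induction f using MvPolynomial.induction_on with
  | C r =>
    rw [aeval_C, aeval_C, MvPolynomial.algebraMap_apply, MvPolynomial.algebraMap_apply,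
      aeval_C, MvPolynomial.algebraMap_apply, IsScalarTower.algebraMap_apply R S S']
  | add p q hp hq => simp only [map_add, hp, hq]
  | mul_X p i hp =>
    simp only [map_mul, hp, aeval_X, map_sum]
    congr 1
    have h : ∀ b : Fin k, (aeval (fun a => ∑ b, C (B a b) * X b)) (C (A i b) : MvPolynomial (Fin k) S)
        = (C (algebraMap S S' (A i b)) : MvPolynomial (Fin k) S') := by
      intro b
      rw [aeval_C, MvPolynomial.algebraMap_apply]
    simp only [h, Matrix.mul_apply, Matrix.map_apply, map_sum, map_mul, Finset.sum_mul,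
      Finset.mul_sum]
    rw [Finset.sum_comm]
    refine Finset.sum_congr rfl fun b _ => Finset.sum_congr rfl fun c _ => ?_
    ring

/-- Base change of the coefficients of `f`. -/
theorem sub_map (f : MvPolynomial (Fin k) R) (B : Matrix (Fin k) (Fin k) S') :
    sub (map (algebraMap R S) f) B = sub f B := by
  unfold sub
  exact aeval_map_algebraMap S _ f

/-- Base change of the result. -/
theorem map_sub (φ : S →ₐ[R] S') (f : MvPolynomial (Fin k) R) (A : Matrix (Fin k) (Fin k) S) :
    map (φ : S →+* S') (sub f A) = sub f (A.map φ) := by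
  unfold sub
  have h := comp_aeval_apply (fun a => ∑ b, (C (A a b) : MvPolynomial (Fin k) S) * X b)
    (mapAlgHom (σ := Fin k) φ) f
  rw [mapAlgHom_apply] at h
  have h2 : ∀ p : MvPolynomial (Fin k) S, map (φ : S →+* S') p = mapAlgHom (σ := Fin k) φ p := by
    intro p
    rfl
  rw [h2, comp_aeval_apply]
  congr 1
  congr 1
  funext a
  rw [← h2]
  simp

theorem sub_one (f : MvPolynomial (Fin k) R) :
    sub f (1 : Matrix (Fin k) (Fin k) R) = f := by
  unfold sub
  have h : (fun a : Fin k => ∑ b, (C ((1 : Matrix (Fin k) (Fin k) R) a b) :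
      MvPolynomial (Fin k) R) * X b) = X := by
    funext a
    rw [Finset.sum_eq_single a]
    · simp
    · intro b _ hb
      rw [Matrix.one_apply_ne (Ne.symm hb)]
      simp
    · intro h
      exact absurd (Finset.mem_univ a) h
  rw [h, aeval_X_left]
  rfl

theorem sub_homog {f : MvPolynomial (Fin k) R} {d : ℕ} (hf : f.IsHomogeneous d)
    (A : Matrix (Fin k) (Fin k) S) : (sub f A).IsHomogeneous d := by
  unfold sub
  have h := hf.aeval (fun a => ∑ b, (C (A a b) : MvPolynomial (Fin k) S) * X b) (n := 1) (by
    intro a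
    refine IsHomogeneous.sum _ _ _ fun b _ => ?_
    have := (isHomogeneous_C (Fin k) (A a b)).mul (isHomogeneous_X S b)
    simpa using this)
  simpa using h

/-- Diagonal substitutions. -/
theorem coeff_sub_diagonal (f : MvPolynomial (Fin k) S) (t : Fin k → S) (a : Fin k →₀ ℕ) :
    (sub f (Matrix.diagonal t)).coeff a = f.coeff a * ∏ i, t i ^ a i := by
  unfold sub
  have h : (fun i : Fin k => ∑ b, (C (Matrix.diagonal t i b) :
      MvPolynomial (Fin k) S) * X b) = fun i => C (t i) * X i := by
    funext i
    rw [Finset.sum_eq_single i]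
    · simp
    · intro b _ hb
      rw [Matrix.diagonal_apply_ne _ (Ne.symm hb)]
      simp
    · intro h
      exact absurd (Finset.mem_univ i) h
  rw [h]
  induction f using MvPolynomial.induction_on' with
  | monomial u c =>
    rw [aeval_monomial, Finsupp.prod_fintype _ _ (fun i => pow_zero _)]
    have h2 : (algebraMap S (MvPolynomial (Fin k) S)) c * ∏ i, (C (t i) * X i) ^ u i
        = monomial u (c * ∏ i, t i ^ u i) := by
      rw [MvPolynomial.algebraMap_eq]
      simp only [mul_pow, Finset.prod_mul_distrib]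
      rw [monomial_eq, Finsupp.prod_fintype _ _ (fun i => pow_zero _), map_mul, map_prod]
      simp only [map_pow]
      ring
    rw [h2, coeff_monomial, coeff_monomial]
    split_ifs with hu
    · rw [hu]
    · rw [zero_mul]
  | add p q hp hq =>
    rw [map_add, coeff_add, hp, hq, coeff_add, add_mul]

end

/-- An invertible substitution does not kill `f`. -/
theorem sub_ne_zero {k : ℕ} {K L : Type*} [Field K] [Field L] [Algebra K L]
    {f : MvPolynomial (Fin k) K} (hf : f ≠ 0) {A : Matrix (Fin k) (Fin k) L} (hA : A.det ≠ 0) :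
    sub f A ≠ 0 := by
  intro h0
  have h1 : sub (sub f A) A⁻¹ = sub f (1 : Matrix (Fin k) (Fin k) L) := by
    rw [sub_sub]
    congr 1
    have : A.map (algebraMap L L) = A := by
      ext i j
      simp
    rw [this, Matrix.mul_nonsing_inv A (isUnit_iff_ne_zero.2 hA)]
  have h2 : sub f (1 : Matrix (Fin k) (Fin k) L) = map (algebraMap K L) f := by
    rw [← sub_map (S := L) f (1 : Matrix (Fin k) (Fin k) L), sub_one]
  rw [h0, h2] at h1
  have h3 : sub (0 : MvPolynomial (Fin k) L) A⁻¹ = 0 := by
    unfold sub
    exact map_zero _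
  rw [h3] at h1
  apply hf
  apply map_injective (algebraMap K L) (algebraMap K L).injective
  rw [← h1, map_zero]

/-- An integral substitution does not enlarge the Gauss norm. -/
theorem valuation_sub_le {k : ℕ} {L Γ : Type*} [Field L] [LinearOrderedCommGroupWithZero Γ]
    (v : Valuation L Γ) (f : MvPolynomial (Fin k) L) (c : Γ) (hf : ∀ a, v (f.coeff a) ≤ c)
    (A : Matrix (Fin k) (Fin k) L) (hA : ∀ i j, v (A i j) ≤ 1) (a : Fin k →₀ ℕ) :
    v ((sub f A).coeff a) ≤ c := by
  classical
  -- products
  have hmul : ∀ p q : MvPolynomial (Fin k) L, (∀ a, v (p.coeff a) ≤ 1) →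
      (∀ a, v (q.coeff a) ≤ 1) → ∀ a, v ((p * q).coeff a) ≤ 1 := by
    intro p q hp hq a
    rw [coeff_mul]
    refine v.map_sum_le fun x _ => ?_
    rw [map_mul]
    exact mul_le_one' (hp _) (hq _)
  have hone : ∀ a, v ((1 : MvPolynomial (Fin k) L).coeff a) ≤ 1 := by
    intro a
    rw [coeff_one]
    split_ifs
    · rw [map_one]
    · rw [map_zero]
      exact zero_le_one
  have hpow : ∀ (p : MvPolynomial (Fin k) L) (n : ℕ), (∀ a, v (p.coeff a) ≤ 1) →
      ∀ a, v ((p ^ n).coeff a) ≤ 1 := by
    intro p n hp
    induction n with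
    | zero => rw [pow_zero]; exact hone
    | succ n ih => rw [pow_succ]; exact hmul _ _ ih hp
  have hprod : ∀ (s : Finset (Fin k)) (g : Fin k → MvPolynomial (Fin k) L),
      (∀ i a, v ((g i).coeff a) ≤ 1) → ∀ a, v ((∏ i ∈ s, g i).coeff a) ≤ 1 := by
    intro s g hg
    induction s using Finset.induction_on with
    | empty => rw [Finset.prod_empty]; exact hone
    | insert i s hi ih => rw [Finset.prod_insert hi]; exact hmul _ _ (hg i) ih
  have hlin : ∀ i a, v ((∑ b, (C (A i b) : MvPolynomial (Fin k) L) * X b).coeff a) ≤ 1 := by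
    intro i a
    rw [coeff_sum]
    refine v.map_sum_le fun b _ => ?_
    rw [coeff_C_mul, map_mul]
    refine mul_le_one' (hA i b) ?_
    rw [coeff_X]
    split_ifs
    · rw [map_one]
    · rw [map_zero]
      exact zero_le_one
  unfold sub
  rw [aeval_def, eval₂_eq', coeff_sum]
  refine v.map_sum_le fun s _ => ?_
  rw [MvPolynomial.algebraMap_eq, coeff_C_mul, map_mul]
  calc v (f.coeff s) * v ((∏ i, (∑ b, (C (A i b) : MvPolynomial (Fin k) L) * X b) ^ s i).coeff a)
      ≤ c * 1 := by
        refine mul_le_mul' (hf s) ?_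
        exact hprod _ _ (fun i => hpow _ _ (hlin i)) a
    _ = c := mul_one c

end WPB
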