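import Pool.Agent.WPB.EVA
import Pool.Agent.WPB.SUB
import Pool.Agent.WNV.UPB
import Pool.Agent.WNV.LOH
import Pool.Agent.WNV.BRG

open MvPolynomial WNV

set_option linter.unusedSectionVars false

namespace WPB

/-- `T` is a system of coordinates of `F` over `K`. -/
def IsCoord {r : ℕ} (K : Type) {F : Type} [Field K] [Field F] [Algebra K F] (T : Fin r → F) :
    Prop :=
  AlgebraicIndependent K T ∧ ∀ f : F, ∃ p q : MvPolynomial (Fin r) K,
    aeval T q ≠ 0 ∧ f = aeval T p / aeval T q

/-- alternating maps and matrices -/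
private theorem frm_alt {n : ℕ} {R M N : Type*} [CommRing R] [AddCommGroup M] [Module R M]
    [AddCommGroup N] [Module R N] (f : M [⋀^Fin n]→ₗ[R] N) (v : Fin n → M)
    (P : Matrix (Fin n) (Fin n) R) :
    f (fun i => ∑ j, P i j • v j) = P.det • f v := by
  classical
  have h : f.compLinearMap (Fintype.linearCombination R v) =
      (LinearMap.toSpanSingleton R N (f v)).compAlternatingMap
        (Matrix.detRowAlternating (R := R) (n := Fin n)) := by
    refine Module.Basis.ext_alternating (Pi.basisFun R (Fin n)) fun w hw => ?_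
    let σ : Equiv.Perm (Fin n) := Equiv.ofBijective w (Finite.injective_iff_bijective.1 hw)
    have h1 : (fun i => Fintype.linearCombination R v ((Pi.basisFun R (Fin n)) (w i))) =
        v ∘ σ := by
      funext i
      rw [Pi.basisFun_apply, Fintype.linearCombination_apply_single, one_smul]
      rfl
    have h2 : Matrix.detRowAlternating (fun i => (Pi.basisFun R (Fin n)) (w i)) =
        ((Equiv.Perm.sign σ : ℤ) : R) := by
      have h3 : (fun i => (Pi.basisFun R (Fin n)) (w i)) =
          (1 : Matrix (Fin n) (Fin n) R).submatrix σ id := by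
        funext i
        rw [Pi.basisFun_apply]
        funext j
        show _ = (1 : Matrix (Fin n) (Fin n) R) (w i) j
        rw [Matrix.one_apply, Pi.single_apply]
        simp only [eq_comm]
      rw [h3]
      have h4 := Matrix.det_permute σ (1 : Matrix (Fin n) (Fin n) R)
      rw [Matrix.det_one, mul_one] at h4
      exact h4
    show f (fun i => Fintype.linearCombination R v ((Pi.basisFun R (Fin n)) (w i))) =
      LinearMap.toSpanSingleton R N (f v)
        (Matrix.detRowAlternating (fun i => (Pi.basisFun R (Fin n)) (w i)))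
    rw [h1, AlternatingMap.map_perm, h2, LinearMap.toSpanSingleton_apply, Int.cast_smul_eq_zsmul,
      Units.smul_def]
  have h4 := congrArg (fun g => g (fun i => P i)) h
  exact h4

private theorem frm_det {r : ℕ} {F : Type*} [Field F] (Q : Matrix (Fin (r + 1)) (Fin (r + 1)) F)
    (h : ∀ i, ∑ j, Q i j = 1) :
    (Matrix.of fun i j : Fin r => Q i.succ j.succ - Q 0 j.succ).det = Q.det := by
  classical
  have h1 := Matrix.det_updateCol_sum Q 0 (fun _ => 1)
  have h2 := Matrix.det_eq_of_forall_row_eq_smul_add_const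
    (A := Q.updateCol 0 (fun i => ∑ k, (fun _ => (1 : F)) k • Q i k))
    (B := Matrix.of (Fin.cons (Q.updateCol 0 (fun _ => 1) 0)
      (fun i => Q.updateCol 0 (fun _ => 1) i.succ - Q.updateCol 0 (fun _ => 1) 0)))
    (Fin.cons 0 (fun _ => 1)) 0 rfl ?_
  · rw [one_smul] at h1
    have h3 : (Q.updateCol 0 (fun i => ∑ k, (fun _ => (1 : F)) k • Q i k)).det = Q.det := h1
    rw [← h3, h2, Matrix.det_succ_column_zero, Fin.sum_univ_succ, Finset.sum_eq_zero, add_zero]
    · simp only [Fin.val_zero, pow_zero, one_mul]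
      have h4 : (Matrix.of (Fin.cons (Q.updateCol 0 (fun _ => 1) 0)
        (fun i => Q.updateCol 0 (fun _ => 1) i.succ - Q.updateCol 0 (fun _ => 1) 0)) :
          Matrix (Fin (r + 1)) (Fin (r + 1)) F) 0 0 = 1 := by
        simp
      rw [h4, one_mul]
      congr 1
    · intro i _
      have h5 : (Matrix.of (Fin.cons (Q.updateCol 0 (fun _ => 1) 0)
        (fun i => Q.updateCol 0 (fun _ => 1) i.succ - Q.updateCol 0 (fun _ => 1) 0)) :
          Matrix (Fin (r + 1)) (Fin (r + 1)) F) i.succ 0 = 0 := by
        simp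
      rw [h5, mul_zero, zero_mul]
  · intro i j
    have h6 : (fun i => ∑ k, (fun _ => (1 : F)) k • Q i k) = fun _ => (1 : F) := by
      funext i
      simp only [one_smul]
      exact h i
    rw [h6]
    refine Fin.cases ?_ (fun i => ?_) i
    · simp
    · simp

section

variable {c r : ℕ} {K F : Type} [Field K] [Algebra ℂ K] [Field F] [Algebra ℂ F]
    [Algebra K F] [IsScalarTower ℂ K F]

/-- `WNV.form_gauss_sharp` for a system of coordinates `T`. -/
theorem formT_sharp (y : Fin c → K) (hy : IsTranscendenceBasis ℂ y) (T : Fin r → F)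
    (hT : IsCoord K T) (E : DVal F) (w₀ : DVal K) (e : ℤ) (he : 0 < e)
    (hE : ∀ a : K, E (algebraMap K F a) = e * w₀ a) (b : ℤ) (hb : OrdGE w₀ (formY y) b) :
    OrdGE E (formT y T) (e * b + (e - 1)) := by
  let _ : Algebra (MvPolynomial (Fin r) K) F := (aeval T).toRingHom.toAlgebra
  have hal : ∀ p : MvPolynomial (Fin r) K, algebraMap (MvPolynomial (Fin r) K) F p = aeval T p :=
    fun p => rfl
  have _ : IsScalarTower K (MvPolynomial (Fin r) K) F := IsScalarTower.of_algebraMap_eq fun a => by
    rw [hal, algebraMap_eq, aeval_C]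
  have _ : FaithfulSMul (MvPolynomial (Fin r) K) F :=
    (faithfulSMul_iff_algebraMap_injective _ _).2 hT.1
  have _ : IsFractionRing (MvPolynomial (Fin r) K) F := IsFractionRing.of_field _ _ fun f => by
    obtain ⟨p, q, _, h⟩ := hT.2 f
    exact ⟨p, q, h⟩
  have htt : tt r K F = T := by
    funext j
    unfold tt
    rw [hal, aeval_X]
  have h := form_gauss_sharp (r := r) (F := F) y hy E w₀ e he hE b hb
  unfold form at h
  rw [htt] at h
  exact h

/-- `WNV.form_toric` for a system of coordinates `T`. -/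
theorem formT_toric (y : Fin c → K) (hy : IsTranscendenceBasis ℂ y) (T : Fin r → F)
    (hT : IsCoord K T) (E : DVal F) (v : Fin r → ℤ)
    (hE : ∀ p : MvPolynomial (Fin r) K, p ≠ 0 →
      (∀ s ∈ p.support, E (aeval T p) ≤ ∑ i, (s i : ℤ) * v i) ∧
      ∃ s ∈ p.support, E (aeval T p) = ∑ i, (s i : ℤ) * v i) :
    IsOrd E (formT y T) (-1) := by
  let _ : Algebra (MvPolynomial (Fin r) K) F := (aeval T).toRingHom.toAlgebra
  have hal : ∀ p : MvPolynomial (Fin r) K, algebraMap (MvPolynomial (Fin r) K) F p = aeval T p :=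
    fun p => rfl
  have _ : IsScalarTower K (MvPolynomial (Fin r) K) F := IsScalarTower.of_algebraMap_eq fun a => by
    rw [hal, algebraMap_eq, aeval_C]
  have _ : FaithfulSMul (MvPolynomial (Fin r) K) F :=
    (faithfulSMul_iff_algebraMap_injective _ _).2 hT.1
  have _ : IsFractionRing (MvPolynomial (Fin r) K) F := IsFractionRing.of_field _ _ fun f => by
    obtain ⟨p, q, _, h⟩ := hT.2 f
    exact ⟨p, q, h⟩
  have htt : tt r K F = T := by
    funext j
    unfold tt
    rw [hal, aeval_X]
  have hG : IsGauss (F := F) E (QVal.triv K) v := by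
    intro p hp
    obtain ⟨h1, s, hs, h2⟩ := hE p hp
    refine ⟨fun s hs => ?_, s, hs, ?_⟩
    · rw [QVal.triv_apply, zero_add, hal]
      exact h1 s hs
    · rw [QVal.triv_apply, zero_add, hal]
      exact h2
  have h := form_toric (r := r) (F := F) y hy E v hG
  unfold form at h
  rw [htt] at h
  exact h

end

section

variable {c r : ℕ} {K F : Type} [Field K] [Algebra ℂ K] [Field F] [Algebra ℂ F]
    [Algebra K F] [IsScalarTower ℂ K F]
    [Algebra (MvPolynomial (Fin r) K) F] [IsScalarTower K (MvPolynomial (Fin r) K) F]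
    [IsFractionRing (MvPolynomial (Fin r) K) F]

theorem form_eq_formT (y : Fin c → K) : form r F y = formT y (tt r K F) := rfl

private theorem frm_aeval_tt (p : MvPolynomial (Fin r) K) :
    aeval (tt r K F) p = algebraMap (MvPolynomial (Fin r) K) F p := by
  have h : (aeval (tt r K F) : MvPolynomial (Fin r) K →ₐ[K] F) =
      IsScalarTower.toAlgHom K (MvPolynomial (Fin r) K) F := by
    apply MvPolynomial.algHom_ext
    intro i
    rw [aeval_X]
    rfl
  rw [h]
  rfl

theorem isCoord_tt : IsCoord K (tt r K F) := by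
  refine ⟨?_, fun f => ?_⟩
  · intro p q h
    have h1 : aeval (tt r K F) p = aeval (tt r K F) q := h
    rw [frm_aeval_tt, frm_aeval_tt] at h1
    exact IsFractionRing.injective _ _ h1
  · obtain ⟨p, q, hq, rfl⟩ := IsFractionRing.div_surjective (A := MvPolynomial (Fin r) K) f
    refine ⟨p, q, ?_, ?_⟩
    · rw [frm_aeval_tt, Ne, map_eq_zero_iff _ (IsFractionRing.injective _ _)]
      exact nonZeroDivisors.ne_zero hq
    · rw [frm_aeval_tt, frm_aeval_tt]

private theorem frm_aeval_smul {k d : ℕ} {G : MvPolynomial (Fin k) K} (hG : G.IsHomogeneous d)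
    (c : F) (x : Fin k → F) : aeval (fun i => c * x i) G = c ^ d * aeval x G := by
  rw [aeval_def, aeval_def, eval₂_eq', eval₂_eq', Finset.mul_sum]
  refine Finset.sum_congr rfl fun s hs => ?_
  have h1 : ∑ i, s i = d := by
    have := hG (mem_support_iff.1 hs)
    rw [← this, Finsupp.weight_apply, Finsupp.sum_fintype _ _ (fun i => by simp)]
    simp
  simp only [mul_pow]
  rw [Finset.prod_mul_distrib, Finset.prod_pow_eq_pow_sum, h1]
  ring

private theorem frm_ev_sub (A : Matrix (Fin (r + 1)) (Fin (r + 1)) K)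
    (G : MvPolynomial (Fin (r + 1)) K) : ev F (sub G A) = aeval (lin F A) G := by
  have h : ((aeval (zz r K F) : MvPolynomial (Fin (r + 1)) K →ₐ[K] F).comp
      (aeval (fun a => ∑ b, C (A a b) * X b) :
        MvPolynomial (Fin (r + 1)) K →ₐ[K] MvPolynomial (Fin (r + 1)) K)) =
      aeval (lin F A) := by
    apply MvPolynomial.algHom_ext
    intro i
    rw [AlgHom.comp_apply, aeval_X, aeval_X, map_sum]
    unfold lin
    refine Finset.sum_congr rfl fun j _ => ?_
    rw [map_mul, aeval_C, aeval_X]
  rw [← h]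
  rfl

theorem lin_ne_zero (A : Matrix (Fin (r + 1)) (Fin (r + 1)) K) (hA : A.det ≠ 0)
    (i : Fin (r + 1)) : lin F A i ≠ 0 := by
  have h := frm_ev_sub (F := F) A (X i)
  rw [aeval_X] at h
  rw [← h]
  exact ev_ne_zero (sub_homog (isHomogeneous_X K i) A) (sub_ne_zero (X_ne_zero i) hA)

private theorem frm_lin_cons (A : Matrix (Fin (r + 1)) (Fin (r + 1)) K) (hA : A.det ≠ 0)
    {d : ℕ} {G : MvPolynomial (Fin (r + 1)) K} (hG : G.IsHomogeneous d) :
    aeval (lin F A) G = lin F A 0 ^ d *
      aeval (aff F A) (aeval (Fin.cons 1 X : Fin (r + 1) → MvPolynomial (Fin r) K) G) := by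
  have h0 := lin_ne_zero (F := F) A hA 0
  have h1 : (fun i => lin F A 0 * (Fin.cons 1 (aff F A) : Fin (r + 1) → F) i) = lin F A := by
    funext i
    refine Fin.cases ?_ (fun j => ?_) i
    · rw [Fin.cons_zero, mul_one]
    · rw [Fin.cons_succ]
      unfold aff
      rw [mul_div_cancel₀ _ h0]
  rw [← h1, frm_aeval_smul hG, h1]
  congr 1
  have h2 : ((aeval (aff F A) : MvPolynomial (Fin r) K →ₐ[K] F).comp
      (aeval (Fin.cons 1 X) : MvPolynomial (Fin (r + 1)) K →ₐ[K] MvPolynomial (Fin r) K)) =
      aeval (Fin.cons 1 (aff F A)) := by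
    apply MvPolynomial.algHom_ext
    intro i
    rw [AlgHom.comp_apply, aeval_X, aeval_X]
    refine Fin.cases ?_ (fun j => ?_) i
    · rw [Fin.cons_zero, Fin.cons_zero, map_one]
    · rw [Fin.cons_succ, Fin.cons_succ, aeval_X]
  rw [← h2]
  rfl

private theorem frm_ev_deh (G : MvPolynomial (Fin (r + 1)) K) :
    ev F G = algebraMap (MvPolynomial (Fin r) K) F (aeval (Fin.cons 1 X) G) := by
  rw [← frm_aeval_tt]
  have h2 : ((aeval (tt r K F) : MvPolynomial (Fin r) K →ₐ[K] F).comp
      (aeval (Fin.cons 1 X) : MvPolynomial (Fin (r + 1)) K →ₐ[K] MvPolynomial (Fin r) K)) =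
      aeval (zz r K F) := by
    apply MvPolynomial.algHom_ext
    intro i
    rw [AlgHom.comp_apply, aeval_X, aeval_X]
    refine Fin.cases ?_ (fun j => ?_) i
    · rw [Fin.cons_zero, map_one]
      rfl
    · rw [Fin.cons_succ, aeval_X]
      rfl
  unfold ev
  rw [← h2]
  rfl

/-- A projective change of coordinates. -/
theorem isCoord_aff (A : Matrix (Fin (r + 1)) (Fin (r + 1)) K) (hA : A.det ≠ 0) :
    IsCoord K (aff F A) := by
  have h0 := lin_ne_zero (F := F) A hA 0
  have hinj : ∀ p : MvPolynomial (Fin r) K, aeval (aff F A) p = 0 → p = 0 := by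
    intro p hp
    by_contra hne
    obtain ⟨G, hG0, hG, -, hG2⟩ := exists_homogenize (F := F) p hne
    have h1 : aeval (Fin.cons 1 X : Fin (r + 1) → MvPolynomial (Fin r) K) G = p := by
      rw [frm_ev_deh] at hG2
      exact IsFractionRing.injective _ F hG2
    have h2 := frm_lin_cons (F := F) A hA hG
    rw [h1, hp, mul_zero, ← frm_ev_sub] at h2
    exact ev_ne_zero (sub_homog hG A) (sub_ne_zero hG0 hA) h2
  refine ⟨(injective_iff_map_eq_zero _).2 hinj, fun f => ?_⟩
  obtain ⟨d, G, H, hG, hH, hH0, rfl⟩ := exists_forms (r := r) (K := K) f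
  have hB : A⁻¹.det ≠ 0 := by
    rw [Matrix.det_nonsing_inv, Ring.inverse_eq_inv']
    exact inv_ne_zero hA
  have key : ∀ P : MvPolynomial (Fin (r + 1)) K, aeval (lin F A) (sub P A⁻¹) = ev F P := by
    intro P
    rw [← frm_ev_sub, sub_sub]
    have h1 : (A⁻¹.map (algebraMap K K)) = A⁻¹ := by
      ext i j
      simp
    rw [h1, Matrix.nonsing_inv_mul A (isUnit_iff_ne_zero.2 hA), sub_one]
  have hH1 := frm_lin_cons (F := F) A hA (sub_homog hH A⁻¹)
  have hG1 := frm_lin_cons (F := F) A hA (sub_homog hG A⁻¹)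
  rw [key] at hH1 hG1
  have hHne := ev_ne_zero (F := F) hH hH0
  refine ⟨aeval (Fin.cons 1 X) (sub G A⁻¹), aeval (Fin.cons 1 X) (sub H A⁻¹), ?_, ?_⟩
  · intro h
    rw [h, mul_zero] at hH1
    exact hHne hH1
  · rw [hH1, hG1, mul_div_mul_left _ _ (pow_ne_zero _ h0)]

private theorem frm_dlog {a b : F} (ha : a ≠ 0) (hb : b ≠ 0) :
    (a / b)⁻¹ • KaehlerDifferential.D ℂ F (a / b) =
      a⁻¹ • KaehlerDifferential.D ℂ F a - b⁻¹ • KaehlerDifferential.D ℂ F b := by
  have h1 : KaehlerDifferential.D ℂ F a = KaehlerDifferential.D ℂ F (a / b * b) := by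
    rw [div_mul_cancel₀ _ hb]
  rw [h1, Derivation.leibniz, smul_add, smul_smul, smul_smul, add_sub_assoc]
  have h2 : a⁻¹ * (a / b) = b⁻¹ := by
    field_simp
  have h3 : a⁻¹ * b = (a / b)⁻¹ := by
    field_simp
  rw [h2, h3]
  abel

/-- The Jacobian of a projective change of coordinates. -/
theorem formT_aff (y : Fin c → K) (hy : IsTranscendenceBasis ℂ y)
    (A : Matrix (Fin (r + 1)) (Fin (r + 1)) K) (hA : A.det ≠ 0) :
    formT y (aff F A) =
      (algebraMap K F A.det * (∏ i, zz r K F i) / ∏ i, lin F A i) • form r F y := by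
  classical
  have hl : ∀ i, lin F A i ≠ 0 := lin_ne_zero A hA
  set θ : Fin c → KaehlerDifferential ℂ F :=
    fun j => KaehlerDifferential.D ℂ F (algebraMap K F (y j)) with hθ
  set η : Fin r → KaehlerDifferential ℂ F :=
    fun j => (tt r K F j)⁻¹ • KaehlerDifferential.D ℂ F (tt r K F j) with hη
  set Q : Matrix (Fin (r + 1)) (Fin (r + 1)) F :=
    Matrix.of fun i j => (lin F A i)⁻¹ * (algebraMap K F (A i j) * zz r K F j) with hQ
  have hQ1 : ∀ i, ∑ j, Q i j = 1 := by
    intro i
    simp only [hQ, Matrix.of_apply]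
    rw [← Finset.mul_sum]
    exact inv_mul_cancel₀ (hl i)
  have hQdet : Q.det = algebraMap K F A.det * (∏ i, zz r K F i) / ∏ i, lin F A i := by
    have h1 : Q = Matrix.of fun i j => (lin F A i)⁻¹ *
        (Matrix.of fun i j => zz r K F j * (A.map (algebraMap K F)) i j) i j := by
      ext i j
      simp only [hQ, Matrix.of_apply, Matrix.map_apply]
      ring
    rw [h1, Matrix.det_mul_column, Matrix.det_mul_row]
    have h2 : (A.map (algebraMap K F)).det = algebraMap K F A.det :=
      ((algebraMap K F).map_det A).symm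
    rw [h2, Finset.prod_inv_distrib]
    field_simp
  -- the differentials of the constants
  have hconst : ∀ a : K, ∃ u : Fin c → F,
      KaehlerDifferential.D ℂ F (algebraMap K F a) = ∑ j, u j • θ j := by
    intro a
    have h1 : KaehlerDifferential.D ℂ K a ∈
        Submodule.span K (Set.range fun j => KaehlerDifferential.D ℂ K (y j)) := by
      rw [span_D y hy]
      trivial
    obtain ⟨u, hu⟩ := (Submodule.mem_span_range_iff_exists_fun K).1 h1
    refine ⟨fun j => algebraMap K F (u j), ?_⟩
    have h2 := congrArg (KaehlerDifferential.map ℂ ℂ K F) hu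
    rw [KaehlerDifferential.map_D] at h2
    rw [← h2, map_sum]
    refine Finset.sum_congr rfl fun j _ => ?_
    rw [map_smul, KaehlerDifferential.map_D, algebraMap_smul]
  have hlin : ∀ i, ∃ u : Fin c → F, (lin F A i)⁻¹ • KaehlerDifferential.D ℂ F (lin F A i) =
      ∑ j, u j • θ j + ∑ j, Q i j.succ • η j := by
    intro i
    choose u hu using fun j => hconst (A i j)
    refine ⟨fun k => ∑ j, (lin F A i)⁻¹ * zz r K F j * u j k, ?_⟩
    have h1 : KaehlerDifferential.D ℂ F (lin F A i) =
        ∑ j, (algebraMap K F (A i j) • KaehlerDifferential.D ℂ F (zz r K F j) +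
          zz r K F j • ∑ k, u j k • θ k) := by
      unfold lin
      rw [map_sum]
      refine Finset.sum_congr rfl fun j _ => ?_
      rw [Derivation.leibniz, hu]
    rw [h1, Finset.sum_add_distrib, smul_add, add_comm]
    congr 1
    · rw [Finset.smul_sum]
      simp only [Finset.sum_smul, Finset.smul_sum, smul_smul]
      rw [Finset.sum_comm]
      refine Finset.sum_congr rfl fun k _ => Finset.sum_congr rfl fun j _ => ?_
      congr 1
      ring
    · rw [Fin.sum_univ_succ]
      have h2 : KaehlerDifferential.D ℂ F (zz r K F 0) = 0 := by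
        show KaehlerDifferential.D ℂ F (1 : F) = 0
        exact Derivation.map_one_eq_zero _
      rw [h2, smul_zero, zero_add, Finset.smul_sum]
      refine Finset.sum_congr rfl fun j _ => ?_
      simp only [hη, hQ, Matrix.of_apply]
      have h3 : zz r K F j.succ = tt r K F j := rfl
      have h4 : tt r K F j ≠ 0 := tt_ne_zero j
      rw [h3, smul_smul, smul_smul]
      congr 1
      field_simp
  choose u hu using hlin
  set M : Matrix (Fin r) (Fin r) F :=
    Matrix.of fun i j : Fin r => Q i.succ j.succ - Q 0 j.succ with hM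
  set B : Matrix (Fin r) (Fin c) F := Matrix.of fun i j => u i.succ j - u 0 j with hB
  set P : Matrix (Fin c ⊕ Fin r) (Fin c ⊕ Fin r) F := Matrix.fromBlocks 1 0 B M with hP
  set P' : Matrix (Fin (c + r)) (Fin (c + r)) F :=
    Matrix.reindex finSumFinEquiv finSumFinEquiv P with hP'
  have hdet : P'.det = Q.det := by
    rw [hP', Matrix.det_reindex_self, hP, Matrix.det_fromBlocks_zero₁₂, Matrix.det_one, one_mul,
      hM, frm_det Q hQ1]
  have hv : (Fin.append θ (fun j => (aff F A j)⁻¹ • KaehlerDifferential.D ℂ F (aff F A j))) =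
      fun i => ∑ j, P' i j • (Fin.append θ η) j := by
    funext i
    rw [← finSumFinEquiv.sum_comp, Fintype.sum_sum_type]
    refine Fin.addCases (fun i => ?_) (fun i => ?_) i
    · rw [Fin.append_left]
      have h1 : ∀ k : Fin c ⊕ Fin r, P' (Fin.castAdd r i) (finSumFinEquiv k) = P (Sum.inl i) k := by
        intro k
        rw [hP', Matrix.reindex_apply, Matrix.submatrix_apply, Equiv.symm_apply_apply,
          finSumFinEquiv_symm_apply_castAdd]
      have h2 : ∀ k : Fin c, P' (Fin.castAdd r i) (finSumFinEquiv (Sum.inl k)) •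
          Fin.append θ η (finSumFinEquiv (Sum.inl k)) = if i = k then θ k else 0 := by
        intro k
        rw [h1, hP, Matrix.fromBlocks_apply₁₁, finSumFinEquiv_apply_left, Fin.append_left,
          Matrix.one_apply]
        split_ifs
        · rw [one_smul]
        · rw [zero_smul]
      have h3 : ∀ k : Fin r, P' (Fin.castAdd r i) (finSumFinEquiv (Sum.inr k)) •
          Fin.append θ η (finSumFinEquiv (Sum.inr k)) = 0 := by
        intro k
        rw [h1, hP, Matrix.fromBlocks_apply₁₂, Matrix.zero_apply, zero_smul]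
      rw [Finset.sum_congr rfl fun k _ => h2 k, Finset.sum_congr rfl fun k _ => h3 k,
        Finset.sum_const_zero, add_zero, Finset.sum_ite_eq, if_pos (Finset.mem_univ _)]
    · rw [Fin.append_right]
      have h1 : ∀ k : Fin c ⊕ Fin r, P' (Fin.natAdd c i) (finSumFinEquiv k) = P (Sum.inr i) k := by
        intro k
        rw [hP', Matrix.reindex_apply, Matrix.submatrix_apply, Equiv.symm_apply_apply,
          finSumFinEquiv_symm_apply_natAdd]
      have h2 : ∀ k : Fin c, P' (Fin.natAdd c i) (finSumFinEquiv (Sum.inl k)) •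
          Fin.append θ η (finSumFinEquiv (Sum.inl k)) = u i.succ k • θ k - u 0 k • θ k := by
        intro k
        rw [h1, hP, Matrix.fromBlocks_apply₂₁, finSumFinEquiv_apply_left, Fin.append_left, hB,
          Matrix.of_apply, sub_smul]
      have h3 : ∀ k : Fin r, P' (Fin.natAdd c i) (finSumFinEquiv (Sum.inr k)) •
          Fin.append θ η (finSumFinEquiv (Sum.inr k)) =
          Q i.succ k.succ • η k - Q 0 k.succ • η k := by
        intro k
        rw [h1, hP, Matrix.fromBlocks_apply₂₂, finSumFinEquiv_apply_right, Fin.append_right, hM,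
          Matrix.of_apply, sub_smul]
      rw [Finset.sum_congr rfl fun k _ => h2 k, Finset.sum_congr rfl fun k _ => h3 k,
        Finset.sum_sub_distrib, Finset.sum_sub_distrib]
      have h4 : (aff F A i)⁻¹ • KaehlerDifferential.D ℂ F (aff F A i) =
          (lin F A i.succ)⁻¹ • KaehlerDifferential.D ℂ F (lin F A i.succ) -
          (lin F A 0)⁻¹ • KaehlerDifferential.D ℂ F (lin F A 0) := frm_dlog (hl _) (hl _)
      rw [h4, hu, hu]
      abel
  unfold formT form
  rw [hv, frm_alt, hdet, hQdet]

/-- The order of the canonical form at a vertical prime divisor. -/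
theorem vertical_order (y : Fin c → K) (hy : IsTranscendenceBasis ℂ y) (E : DVal F)
    (w₀ : DVal K) (e : ℤ) (he : 0 < e) (hE : ∀ a : K, E (algebraMap K F a) = e * w₀ a) (b : ℤ)
    (hb : OrdGE w₀ (formY y) b) (A : Matrix (Fin (r + 1)) (Fin (r + 1)) K) (hA : A.det ≠ 0) :
    OrdGE E (form r F y) (e * b + (e - 1) + ∑ i, E (lin F A i) - E (algebraMap K F A.det) -
      ∑ i, E (zz r K F i)) := by
  have h1 := formT_sharp (r := r) y hy (aff F A) (isCoord_aff A hA) E w₀ e he hE b hb
  rw [formT_aff y hy A hA] at h1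
  have hl : ∀ i, lin F A i ≠ 0 := lin_ne_zero A hA
  have hz : ∀ i, zz r K F i ≠ 0 := zz_ne_zero
  have hd : algebraMap K F A.det ≠ 0 := (map_ne_zero_iff _ (algebraMap K F).injective).2 hA
  have hpl : ∏ i, lin F A i ≠ 0 := Finset.prod_ne_zero_iff.2 fun i _ => hl i
  have hpz : ∏ i, zz r K F i ≠ 0 := Finset.prod_ne_zero_iff.2 fun i _ => hz i
  set u := algebraMap K F A.det * (∏ i, zz r K F i) / ∏ i, lin F A i with hu
  have hu0 : u ≠ 0 := div_ne_zero (mul_ne_zero hd hpz) hpl
  have hEu : E.toQVal u = E (algebraMap K F A.det) + ∑ i, E (zz r K F i) - ∑ i, E (lin F A i) := by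
    rw [hu, E.toQVal.div (mul_ne_zero hd hpz) hpl, E.toQVal.mul hd hpz,
      E.toQVal.prod _ _ (fun i _ => hz i), E.toQVal.prod _ _ (fun i _ => hl i)]
  have h2 : Ge E.toQVal (∑ i, E (lin F A i) - E (algebraMap K F A.det) - ∑ i, E (zz r K F i))
      u⁻¹ := by
    right
    rw [E.toQVal.inv, hEu]
    omega
  have h3 := ordGE_smul E.toQVal h2 h1
  rw [inv_smul_smul₀ hu0] at h3
  refine ordGE_mono ?_ h3
  omega

end

end WPB
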