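import Pool.Agent.WPB.EVA

open MvPolynomial WNV

set_option linter.unusedSectionVars false

namespace WPB

variable {r : ℕ} {K F : Type} [Field K] [Algebra ℂ K] [Field F] [Algebra ℂ F]
    [Algebra K F] [IsScalarTower ℂ K F]
    [Algebra (MvPolynomial (Fin r) K) F] [IsScalarTower K (MvPolynomial (Fin r) K) F]
    [IsFractionRing (MvPolynomial (Fin r) K) F]

/-- The least value is attained. -/
theorem exists_mu (E : F → ℤ) : ∃ a, E (zz r K F a) = mu r K E ∧ ∀ i, mu r K E ≤ E (zz r K F i) := by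
  obtain ⟨a, -, ha⟩ := Finset.exists_mem_eq_inf' (s := (Finset.univ : Finset (Fin (r + 1))))
    ⟨(0 : Fin (r + 1)), Finset.mem_univ _⟩ (fun i => E (zz r K F i))
  exact ⟨a, ha.symm, fun i => Finset.inf'_le _ (Finset.mem_univ i)⟩

theorem hv_nonneg {E : QVal F} (hE : ∀ a : K, E (algebraMap K F a) = 0) {d : ℕ}
    {G : MvPolynomial (Fin (r + 1)) K} (hG : G.IsHomogeneous d) : G ≠ 0 → 0 ≤ hv E d G := by
  intro h0
  have hne := ev_ne_zero (F := F) hG h0
  have h1 : ev F G = ∑ s ∈ G.support, algebraMap K F (G.coeff s) * ∏ i, zz r K F i ^ s i := by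
    unfold ev
    rw [aeval_def, eval₂_eq']
  have h2 : Ge E (d * mu r K E) (ev F G) := by
    rw [h1]
    refine E.ge_sum _ _ fun s hs => ?_
    refine Or.inr ?_
    have hc : algebraMap K F (G.coeff s) ≠ 0 := by
      rw [Ne, map_eq_zero]
      exact mem_support_iff.1 hs
    rw [E.mul hc (Finset.prod_ne_zero_iff.2 fun i _ => pow_ne_zero _ (zz_ne_zero i)), hE,
      zero_add, E.prod _ _ fun i _ => pow_ne_zero _ (zz_ne_zero i)]
    have hd : s.degree = d := by
      by_contra h3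
      exact (mem_support_iff.1 hs) (hG.coeff_eq_zero h3)
    rw [Finsupp.degree_eq_sum] at hd
    rw [← hd, Nat.cast_sum, Finset.sum_mul]
    refine Finset.sum_le_sum fun i _ => ?_
    rw [E.pow (zz_ne_zero i)]
    exact mul_le_mul_of_nonneg_left ((exists_mu (r := r) (K := K) (E : F → ℤ)).choose_spec.2 i)
      (Nat.cast_nonneg _)
  unfold hv
  rcases h2 with h2 | h2
  · exact absurd h2 hne
  · omega

theorem hv_mul {E : QVal F} {d e : ℕ} {G H : MvPolynomial (Fin (r + 1)) K}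
    (hG : G.IsHomogeneous d) (hH : H.IsHomogeneous e) (hG0 : G ≠ 0) (hH0 : H ≠ 0) :
    hv E (d + e) (G * H) = hv E d G + hv E e H := by
  unfold hv
  rw [ev_mul, E.mul (ev_ne_zero hG hG0) (ev_ne_zero hH hH0)]
  push_cast
  ring

theorem hv_pow {E : QVal F} {d : ℕ} {G : MvPolynomial (Fin (r + 1)) K}
    (hG : G.IsHomogeneous d) (hG0 : G ≠ 0) (n : ℕ) :
    hv E (d * n) (G ^ n) = n * hv E d G := by
  unfold hv
  rw [ev_pow, E.pow (ev_ne_zero hG hG0)]
  push_cast
  ring

theorem hv_add {E : QVal F} {d : ℕ} {G H : MvPolynomial (Fin (r + 1)) K}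
    (hG : G.IsHomogeneous d) (hH : H.IsHomogeneous d) (hG0 : G ≠ 0) (hH0 : H ≠ 0)
    (h : G + H ≠ 0) : min (hv E d G) (hv E d H) ≤ hv E d (G + H) := by
  have hadd : ev F (G + H) = ev F G + ev F H := by simp [ev]
  have h1 := E.add' (ev F G) (ev F H) (ev_ne_zero hG hG0) (ev_ne_zero hH hH0)
    (by rw [← hadd]; exact ev_ne_zero (hG.add hH) h)
  unfold hv
  rw [hadd]
  omega

theorem hv_assoc {E : QVal F} (hE : ∀ a : K, E (algebraMap K F a) = 0) {d e : ℕ}
    {G H : MvPolynomial (Fin (r + 1)) K} (hG : G.IsHomogeneous d) (hH : H.IsHomogeneous e)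
    (hG0 : G ≠ 0) (h : Associated G H) : d = e ∧ hv E d G = hv E e H := by
  obtain ⟨w, hw⟩ := h
  have hu : IsUnit (w : MvPolynomial (Fin (r + 1)) K) := w.isUnit
  rw [MvPolynomial.isUnit_iff_eq_C_of_isReduced] at hu
  obtain ⟨u, hu, hu'⟩ := hu
  rw [hu'] at hw
  have hH1 : H.IsHomogeneous (d + 0) := by
    rw [← hw]
    exact hG.mul (isHomogeneous_C _ _)
  have hH0 : H ≠ 0 := by
    rw [← hw]
    exact mul_ne_zero hG0 (by rw [Ne, C_eq_zero]; exact hu.ne_zero)
  have hde : d = e := by simpa using hH1.inj_right hH hH0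
  refine ⟨hde, ?_⟩
  subst hde
  unfold hv
  rw [← hw, ev_mul, ev_C, E.mul (ev_ne_zero hG hG0) (by rw [Ne, map_eq_zero]; exact hu.ne_zero), hE]
  ring

end WPB
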