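import Pool.Agent.WPB.PRM
import Pool.Agent.WPB.HVF
import Pool.Agent.WNV.UPB

open MvPolynomial WNV

set_option linter.unusedSectionVars false

namespace WPB

variable {c r : ℕ} {K F : Type} [Field K] [Algebra ℂ K] [Field F] [Algebra ℂ F]
    [Algebra K F] [IsScalarTower ℂ K F]
    [Algebra (MvPolynomial (Fin r) K) F] [IsScalarTower K (MvPolynomial (Fin r) K) F]
    [IsFractionRing (MvPolynomial (Fin r) K) F]

private theorem fro_X_dvd {i : Fin r} {q : MvPolynomial (Fin r) K} :
    X i ∣ q ↔ ∀ s ∈ q.support, s i ≠ 0 := by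
  rw [← Ideal.mem_span_singleton, ← Set.image_singleton (f := X), mem_ideal_span_X_image]
  simp

private theorem fro_sum_single (s : Fin r →₀ ℕ) (i : Fin r) :
    ∑ j, (s j : ℤ) * (Pi.single i 1 : Fin r → ℤ) j = s i := by
  rw [Finset.sum_eq_single i]
  · simp
  · intro b _ hb
    rw [Pi.single_eq_of_ne hb, mul_zero]
  · intro h
    exact absurd (Finset.mem_univ i) h

/-- The order along a variable is the toric valuation with the unit vector. -/
private theorem fro_toric {E : DVal F} {i : Fin r} (h : IsOrdP (F := F) E (X i : MvPolynomial (Fin r) K)) :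
    IsGauss (F := F) E (QVal.triv K) (Pi.single i 1) := by
  obtain ⟨E', hE'⟩ := exists_toric (r := r) K F (Pi.single i 1) (Pi.single i 1) (by
    rw [Finset.sum_eq_single i]
    · simp
    · intro b _ hb
      rw [Pi.single_eq_of_ne hb, mul_zero]
    · intro h
      exact absurd (Finset.mem_univ i) h)
  have hinj := IsFractionRing.injective (MvPolynomial (Fin r) K) F
  have hX : E' (algebraMap _ F (X i : MvPolynomial (Fin r) K)) = 1 := by
    obtain ⟨_, s, hs, h2⟩ := hE' (X i) (X_ne_zero i)
    rw [h2, QVal.triv_apply, zero_add, fro_sum_single]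
    rw [support_X, Finset.mem_singleton] at hs
    rw [hs]
    simp
  have hq0 : ∀ q : MvPolynomial (Fin r) K, q ≠ 0 → ¬ X i ∣ q → E' (algebraMap _ F q) = 0 := by
    intro q hq hd
    obtain ⟨h1, s, hs, h2⟩ := hE' q hq
    rw [fro_X_dvd] at hd
    push Not at hd
    obtain ⟨t, ht, ht0⟩ := hd
    have h3 := h1 t ht
    rw [QVal.triv_apply, zero_add, fro_sum_single, ht0] at h3
    rw [QVal.triv_apply, zero_add, fro_sum_single] at h2
    apply le_antisymm
    · simpa using h3
    · rw [h2]
      exact Int.natCast_nonneg _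
  have hord : IsOrdP (F := F) E' (X i : MvPolynomial (Fin r) K) := by
    intro n q hq hd
    have hX0 : algebraMap _ F (X i : MvPolynomial (Fin r) K) ≠ 0 :=
      (map_ne_zero_iff _ hinj).2 (X_ne_zero i)
    have hqF : algebraMap _ F q ≠ 0 := (map_ne_zero_iff _ hinj).2 hq
    have h1 : E'.toQVal (algebraMap _ F (X i ^ n * q)) = n * 1 + 0 := by
      rw [map_mul, map_pow, E'.toQVal.mul (pow_ne_zero n hX0) hqF, E'.toQVal.pow hX0]
      rw [show E'.toQVal (algebraMap _ F (X i : MvPolynomial (Fin r) K)) = 1 from hX,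
        show E'.toQVal (algebraMap _ F q) = 0 from hq0 q hq hd]
    rw [mul_one, add_zero] at h1
    exact h1
  have : E = E' := ordP_unique (prm_X_irr i) h hord
  rw [this]
  exact hE'

/-- The order along an associated form. -/
private theorem fro_ordH_assoc {E : F → ℤ} {P Q : MvPolynomial (Fin (r + 1)) K}
    (h : IsOrdH E P) (ha : Associated P Q) : IsOrdH E Q := by
  obtain ⟨u, rfl⟩ := ha
  intro m n d G H hG hH hPG hPH
  have key : ∀ (m : ℕ) (G : MvPolynomial (Fin (r + 1)) K),
      (P * (u : MvPolynomial (Fin (r + 1)) K)) ^ m * G =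
        P ^ m * ((u : MvPolynomial (Fin (r + 1)) K) ^ m * G) := by
    intro m G
    ring
  have hdv : ∀ (m : ℕ) (G : MvPolynomial (Fin (r + 1)) K),
      ¬ P * (u : MvPolynomial (Fin (r + 1)) K) ∣ G →
      ¬ P ∣ (u : MvPolynomial (Fin (r + 1)) K) ^ m * G := by
    intro m G h1 h2
    apply h1
    have hu : IsUnit ((u : MvPolynomial (Fin (r + 1)) K) ^ m) := u.isUnit.pow m
    exact (Units.mul_right_dvd).2 ((hu.dvd_mul_left).1 h2)
  rw [key, key]
  rw [key] at hG hH
  exact h m n d _ _ hG hH (hdv m G hPG) (hdv n H hPH)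

/-- The order of the canonical form at the prime divisors of `P^r`. -/
theorem form_fibre (hr : 0 < r) (y : Fin c → K) (hy : IsTranscendenceBasis ℂ y) (E : DVal F)
    (h : IsFibrePrime r K E) : IsOrd E (form r F y) (-cor r K E) := by
  classical
  obtain ⟨hP, hd, hi, hE⟩ := Pf_spec (E := E.toQVal) h
  obtain ⟨E', hE', h1, h2⟩ := exists_ordH (F := F) hr hP hi
  have hEE : E = E' := DVal.ext_of fun f _ =>
    ordH_unique (E := E.toQVal) (E' := E'.toQVal) hP hi hE hE' f
  subst hEE
  by_cases hX : Associated (Pf r K E) (X 0)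
  · have hc : cor r K E = 1 := by
      unfold cor
      rw [if_pos ⟨0, hX⟩]
    rw [hc]
    exact form_toric y hy E _ (h1 hX)
  · obtain ⟨p, hp, hpE, hpX⟩ := h2 hX
    by_cases hm : NotMono p
    · have hc : cor r K E = 0 := by
        unfold cor
        rw [if_neg]
        rintro ⟨j, hj⟩
        revert hj
        refine Fin.cases (fun h0 => hX h0) (fun i hi' => ?_) j
        have hH : IsOrdH (E : F → ℤ) (X i.succ : MvPolynomial (Fin (r + 1)) K) :=
          fro_ordH_assoc hE hi'
        have h3 := hH 1 0 1 1 (X 0)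
          (by rw [pow_one, mul_one]; exact isHomogeneous_X K _)
          (by rw [pow_zero, one_mul]; exact isHomogeneous_X K _)
          (prm_not_dvd_one (prm_X_irr _))
          (by rw [X_dvd_X]; exact Fin.succ_ne_zero i)
        have h4 : ev F ((X i.succ : MvPolynomial (Fin (r + 1)) K) ^ 1 * 1) /
            ev F ((X i.succ : MvPolynomial (Fin (r + 1)) K) ^ 0 * X 0) = tt r K F i := by
          rw [pow_one, mul_one, pow_zero, one_mul, ev_X, ev_X]
          simp [zz]
        rw [h4] at h3
        have h5 : E (tt r K F i) = 0 := by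
          unfold tt
          refine ordP_of_not_dvd hpE (X i) (X_ne_zero i) ?_
          intro hd'
          exact hm i ((hp.dvd_irreducible_iff_associated (prm_X_irr i)).1 hd')
        rw [h5] at h3
        simp at h3
      rw [hc, neg_zero]
      exact form_ordP y hy E p hp hm hpE
    · unfold NotMono at hm
      push Not at hm
      obtain ⟨i, hpi⟩ := hm
      have hc : cor r K E = 1 := by
        unfold cor
        rw [if_pos ⟨i.succ, hpX i hpi⟩]
      rw [hc]
      exact form_toric y hy E _ (fro_toric (ordP_assoc hpE hpi))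

/-- The normalised value of a coordinate. -/
private theorem fro_hv_X (hr : 0 < r) {E : QVal F} (h : IsFibrePrime r K E) (i : Fin (r + 1)) :
    (Associated (Pf r K E) (X i) → hv E 1 (X i : MvPolynomial (Fin (r + 1)) K) = 1) ∧
    (¬ Associated (Pf r K E) (X i) → hv E 1 (X i : MvPolynomial (Fin (r + 1)) K) = 0) := by
  obtain ⟨hP, hd, hi, hE⟩ := Pf_spec (E := E) h
  constructor
  · rintro ⟨u, hu⟩
    have h1 := hv_ordH hr hP hi hE 1 1 (u : MvPolynomial (Fin (r + 1)) K)
      (by rw [pow_one, hu]; exact isHomogeneous_X K i)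
      (fun hd => hi.not_isUnit (isUnit_of_dvd_unit hd u.isUnit))
    rw [pow_one, hu] at h1
    simpa using h1
  · intro hna
    have h1 := hv_ordH hr hP hi hE 0 1 (X i)
      (by rw [pow_zero, one_mul]; exact isHomogeneous_X K i)
      (fun hd => hna ((hi.dvd_irreducible_iff_associated (prm_X_irr i)).1 hd))
    rw [pow_zero, one_mul] at h1
    simpa using h1

/-- The normalised values of the coordinates at a prime divisor of `P^r`. -/
theorem sum_hv_X (hr : 0 < r) (E : DVal F) (h : IsFibrePrime r K E) :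
    ∑ i, hv E 1 (X i : MvPolynomial (Fin (r + 1)) K) = cor r K E := by
  classical
  by_cases hc : ∃ i, Associated (Pf r K E) (X i)
  · have hcor : cor r K E = 1 := by
      unfold cor
      rw [if_pos hc]
    obtain ⟨i, hi⟩ := hc
    rw [hcor, Finset.sum_eq_single i]
    · exact (fro_hv_X hr (E := E.toQVal) h i).1 hi
    · intro j _ hj
      exact (fro_hv_X hr (E := E.toQVal) h j).2
        (fun hj' => prm_not_assoc_X (K := K) hj (hj'.symm.trans hi))
    · intro h
      exact absurd (Finset.mem_univ i) h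
  · have hcor : cor r K E = 0 := by
      unfold cor
      rw [if_neg hc]
    rw [hcor]
    refine Finset.sum_eq_zero fun i _ => ?_
    exact (fro_hv_X hr (E := E.toQVal) h i).2 (fun hi => hc ⟨i, hi⟩)

/-- The coordinate hyperplanes as prime divisors. -/
private theorem fro_coord (r : ℕ) (K F : Type) [Field K] [Algebra ℂ K] [Field F] [Algebra ℂ F]
    [Algebra K F] [IsScalarTower ℂ K F]
    [Algebra (MvPolynomial (Fin r) K) F] [IsScalarTower K (MvPolynomial (Fin r) K) F]
    [IsFractionRing (MvPolynomial (Fin r) K) F] (hr : 0 < r) :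
    ∃ D : Fin (r + 1) → DVal F, Function.Injective D ∧
      (∀ i, IsFibrePrime r K (D i)) ∧ (∀ i, Associated (Pf r K (D i)) (X i)) ∧
      (∀ i, cor r K (D i) = 1) ∧ (∀ i, dg r K (D i) = 1) ∧
      ∀ E : DVal F, IsFibrePrime r K E → cor r K E ≠ 0 → ∃ i, E = D i := by
  classical
  choose D hD _ _ using fun i : Fin (r + 1) => exists_ordH (F := F) hr
    (isHomogeneous_X K i) (prm_X_irr (K := K) i)
  have hfib : ∀ i, IsFibrePrime r K (D i) := fun i =>
    ⟨X i, 1, isHomogeneous_X K i, prm_X_irr i, hD i⟩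
  have hass : ∀ i, Associated (Pf r K (D i)) (X i) := by
    intro i
    obtain ⟨hP, hd, hi, hE⟩ := Pf_spec (E := (D i).toQVal) (hfib i)
    exact ordH_assoc (E := (D i).toQVal) hP hi hE (isHomogeneous_X K i) (prm_X_irr i) (hD i)
  refine ⟨D, ?_, hfib, hass, ?_, ?_, ?_⟩
  · intro i j hij
    by_contra hne
    have h1 := hass i
    rw [hij] at h1
    exact prm_not_assoc_X (K := K) hne (h1.symm.trans (hass j))
  · intro i
    unfold cor
    rw [if_pos ⟨i, hass i⟩]
  · intro i
    obtain ⟨hP, hd, hi, hE⟩ := Pf_spec (E := (D i).toQVal) (hfib i)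
    exact (hv_assoc (E := QVal.triv F) (fun a => QVal.triv_apply _) hP (isHomogeneous_X K i)
      hi.ne_zero (hass i)).1
  · intro E hE hc
    obtain ⟨hP, hd, hi, hE'⟩ := Pf_spec (E := E.toQVal) hE
    have h1 : ∃ i, Associated (Pf r K E) (X i) := by
      by_contra h
      apply hc
      unfold cor
      rw [if_neg h]
    obtain ⟨i, h1⟩ := h1
    refine ⟨i, DVal.ext_of fun f _ => ?_⟩
    exact ordH_unique (E := E.toQVal) (E' := (D i).toQVal) (isHomogeneous_X K i) (prm_X_irr i)
      (fro_ordH_assoc hE' h1) (hD i) f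

/-- A sum over the coordinate hyperplanes. -/
private theorem fro_sum {M : Type*} [AddCommMonoid M] {D : Fin (r + 1) → DVal F}
    (hinj : Function.Injective D) (hfib : ∀ i, IsFibrePrime r K (D i))
    (hcor1 : ∀ i, cor r K (D i) = 1)
    (hall : ∀ E : DVal F, IsFibrePrime r K E → cor r K E ≠ 0 → ∃ i, E = D i)
    (S : Finset (DVal F)) (hS : ∀ E' ∈ S, IsFibrePrime r K E')
    (hcor : ∀ E' : DVal F, IsFibrePrime r K E' → cor r K E' ≠ 0 → E' ∈ S)
    (g : DVal F → M) (hg : ∀ E : DVal F, cor r K E = 0 → g E = 0) :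
    ∑ E' ∈ S, g E' = ∑ i, g (D i) := by
  classical
  have h1 : Finset.univ.image D ⊆ S := by
    intro E hE
    obtain ⟨i, _, rfl⟩ := Finset.mem_image.1 hE
    exact hcor _ (hfib i) (by rw [hcor1]; exact one_ne_zero)
  rw [← Finset.sum_subset h1, Finset.sum_image fun i _ j _ h => hinj h]
  intro E hE hE'
  apply hg
  by_contra h
  obtain ⟨i, rfl⟩ := hall E (hS E hE) h
  exact hE' (Finset.mem_image_of_mem D (Finset.mem_univ i))

/-- Every coordinate hyperplane is exactly one prime divisor. -/
theorem sum_cor_hv (hr : 0 < r) (S : Finset (DVal F)) (hS : ∀ E' ∈ S, IsFibrePrime r K E')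
    (hcor : ∀ E' : DVal F, IsFibrePrime r K E' → cor r K E' ≠ 0 → E' ∈ S) (E : QVal F)
    (hE : ∀ a : K, E (algebraMap K F a) = 0) :
    ∑ E' ∈ S, cor r K E' * hv E (dg r K E') (Pf r K E') =
      ∑ i, hv E 1 (X i : MvPolynomial (Fin (r + 1)) K) := by
  obtain ⟨D, hinj, hfib, hass, hcor1, hdg, hall⟩ := fro_coord r K F hr
  rw [fro_sum hinj hfib hcor1 hall S hS hcor _ (fun E h => by rw [h, zero_mul])]
  refine Finset.sum_congr rfl fun i _ => ?_
  obtain ⟨hP, hd, hi, hE'⟩ := Pf_spec (E := (D i).toQVal) (hfib i)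
  have h1 := (hv_assoc (E := E) hE hP (isHomogeneous_X K i) hi.ne_zero (hass i)).2
  rw [hcor1, one_mul]
  exact h1

/-- The coordinate hyperplanes are finitely many prime divisors. -/
theorem finite_cor (hr : 0 < r) : {E : DVal F | IsFibrePrime r K E ∧ cor r K E ≠ 0}.Finite := by
  obtain ⟨D, hinj, hfib, hass, hcor1, hdg, hall⟩ := fro_coord r K F hr
  refine (Set.finite_range D).subset ?_
  rintro E ⟨h1, h2⟩
  obtain ⟨i, rfl⟩ := hall E h1 h2
  exact ⟨i, rfl⟩

/-- The sum of the degrees of the coordinate hyperplanes. -/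
theorem sum_cor (hr : 0 < r) (S : Finset (DVal F)) (hS : ∀ E' ∈ S, IsFibrePrime r K E')
    (hcor : ∀ E' : DVal F, IsFibrePrime r K E' → cor r K E' ≠ 0 → E' ∈ S) :
    ∑ E' ∈ S, (dg r K E' : ℝ) * (cor r K E' : ℝ) = r + 1 := by
  obtain ⟨D, hinj, hfib, hass, hcor1, hdg, hall⟩ := fro_coord r K F hr
  rw [fro_sum hinj hfib hcor1 hall S hS hcor _ (fun E h => by rw [h]; simp)]
  simp only [hcor1, hdg]
  simp

end WPB
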