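import Pool.Agent.WNV.VAL
import Pool.Agent.WNV.Defs2

/-!
Definitions for the geometric part of the weak non-vanishing theorem on projective bundles: `K` is
a field over the complex numbers (the function field of the base `Y`) and `F = K(t_1,…,t_r)` is the
function field of the projective space `P^r` over `K`, with the homogeneous coordinates
`z = (1, t_1, …, t_r)`.
-/

open MvPolynomial WNV

namespace WPB

section

variable {r N : ℕ} {K F : Type} [Field K] [Field F] [Algebra ℂ F] [Algebra K F]
  [Algebra (MvPolynomial (Fin r) K) F]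

variable (r K F) in
/-- The homogeneous coordinates `z = (1, t_1, …, t_r)` of `P^r`. -/
noncomputable def zz : Fin (r + 1) → F := Fin.cons 1 (tt r K F)

variable (F) in
/-- The value `G(z)` of a form `G` over `K` at `z = (1, t_1, …, t_r)`. -/
noncomputable def ev (G : MvPolynomial (Fin (r + 1)) K) : F := aeval (zz r K F) G

/-- `E` is the order of vanishing along the hypersurface `P = 0` of `P^r` over `K`. -/
def IsOrdH (E : F → ℤ) (P : MvPolynomial (Fin (r + 1)) K) : Prop :=
  ∀ (m n d : ℕ) (G H : MvPolynomial (Fin (r + 1)) K), (P ^ m * G).IsHomogeneous d →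
    (P ^ n * H).IsHomogeneous d → ¬ P ∣ G → ¬ P ∣ H →
    E (ev F (P ^ m * G) / ev F (P ^ n * H)) = (m : ℤ) - n

variable (r K) in
/-- `E` is (the valuation of) a prime divisor of `P^r` over `K`. -/
def IsFibrePrime (E : F → ℤ) : Prop :=
  ∃ (P : MvPolynomial (Fin (r + 1)) K) (d : ℕ), P.IsHomogeneous d ∧ Irreducible P ∧ IsOrdH E P

variable (r K) in
/-- The homogeneous coordinates of the model are `x_j = h G_j(z)`, where the `G_j` are forms over
`K` of one degree without a common zero. -/
def IsProjModel (x : Fin (N + 1) → F) : Prop :=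
  (∀ j, x j ≠ 0) ∧ ∃ (h : F) (d : ℕ) (G : Fin (N + 1) → MvPolynomial (Fin (r + 1)) K),
    (∀ j, (G j).IsHomogeneous d) ∧ (∀ j, x j = h * ev F (G j)) ∧
    ∀ i, ∃ M : ℕ, X i ^ M ∈ Ideal.span (Set.range G)

variable (F) in
/-- The linear forms `ℓ_i = Σ_j A_ij z_j`. -/
noncomputable def lin (A : Matrix (Fin (r + 1)) (Fin (r + 1)) K) (i : Fin (r + 1)) : F :=
  ∑ j, algebraMap K F (A i j) * zz r K F j

variable (r K) in
/-- `E` is linear: for suitable linear coordinates `ℓ_i` over `K`, the value of
`Σ c_α ℓ^α` (a form over `K`) is the least of the values of its terms. -/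
def IsLinear (E : F → ℤ) : Prop :=
  ∃ A : Matrix (Fin (r + 1)) (Fin (r + 1)) K, A.det ≠ 0 ∧
    ∀ (d : ℕ) (H : MvPolynomial (Fin (r + 1)) K), H.IsHomogeneous d → ∀ s ∈ H.support,
      E (aeval (lin F A) H) ≤ E (algebraMap K F (H.coeff s)) + ∑ i, (s i : ℤ) * E (lin F A i)

variable (r K) in
/-- The least of the values of the coordinates `z_i`. -/
noncomputable def mu (E : F → ℤ) : ℤ :=
  Finset.univ.inf' ⟨(0 : Fin (r + 1)), Finset.mem_univ _⟩ fun i => E (zz r K F i)

/-- The normalised value of a form of degree `d`. -/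
noncomputable def hv (E : F → ℤ) (d : ℕ) (G : MvPolynomial (Fin (r + 1)) K) : ℤ :=
  E (ev F G) - d * mu r K E

open Classical in
variable (r K) in
/-- An equation of the prime divisor `E` of `P^r`. -/
noncomputable def Pf (E : F → ℤ) : MvPolynomial (Fin (r + 1)) K :=
  if h : IsFibrePrime r K E then h.choose else 1

variable (r K) in
/-- The degree of the prime divisor `E` of `P^r`. -/
noncomputable def dg (E : F → ℤ) : ℕ := (Pf r K E).totalDegree

open Classical in
variable (r K) in
/-- It is `1` if the prime divisor `E` of `P^r` is a coordinate hyperplane and `0` otherwise. -/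
noncomputable def cor (E : F → ℤ) : ℤ := if ∃ i, Associated (Pf r K E) (X i) then 1 else 0

variable (F) in
/-- The affine coordinates `ℓ_i / ℓ_0`. -/
noncomputable def aff (A : Matrix (Fin (r + 1)) (Fin (r + 1)) K) (i : Fin r) : F :=
  lin F A i.succ / lin F A 0

/-- The form `dy_1 ∧ … ∧ dy_c ∧ dT_1/T_1 ∧ … ∧ dT_r/T_r`. -/
noncomputable def formT {c : ℕ} (y : Fin c → K) (T : Fin r → F) :
    ⋀[F]^(c + r) (KaehlerDifferential ℂ F) :=
  exteriorPower.ιMulti F (c + r)
    (Fin.append (fun j => KaehlerDifferential.D ℂ F (algebraMap K F (y j)))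
      (fun j => (T j)⁻¹ • KaehlerDifferential.D ℂ F (T j)))

end

end WPB
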