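import Pool.Agent.WPB.LFT
import Pool.Agent.WPB.CRI

open MvPolynomial

namespace WPB

/-- Elements of the multiplicative closure of the generators are monomials in the coefficients. -/
private theorem closure_mono {k s : ℕ} {K : Type} [Field K] (f : Fin s → MvPolynomial (Fin k) K)
    (m : Fin s → ℕ) {x : MvPolynomial (Fin k × Fin k) K}
    (hx : x ∈ Submonoid.closure {x | ∃ α : Fin s → Multiset (Fin k →₀ ℕ),
      (∀ j, Multiset.card (α j) = m j) ∧ x = mono (gco f) α}) :
    ∃ (q : ℕ) (α : Fin s → Multiset (Fin k →₀ ℕ)),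
      (∀ j, Multiset.card (α j) = q * m j) ∧ x = mono (gco f) α := by
  induction hx using Submonoid.closure_induction with
  | mem x h =>
    obtain ⟨α, hα, rfl⟩ := h
    exact ⟨1, α, fun j => by rw [hα j, one_mul], rfl⟩
  | one => exact ⟨0, fun _ => 0, fun j => by simp, by simp [mono]⟩
  | mul x y _ _ hx hy =>
    obtain ⟨q, α, hα, rfl⟩ := hx
    obtain ⟨q', α', hα', rfl⟩ := hy
    refine ⟨q + q', fun j => α j + α' j, fun j => ?_, ?_⟩
    · rw [Multiset.card_add, hα, hα', add_mul]
    · simp only [mono, Multiset.map_add, Multiset.prod_add, Finset.prod_mul_distrib]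

/-- Degree of a monomial in the coefficients. -/
private theorem mono_homog {k s : ℕ} {K : Type} [Field K] {f : Fin s → MvPolynomial (Fin k) K}
    {d : Fin s → ℕ} (hd : ∀ j, (f j).IsHomogeneous (d j)) (α : Fin s → Multiset (Fin k →₀ ℕ)) :
    (mono (gco f) α).IsHomogeneous (∑ j, Multiset.card (α j) * d j) := by
  unfold mono
  refine IsHomogeneous.prod _ _ _ fun j _ => ?_
  generalize α j = M
  induction M using Multiset.induction_on with
  | empty => simpa using isHomogeneous_one (Fin k × Fin k) K
  | cons a M ih =>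
    rw [Multiset.map_cons, Multiset.prod_cons, Multiset.card_cons, add_mul, one_mul, add_comm]
    exact (gco_homog hd j a).mul ih

/-- There is an invariant which does not vanish on `f`. -/
theorem exists_inv {k s : ℕ} {K : Type} [Field K] [CharZero K]
    (f : Fin s → MvPolynomial (Fin k) K) (d : Fin s → ℕ) (hd : ∀ j, (f j).IsHomogeneous (d j))
    (m : Fin s → ℕ) (N : ℕ) (hN : ∑ j, m j * d j = N * k) (hk : 0 < N * k)
    (hi : IsIntegral (baseRing f m) ((gen k K).det ^ N)) :
    ∃ (q t : ℕ) (α : Fin s → Multiset (Fin k →₀ ℕ)), 0 < q ∧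
      (∀ j, Multiset.card (α j) = q * m j) ∧
      fis ((gen k K).det ^ (N * (q + t))) (mono (gco f) α * (gen k K).det ^ (N * t)) ≠ 0 := by
  classical
  obtain ⟨p, hp, hp0⟩ := hi
  set r := p.natDegree with hr
  set x := (gen k K).det ^ N with hx
  let c : MvPolynomial (Fin k × Fin k) K →ₗ[K] K :=
    { toFun := fun q => fis ((gen k K).det ^ (N * r)) q
      map_add' := fis_add_right _
      map_smul' := fun a q => by
        rw [smul_eq_C_mul, fis_C_mul_right]
        rfl }
  have hsum : x ^ r + ∑ i ∈ Finset.range r, (p.coeff i : MvPolynomial (Fin k × Fin k) K) * x ^ i = 0 := by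
    rw [Polynomial.eval₂_eq_sum_range, Finset.sum_range_succ, ← hr, hp.coeff_natDegree] at hp0
    rw [add_comm, ← hp0, map_one, one_mul]
    rfl
  have hc : ∃ i ∈ Finset.range r, c ((p.coeff i : MvPolynomial (Fin k × Fin k) K) * x ^ i) ≠ 0 := by
    by_contra h
    push Not at h
    have h1 := congrArg c hsum
    rw [map_add, map_sum, Finset.sum_eq_zero h, add_zero, map_zero] at h1
    apply fis_det_ne_zero (k := k) (K := K) (N * r)
    rw [hx, ← pow_mul] at h1
    exact h1
  obtain ⟨i, hi, hci⟩ := hc
  rw [Finset.mem_range] at hi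
  -- the coefficient is a combination of monomials
  set G : Set (MvPolynomial (Fin k × Fin k) K) := {x | ∃ α : Fin s → Multiset (Fin k →₀ ℕ),
      (∀ j, Multiset.card (α j) = m j) ∧ x = mono (gco f) α} with hG
  have hmem : (p.coeff i : MvPolynomial (Fin k × Fin k) K) ∈ Algebra.adjoin K G := by
    have hle : baseRing f m ≤ (Algebra.adjoin K G).toSubring := by
      refine Subring.closure_le.2 ?_
      rintro y (⟨a, rfl⟩ | hy)
      · exact (Algebra.adjoin K G).algebraMap_mem a
      · exact Algebra.subset_adjoin hy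
    exact hle (p.coeff i).2
  rw [← Subalgebra.mem_toSubmodule, Algebra.adjoin_eq_span] at hmem
  have hex : ∃ y ∈ Submonoid.closure G, c (y * x ^ i) ≠ 0 := by
    by_contra h
    push Not at h
    apply hci
    have : Submodule.span K (Submonoid.closure G : Set (MvPolynomial (Fin k × Fin k) K)) ≤
        LinearMap.ker (c.comp (LinearMap.mulRight K (x ^ i))) := by
      rw [Submodule.span_le]
      intro y hy
      exact h y hy
    exact this hmem
  obtain ⟨y, hy, hcy⟩ := hex
  obtain ⟨q, α, hα, rfl⟩ := closure_mono f m hy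
  have hdeg : N * r = N * (q + i) := by
    by_contra hne
    apply hcy
    have h1 := (det_homog (k := k) (R := K)).pow (N * r)
    have h2 := (mono_homog hd α).mul ((det_homog (k := k) (R := K)).pow (N * i))
    have h3 : ∑ j, Multiset.card (α j) * d j = q * (N * k) := by
      rw [← hN, Finset.mul_sum]
      exact Finset.sum_congr rfl fun j _ => by rw [hα j, mul_assoc]
    rw [h3] at h2
    have h4 : k * (N * r) ≠ q * (N * k) + k * (N * i) := by
      intro h
      apply hne
      have hk0 : 0 < k := Nat.pos_of_mul_pos_left hk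
      have : k * (N * r) = k * (N * (q + i)) := by rw [h]; ring
      exact Nat.eq_of_mul_eq_mul_left hk0 this
    have := fis_eq_zero_of_homog h1 h2 h4
    rw [hx, ← pow_mul]
    exact this
  have hN0 : 0 < N := Nat.pos_of_mul_pos_right hk
  have hri : r = q + i := Nat.eq_of_mul_eq_mul_left hN0 hdeg
  refine ⟨q, i, α, by omega, hα, ?_⟩
  rw [← hri]
  rw [hx, ← pow_mul] at hcy
  exact hcy

end WPB
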