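import Pool.Agent.WPB.Defs
import Pool.Agent.WPB.SUB
import Pool.Agent.WPB.HVF
import Pool.Agent.WPB.FRM
import Pool.Agent.WPB.FEX
import Pool.Agent.WNV.GAU
import Pool.Agent.WNV.BRG
import Pool.Agent.WNV.TRV

open MvPolynomial WNV

set_option linter.unusedSectionVars false

namespace WPB

section gauss

variable {r : ℕ} {K F : Type} [Field K] [Algebra ℂ K] [Field F] [Algebra ℂ F]
    [Algebra K F] [IsScalarTower ℂ K F]

/-- The toric valuations for a system of coordinates. -/
private theorem mon_exists_toric (T : Fin r → F) (hT : IsCoord K T) (w u : Fin r → ℤ)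
    (h : ∑ i, u i * w i = 1) :
    ∃ E : DVal F, ∀ p : MvPolynomial (Fin r) K, p ≠ 0 →
      (∀ s ∈ p.support, E (aeval T p) ≤ ∑ i, (s i : ℤ) * w i) ∧
      ∃ s ∈ p.support, E (aeval T p) = ∑ i, (s i : ℤ) * w i := by
  let alg : Algebra (MvPolynomial (Fin r) K) F :=
    ((aeval T : MvPolynomial (Fin r) K →ₐ[K] F) : MvPolynomial (Fin r) K →+* F).toAlgebra
  have hal : ∀ p : MvPolynomial (Fin r) K, algebraMap (MvPolynomial (Fin r) K) F p = aeval T p :=
    fun p => rfl
  have htow : IsScalarTower K (MvPolynomial (Fin r) K) F := by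
    refine IsScalarTower.of_algebraMap_eq fun a => ?_
    rw [hal, MvPolynomial.algebraMap_eq, aeval_C]
  have hinj : Function.Injective (algebraMap (MvPolynomial (Fin r) K) F) := hT.1
  have hfaith : FaithfulSMul (MvPolynomial (Fin r) K) F :=
    (faithfulSMul_iff_algebraMap_injective _ _).2 hinj
  have hfrac : IsFractionRing (MvPolynomial (Fin r) K) F := by
    refine IsFractionRing.of_field _ _ fun z => ?_
    obtain ⟨p, q, _, hz⟩ := hT.2 z
    exact ⟨p, q, hz⟩
  obtain ⟨E, hE⟩ := exists_toric (r := r) K F w u h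
  refine ⟨E, fun p hp => ?_⟩
  obtain ⟨h1, s, hs, h2⟩ := hE p hp
  refine ⟨fun s hs => ?_, s, hs, ?_⟩
  · have := h1 s hs
    rw [QVal.triv_apply, zero_add, hal] at this
    exact this
  · rw [QVal.triv_apply, zero_add, hal] at h2
    exact h2

end gauss

section deh

variable {r : ℕ} {K : Type} [Field K]

/-- The dehomogenisation. -/
private noncomputable def monDeh (H : MvPolynomial (Fin (r + 1)) K) : MvPolynomial (Fin r) K :=
  ∑ s ∈ H.support, monomial s.tail (H.coeff s)

private theorem mon_degree {d : ℕ} {H : MvPolynomial (Fin (r + 1)) K} (hH : H.IsHomogeneous d)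
    {s : Fin (r + 1) →₀ ℕ} (hs : s ∈ H.support) : s 0 + ∑ i, s.tail i = d := by
  have h1 : s.degree = d := by
    by_contra h
    exact (mem_support_iff.1 hs) (hH.coeff_eq_zero h)
  rw [Finsupp.degree_eq_sum, Fin.sum_univ_succ] at h1
  exact h1

private theorem mon_tail_inj {d : ℕ} {H : MvPolynomial (Fin (r + 1)) K} (hH : H.IsHomogeneous d)
    {s t : Fin (r + 1) →₀ ℕ} (hs : s ∈ H.support) (ht : t ∈ H.support) (h : s.tail = t.tail) :
    s = t := by
  have h1 := mon_degree hH hs
  have h2 := mon_degree hH ht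
  rw [h] at h1
  rw [← Finsupp.cons_tail s, ← Finsupp.cons_tail t, h]
  congr 1
  omega

private theorem mon_deh_coeff {d : ℕ} {H : MvPolynomial (Fin (r + 1)) K} (hH : H.IsHomogeneous d)
    {s : Fin (r + 1) →₀ ℕ} (hs : s ∈ H.support) : (monDeh H).coeff s.tail = H.coeff s := by
  classical
  unfold monDeh
  rw [coeff_sum, Finset.sum_eq_single s]
  · rw [coeff_monomial, if_pos rfl]
  · intro t ht hts
    rw [coeff_monomial, if_neg]
    intro h
    exact hts (mon_tail_inj hH ht hs h)
  · intro h
    exact absurd hs h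

private theorem mon_deh_support {H : MvPolynomial (Fin (r + 1)) K} {t : Fin r →₀ ℕ}
    (ht : t ∈ (monDeh H).support) : ∃ s ∈ H.support, s.tail = t := by
  classical
  by_contra h
  push Not at h
  rw [mem_support_iff] at ht
  apply ht
  unfold monDeh
  rw [coeff_sum]
  refine Finset.sum_eq_zero fun s hs => ?_
  rw [coeff_monomial, if_neg (h s hs)]

private theorem mon_deh_ne {d : ℕ} {H : MvPolynomial (Fin (r + 1)) K} (hH : H.IsHomogeneous d)
    (h0 : H ≠ 0) : monDeh H ≠ 0 := by
  obtain ⟨s, hs⟩ : H.support.Nonempty := by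
    rw [Finset.nonempty_iff_ne_empty]
    intro h
    exact h0 (support_eq_empty.1 h)
  intro h
  have h1 := mon_deh_coeff hH hs
  rw [h, coeff_zero] at h1
  exact (mem_support_iff.1 hs) h1.symm

private theorem mon_deh_eval {F : Type} [Field F] [Algebra K F] {d : ℕ}
    {H : MvPolynomial (Fin (r + 1)) K} (hH : H.IsHomogeneous d) (l : Fin (r + 1) → F)
    (hl : l 0 ≠ 0) :
    aeval l H = l 0 ^ d * aeval (fun i : Fin r => l i.succ / l 0) (monDeh H) := by
  have h1 : aeval l H = ∑ s ∈ H.support, algebraMap K F (H.coeff s) * ∏ i, l i ^ s i := by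
    rw [aeval_def, eval₂_eq']
  have h2 : aeval (fun i : Fin r => l i.succ / l 0) (monDeh H) =
      ∑ s ∈ H.support, algebraMap K F (H.coeff s) * ∏ i, (l (Fin.succ i) / l 0) ^ s.tail i := by
    unfold monDeh
    rw [map_sum]
    refine Finset.sum_congr rfl fun s _ => ?_
    rw [aeval_monomial, Finsupp.prod_fintype _ _ (fun i => by simp)]
  rw [h1, h2, Finset.mul_sum]
  refine Finset.sum_congr rfl fun s hs => ?_
  have h3 := mon_degree hH hs
  rw [Fin.prod_univ_succ]
  have h4 : ∏ i, (l (Fin.succ i) / l 0) ^ s.tail i =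
      (∏ i : Fin r, l (Fin.succ i) ^ s i.succ) / l 0 ^ (∑ i, s.tail i) := by
    rw [← Finset.prod_pow_eq_pow_sum, ← Finset.prod_div_distrib]
    refine Finset.prod_congr rfl fun i _ => ?_
    rw [div_pow]
    rfl
  rw [h4, ← h3, pow_add]
  have h5 : l 0 ^ (∑ i, s.tail i) ≠ 0 := pow_ne_zero _ hl
  field_simp

end deh

section value

variable {r : ℕ} {K F : Type} [Field K] [Algebra ℂ K] [Field F] [Algebra ℂ F]
    [Algebra K F] [IsScalarTower ℂ K F]

/-- The value of a form. -/
private theorem mon_value {v : Fin (r + 1) → ℤ} {E : QVal F} {l : Fin (r + 1) → F}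
    (hl : l 0 ≠ 0)
    (hE : ∀ p : MvPolynomial (Fin r) K, p ≠ 0 →
      (∀ s ∈ p.support, E (aeval (fun i : Fin r => l i.succ / l 0) p) ≤
        ∑ i, (s i : ℤ) * (v i.succ - v 0)) ∧
      ∃ s ∈ p.support, E (aeval (fun i : Fin r => l i.succ / l 0) p) =
        ∑ i, (s i : ℤ) * (v i.succ - v 0))
    (hinj : ∀ p : MvPolynomial (Fin r) K, p ≠ 0 →
      aeval (fun i : Fin r => l i.succ / l 0) p ≠ 0)
    {d : ℕ} {H : MvPolynomial (Fin (r + 1)) K} (hH : H.IsHomogeneous d) (h0 : H ≠ 0) :
    (∀ s ∈ H.support, E (aeval l H) ≤ pr s v + d * (E (l 0) - v 0)) ∧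
    ∃ s ∈ H.support, E (aeval l H) = pr s v + d * (E (l 0) - v 0) := by
  have hp := mon_deh_ne hH h0
  have h1 : E (aeval l H) = d * E (l 0) +
      E (aeval (fun i : Fin r => l i.succ / l 0) (monDeh H)) := by
    rw [mon_deh_eval hH l hl, E.mul (pow_ne_zero d hl) (hinj _ hp), E.pow hl]
  have h2 : ∀ s ∈ H.support, ∑ i, (s.tail i : ℤ) * (v i.succ - v 0) = pr s v - d * v 0 := by
    intro s hs
    have h3 := mon_degree hH hs
    unfold pr
    rw [Fin.sum_univ_succ]
    have h4 : ∀ i : Fin r, s.tail i = s i.succ := fun i => rfl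
    have h5 : ∑ i, (s.tail i : ℤ) * (v i.succ - v 0) =
        ∑ i : Fin r, (s i.succ : ℤ) * v i.succ - (∑ i, (s.tail i : ℤ)) * v 0 := by
      rw [Finset.sum_mul, ← Finset.sum_sub_distrib]
      refine Finset.sum_congr rfl fun i _ => ?_
      rw [h4]
      ring
    rw [h5]
    have h6 : (d : ℤ) = s 0 + ∑ i, (s.tail i : ℤ) := by
      rw [← h3]
      push_cast
      rfl
    rw [h6]
    ring
  obtain ⟨h3, t, ht, h4⟩ := hE _ hp
  constructor
  · intro s hs
    have h5 := h3 s.tail (by
      rw [mem_support_iff, mon_deh_coeff hH hs]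
      exact mem_support_iff.1 hs)
    rw [h2 s hs] at h5
    rw [h1]
    linarith
  · obtain ⟨s, hs, rfl⟩ := mon_deh_support ht
    refine ⟨s, hs, ?_⟩
    rw [h1, h4, h2 s hs]
    ring

end value

section core

variable {c r : ℕ} {K F : Type} [Field K] [Algebra ℂ K] [Field F] [Algebra ℂ F]
    [Algebra K F] [IsScalarTower ℂ K F]
    [Algebra (MvPolynomial (Fin r) K) F] [IsScalarTower K (MvPolynomial (Fin r) K) F]
    [IsFractionRing (MvPolynomial (Fin r) K) F]
    {K' F' : Type} [Field K'] [Algebra ℂ K'] [Algebra K K'] [IsScalarTower ℂ K K']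
    [Field F'] [Algebra ℂ F']
    [Algebra K' F'] [IsScalarTower ℂ K' F']
    [Algebra (MvPolynomial (Fin r) K') F'] [IsScalarTower K' (MvPolynomial (Fin r) K') F']
    [IsFractionRing (MvPolynomial (Fin r) K') F']
    [Algebra F F'] [IsScalarTower ℂ F F']

/-- The extension of the function fields is algebraic. -/
private theorem mon_algebraic [Algebra.IsAlgebraic K K']
    (hKK : ∀ a : K, algebraMap F F' (algebraMap K F a) = algebraMap K' F' (algebraMap K K' a))
    (htt : ∀ i, algebraMap F F' (tt r K F i) = tt r K' F' i) : Algebra.IsAlgebraic F F' := by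
  have h1 : ∀ a : K', IsAlgebraic F (algebraMap K' F' a) := by
    intro a
    obtain ⟨p, hp, hpa⟩ := Algebra.IsAlgebraic.isAlgebraic (R := K) a
    refine ⟨p.map (algebraMap K F), (Polynomial.map_ne_zero_iff (algebraMap K F).injective).2 hp, ?_⟩
    rw [Polynomial.aeval_def, Polynomial.eval₂_map]
    have h2 : (algebraMap F F').comp (algebraMap K F) =
        (algebraMap K' F').comp (algebraMap K K') := RingHom.ext hKK
    rw [h2, ← Polynomial.hom_eval₂]
    rw [Polynomial.aeval_def] at hpa
    rw [hpa, map_zero]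
  have h2 : ∀ p : MvPolynomial (Fin r) K', IsAlgebraic F (algebraMap _ F' p) := by
    intro p
    induction p using MvPolynomial.induction_on with
    | C a =>
      have : algebraMap (MvPolynomial (Fin r) K') F' (C a) = algebraMap K' F' a := by
        rw [IsScalarTower.algebraMap_apply K' (MvPolynomial (Fin r) K') F']
        rfl
      rw [this]
      exact h1 a
    | add p q hp hq =>
      rw [map_add]
      exact hp.add hq
    | mul_X p i hp =>
      rw [map_mul]
      refine hp.mul ?_
      have : algebraMap (MvPolynomial (Fin r) K') F' (X i) = algebraMap F F' (tt r K F i) := by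
        rw [htt]
        rfl
      rw [this]
      exact isAlgebraic_algebraMap _
  constructor
  intro z
  obtain ⟨p, q, _, rfl⟩ := IsFractionRing.div_surjective (A := MvPolynomial (Fin r) K') z
  rw [div_eq_mul_inv]
  exact (h2 p).mul (h2 q).inv

/-- A valuation which is trivial on a subfield over which the field is algebraic is trivial. -/
private theorem mon_nontrivial [Algebra.IsAlgebraic F F'] (E : DVal F') :
    ∃ a : F, E (algebraMap F F' a) ≠ 0 := by
  by_contra hcon
  push Not at hcon
  obtain ⟨f, hf0, hf1⟩ := E.exists_unif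
  have halg : IsIntegral F f := (Algebra.IsAlgebraic.isAlgebraic (R := F) f).isIntegral
  set p := minpoly F f with hp
  have hp0 : p.coeff 0 ≠ 0 := by
    rw [hp]
    exact minpoly.coeff_zero_ne_zero halg hf0
  have h1 : Polynomial.aeval f p = 0 := minpoly.aeval F f
  rw [Polynomial.aeval_eq_sum_range, Finset.sum_range_succ'] at h1
  have h2 : Ge E.toQVal 1 (∑ i ∈ Finset.range p.natDegree, p.coeff (i + 1) • f ^ (i + 1)) := by
    refine E.toQVal.ge_sum _ _ fun i _ => ?_
    rw [Algebra.smul_def]
    by_cases hc : p.coeff (i + 1) = 0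
    · left
      rw [hc, map_zero, zero_mul]
    · right
      have hc' : algebraMap F F' (p.coeff (i + 1)) ≠ 0 :=
        (map_ne_zero_iff _ (algebraMap F F').injective).2 hc
      rw [E.toQVal.mul hc' (pow_ne_zero _ hf0), E.toQVal.pow hf0]
      have h3 : E.toQVal (algebraMap F F' (p.coeff (i + 1))) = 0 := hcon _
      have h4 : E.toQVal f = 1 := hf1
      rw [h3, h4]
      push_cast
      omega
  have h3 : (∑ i ∈ Finset.range p.natDegree, p.coeff (i + 1) • f ^ (i + 1)) =
      - algebraMap F F' (p.coeff 0) := by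
    rw [pow_zero, Algebra.smul_def, mul_one] at h1
    exact eq_neg_of_add_eq_zero_left h1
  rw [h3] at h2
  rcases h2 with h2 | h2
  · rw [neg_eq_zero, map_eq_zero] at h2
    exact hp0 h2
  · rw [E.toQVal.neg] at h2
    have h4 : E.toQVal (algebraMap F F' (p.coeff 0)) = 0 := hcon _
    omega

/-- The values of forms over the base field after the change of coordinates. -/
private theorem mon_ev
    (hKK : ∀ a : K, algebraMap F F' (algebraMap K F a) = algebraMap K' F' (algebraMap K K' a))
    (htt : ∀ i, algebraMap F F' (tt r K F i) = tt r K' F' i)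
    (h A : Matrix (Fin (r + 1)) (Fin (r + 1)) K') (hA : h * A = 1)
    (G : MvPolynomial (Fin (r + 1)) K) :
    algebraMap F F' (ev F G) = aeval (lin F' A) (sub G h) := by
  have hz : ∀ i, algebraMap F F' (zz r K F i) = zz r K' F' i := by
    intro i
    refine Fin.cases ?_ (fun i => ?_) i
    · simp [zz]
    · simp [zz, htt]
  have hl : ∀ i, ∑ j, algebraMap K' F' (h i j) * lin F' A j = zz r K' F' i := by
    intro i
    have h1 : ∀ k, ∑ j, h i j * A j k = (1 : Matrix (Fin (r + 1)) (Fin (r + 1)) K') i k := by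
      intro k
      rw [← hA, Matrix.mul_apply]
    unfold lin
    simp_rw [Finset.mul_sum]
    rw [Finset.sum_comm]
    have h2 : ∀ k, ∑ j, algebraMap K' F' (h i j) * (algebraMap K' F' (A j k) * zz r K' F' k) =
        algebraMap K' F' ((1 : Matrix (Fin (r + 1)) (Fin (r + 1)) K') i k) * zz r K' F' k := by
      intro k
      rw [← h1 k, map_sum, Finset.sum_mul]
      refine Finset.sum_congr rfl fun j _ => ?_
      rw [map_mul]
      ring
    simp_rw [h2]
    rw [Finset.sum_eq_single i]
    · rw [Matrix.one_apply_eq, map_one, one_mul]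
    · intro b _ hb
      rw [Matrix.one_apply_ne hb.symm, map_zero, zero_mul]
    · intro h
      exact absurd (Finset.mem_univ i) h
  have key : ((algebraMap F F').comp
        ((aeval (zz r K F) : MvPolynomial (Fin (r + 1)) K →ₐ[K] F) : MvPolynomial (Fin (r + 1)) K →+* F)) =
      (((aeval (lin F' A) : MvPolynomial (Fin (r + 1)) K' →ₐ[K'] F') :
        MvPolynomial (Fin (r + 1)) K' →+* F').comp
        ((aeval (fun a => ∑ b, C (h a b) * X b) :
          MvPolynomial (Fin (r + 1)) K →ₐ[K] MvPolynomial (Fin (r + 1)) K') :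
          MvPolynomial (Fin (r + 1)) K →+* MvPolynomial (Fin (r + 1)) K')) := by
    apply MvPolynomial.ringHom_ext
    · intro a
      simp only [RingHom.comp_apply, RingHom.coe_coe]
      rw [aeval_C, aeval_C, hKK, IsScalarTower.algebraMap_apply K K' (MvPolynomial (Fin (r + 1)) K'),
        MvPolynomial.algebraMap_eq, aeval_C]
    · intro i
      simp only [RingHom.comp_apply, RingHom.coe_coe]
      rw [aeval_X, aeval_X, hz, map_sum]
      rw [← hl i]
      refine Finset.sum_congr rfl fun j _ => ?_
      rw [map_mul, aeval_C, aeval_X]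
  exact congrArg (fun f => f G) key

/-- The canonical form in terms of the differentials of a transcendence basis. -/
private theorem mon_form_smul (y : Fin c → K) : form r F y =
    (∏ i, (Fin.append (fun _ : Fin c => (1 : F)) (fun j => (tt r K F j)⁻¹) i)) •
      exteriorPower.ιMulti F (c + r) (fun i => KaehlerDifferential.D ℂ F
        (Fin.append (fun j => algebraMap K F (y j)) (tt r K F) i)) := by
  unfold form
  have h1 : (Fin.append (fun j => KaehlerDifferential.D ℂ F (algebraMap K F (y j)))
      (fun j => (tt r K F j)⁻¹ • KaehlerDifferential.D ℂ F (tt r K F j))) =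
      fun i => (Fin.append (fun _ : Fin c => (1 : F)) (fun j => (tt r K F j)⁻¹) i) •
        KaehlerDifferential.D ℂ F (Fin.append (fun j => algebraMap K F (y j)) (tt r K F) i) := by
    funext i
    refine Fin.addCases (fun j => ?_) (fun j => ?_) i
    · rw [Fin.append_left, Fin.append_left, Fin.append_left, one_smul]
    · rw [Fin.append_right, Fin.append_right, Fin.append_right]
  rw [h1]
  exact (exteriorPower.ιMulti F (c + r)).toMultilinearMap.map_smul_univ _ _

private theorem mon_pr_single (i : Fin (r + 1)) (v : Fin (r + 1) → ℤ) :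
    pr (Finsupp.single i 1) v = v i := by
  classical
  unfold pr
  rw [Finset.sum_eq_single i]
  · simp
  · intro b _ hb
    rw [Finsupp.single_eq_of_ne hb]
    simp
  · intro h
    exact absurd (Finset.mem_univ i) h

private theorem mon_core [Module.Finite K K']
    (hKK : ∀ a : K, algebraMap F F' (algebraMap K F a) = algebraMap K' F' (algebraMap K K' a))
    (htt : ∀ i, algebraMap F F' (tt r K F i) = tt r K' F' i)
    (y : Fin c → K) (hy : IsTranscendenceBasis ℂ y)
    (h : Matrix (Fin (r + 1)) (Fin (r + 1)) K') (hh : h.det ≠ 0) (v : Fin (r + 1) → ℤ)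
    (hv0 : ∀ i, 0 ≤ v i) (hv1 : ∃ i, v i = 0) (hv2 : ∃ u : Fin (r + 1) → ℤ, ∑ i, u i * v i = 1) :
    ∃ (E : DVal F) (e : ℤ), 0 < e ∧ (∀ a : K, E (algebraMap K F a) = 0) ∧
      (∀ (d : ℕ) (G : MvPolynomial (Fin (r + 1)) K), G.IsHomogeneous d → G ≠ 0 →
        ∃ α ∈ (sub G h).support, e * hv E d G = pr α v) ∧
      ∀ a : ℤ, OrdGE E (form r F y) a →
        e * (a + 1) ≤ ∑ i, v i -
          ∑ i, e * hv E 1 (X i : MvPolynomial (Fin (r + 1)) K) := by
  classical
  have halg0 : Algebra.IsAlgebraic K K' := Algebra.IsAlgebraic.of_finite K K'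
  have halg : Algebra.IsAlgebraic F F' := mon_algebraic hKK htt
  -- the inverse matrix
  obtain ⟨A, hAdef⟩ : ∃ A, A = h⁻¹ := ⟨_, rfl⟩
  have hA : h * A = 1 := by
    rw [hAdef]
    exact Matrix.mul_nonsing_inv h (isUnit_iff_ne_zero.2 hh)
  have hAdet : A.det ≠ 0 := by
    intro h0
    have := congrArg Matrix.det hA
    rw [Matrix.det_mul, h0, mul_zero, Matrix.det_one] at this
    exact zero_ne_one this
  have hT : IsCoord K' (aff F' A) := isCoord_aff A hAdet
  have hl : ∀ i, lin F' A i ≠ 0 := lin_ne_zero A hAdet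
  -- the vector
  obtain ⟨i₁, hi₁⟩ := hv1
  obtain ⟨u, hu⟩ := hv2
  have hw : ∑ i : Fin r, (u i.succ - (∑ j, u j) * (if i.succ = i₁ then 1 else 0)) *
      (v i.succ - v 0) = 1 := by
    have h1 : ∀ g : Fin (r + 1) → ℤ, g 0 = 0 → ∑ i : Fin r, g i.succ = ∑ i, g i := by
      intro g hg
      rw [Fin.sum_univ_succ, hg, zero_add]
    have h2 := h1 (fun i => (u i - (∑ j, u j) * (if i = i₁ then 1 else 0)) * (v i - v 0))
      (by simp)
    rw [h2]
    have h3 : ∀ i, (u i - (∑ j, u j) * (if i = i₁ then 1 else 0)) * (v i - v 0) =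
        u i * v i - u i * v 0 - (∑ j, u j) * ((if i = i₁ then 1 else 0) * (v i - v 0)) := by
      intro i
      ring
    simp_rw [h3]
    rw [Finset.sum_sub_distrib, Finset.sum_sub_distrib, hu, ← Finset.sum_mul, ← Finset.mul_sum]
    have h4 : ∑ i, ((if i = i₁ then 1 else 0) * (v i - v 0) : ℤ) = v i₁ - v 0 := by
      rw [Finset.sum_eq_single i₁]
      · simp
      · intro b _ hb
        rw [if_neg hb, zero_mul]
      · intro h
        exact absurd (Finset.mem_univ _) h
    rw [h4, hi₁]
    ring
  obtain ⟨E', hE'⟩ := mon_exists_toric (aff F' A) hT (fun i => v i.succ - v 0) _ hw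
  have hinj : ∀ p : MvPolynomial (Fin r) K', p ≠ 0 → aeval (aff F' A) p ≠ 0 := by
    intro p hp h0
    apply hp
    apply hT.1
    rw [map_zero]
    exact h0
  have hval := fun {d : ℕ} {H : MvPolynomial (Fin (r + 1)) K'} (hH : H.IsHomogeneous d)
    (h0 : H ≠ 0) => mon_value (E := E'.toQVal) (l := lin F' A) (v := v) (hl 0) hE' hinj hH h0
  obtain ⟨κ, hκ⟩ : ∃ κ : ℤ, κ = E'.toQVal (lin F' A 0) - v 0 := ⟨_, rfl⟩
  rw [← hκ] at hval
  -- the restriction
  obtain ⟨E, e, he, hEe⟩ := exists_normalise (QVal.restr F E'.toQVal) (mon_nontrivial E')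
  have hEE : ∀ a : F, E'.toQVal (algebraMap F F' a) = e * E.toQVal a := fun a => hEe a
  -- constants
  have hconst' : ∀ b : K', E'.toQVal (algebraMap K' F' b) = 0 := by
    intro b
    by_cases hb : b = 0
    · rw [hb, map_zero, QVal.zero]
    · have hC : (C b : MvPolynomial (Fin r) K') ≠ 0 := by
        rw [Ne, C_eq_zero]
        exact hb
      obtain ⟨_, s, hs, h2⟩ := hE' (C b) hC
      rw [aeval_C] at h2
      have hs0 : s = 0 := by
        have := hs
        rw [mem_support_iff, coeff_C] at this
        by_contra hne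
        exact this (if_neg (Ne.symm hne))
      have h3 : E'.toQVal (algebraMap K' F' b) = _ := h2
      rw [h3, hs0]
      simp
  have hconst : ∀ a : K, E (algebraMap K F a) = 0 := by
    intro a
    have h1 := hEE (algebraMap K F a)
    rw [hKK, hconst'] at h1
    have h2 : E.toQVal (algebraMap K F a) = 0 := by
      rcases mul_eq_zero.1 h1.symm with h3 | h3
      · omega
      · exact h3
    exact h2
  -- the values of the forms
  have hform : ∀ (d : ℕ) (G : MvPolynomial (Fin (r + 1)) K), G.IsHomogeneous d → G ≠ 0 →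
      (∀ s ∈ (sub G h).support, e * E.toQVal (ev F G) ≤ pr s v + d * κ) ∧
      ∃ s ∈ (sub G h).support, e * E.toQVal (ev F G) = pr s v + d * κ := by
    intro d G hG hG0
    rw [← hEE, mon_ev hKK htt h A hA G]
    exact hval (sub_homog hG h) (sub_ne_zero hG0 hh)
  have hzz : ∀ i, (∀ s ∈ (sub (X i : MvPolynomial (Fin (r + 1)) K) h).support,
      e * E.toQVal (zz r K F i) ≤ pr s v + κ) ∧
      ∃ s ∈ (sub (X i : MvPolynomial (Fin (r + 1)) K) h).support,
        e * E.toQVal (zz r K F i) = pr s v + κ := by
    intro i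
    have h1 := hform 1 (X i) (isHomogeneous_X K i) (X_ne_zero i)
    rw [ev_X] at h1
    simpa only [Nat.cast_one, one_mul] using h1
  have hmu : e * mu r K E = κ := by
    obtain ⟨a, ha1, ha2⟩ := exists_mu (r := r) (K := K) (F := F) (E : F → ℤ)
    apply le_antisymm
    · -- the column `i₁` of `h` is not zero
      obtain ⟨i, hi⟩ : ∃ i, h i i₁ ≠ 0 := by
        by_contra hcon
        push Not at hcon
        exact hh (Matrix.det_eq_zero_of_column_eq_zero i₁ hcon)
      have h1 : Finsupp.single i₁ 1 ∈ (sub (X i : MvPolynomial (Fin (r + 1)) K) h).support := by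
        rw [mem_support_iff]
        unfold sub
        rw [aeval_X, coeff_sum, Finset.sum_eq_single i₁]
        · rw [coeff_C_mul, coeff_X, if_pos rfl, mul_one]
          exact hi
        · intro b _ hb
          rw [coeff_C_mul, coeff_X, if_neg, mul_zero]
          intro h0
          exact hb ((Finsupp.single_left_inj one_ne_zero).1 h0)
        · intro h
          exact absurd (Finset.mem_univ _) h
      have h2 := (hzz i).1 _ h1
      rw [mon_pr_single, hi₁, zero_add] at h2
      have h3 : e * mu r K E ≤ e * E.toQVal (zz r K F i) :=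
        mul_le_mul_of_nonneg_left (ha2 i) he.le
      exact h3.trans h2
    · obtain ⟨s, _, hs⟩ := (hzz a).2
      have h1 : e * mu r K E = e * E.toQVal (zz r K F a) := by
        rw [← ha1]
      rw [h1, hs]
      have h2 : 0 ≤ pr s v := by
        unfold pr
        exact Finset.sum_nonneg fun i _ => mul_nonneg (Int.natCast_nonneg _) (hv0 i)
      linarith
  refine ⟨E, e, he, hconst, ?_, ?_⟩
  · intro d G hG hG0
    obtain ⟨s, hs, h1⟩ := (hform d G hG hG0).2
    refine ⟨s, hs, ?_⟩
    unfold hv
    have h2 : e * (E.toQVal (ev F G) - d * mu r K E) = pr s v := by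
      rw [mul_sub, h1]
      have : e * ((d : ℤ) * mu r K E) = d * κ := by
        rw [← hmu]
        ring
      rw [this]
      ring
    exact h2
  · intro a ha
    obtain ⟨y', hy'⟩ : ∃ y' : Fin c → K', y' = fun j => algebraMap K K' (y j) := ⟨_, rfl⟩
    have hy2 : IsTranscendenceBasis ℂ y' := by
      rw [hy']
      exact hy.algebraMap_comp (A := K')
    -- the extension of the form
    have h1 : OrdGE E' (form r F' y') (e * a + (e - 1)) := by
      rw [mon_form_smul] at ha
      have h2 := ordGE_ext _ (transcendence_append (F := F) y hy) E E' e he hEE _ a ha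
      rw [mon_form_smul]
      have h3 : algebraMap F F' (∏ i, (Fin.append (fun _ : Fin c => (1 : F))
          (fun j => (tt r K F j)⁻¹) i)) =
          ∏ i, (Fin.append (fun _ : Fin c => (1 : F')) (fun j => (tt r K' F' j)⁻¹) i) := by
        rw [map_prod]
        refine Finset.prod_congr rfl fun i _ => ?_
        refine Fin.addCases (fun j => ?_) (fun j => ?_) i
        · rw [Fin.append_left, Fin.append_left, map_one]
        · rw [Fin.append_right, Fin.append_right, map_inv₀, htt]
      have h4 : (fun i => KaehlerDifferential.D ℂ F' (algebraMap F F'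
          (Fin.append (fun j => algebraMap K F (y j)) (tt r K F) i))) =
          fun i => KaehlerDifferential.D ℂ F'
            (Fin.append (fun j => algebraMap K' F' (y' j)) (tt r K' F') i) := by
        funext i
        refine Fin.addCases (fun j => ?_) (fun j => ?_) i
        · rw [Fin.append_left, Fin.append_left, hKK, hy']
        · rw [Fin.append_right, Fin.append_right, htt]
      rw [h3, h4] at h2
      exact h2
    -- the change of coordinates
    have hz0 : ∀ i, zz r K' F' i ≠ 0 := fun i => zz_ne_zero i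
    have hzv : ∀ i, E'.toQVal (zz r K' F' i) = e * E.toQVal (zz r K F i) := by
      intro i
      rw [← hEE]
      congr 1
      refine Fin.cases ?_ (fun i => ?_) i
      · simp [zz]
      · simp [zz, htt]
    have hlv : ∀ i, E'.toQVal (lin F' A i) = v i + κ := by
      intro i
      obtain ⟨_, s, hs, h2⟩ := hval (isHomogeneous_X K' i) (X_ne_zero i)
      rw [aeval_X] at h2
      rw [support_X, Finset.mem_singleton] at hs
      rw [h2, hs, mon_pr_single]
      push_cast
      ring
    have h2 := formT_aff (F := F') y' hy2 A hAdet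
    have hg0 : algebraMap K' F' A.det * (∏ i, zz r K' F' i) / ∏ i, lin F' A i ≠ 0 := by
      refine div_ne_zero (mul_ne_zero ((map_ne_zero_iff _ (algebraMap K' F').injective).2 hAdet) ?_) ?_
      · exact Finset.prod_ne_zero_iff.2 fun i _ => hz0 i
      · exact Finset.prod_ne_zero_iff.2 fun i _ => hl i
    have hgv : E'.toQVal (algebraMap K' F' A.det * (∏ i, zz r K' F' i) / ∏ i, lin F' A i) =
        ∑ i, e * E.toQVal (zz r K F i) - ∑ i, (v i + κ) := by
      rw [E'.toQVal.div (mul_ne_zero ((map_ne_zero_iff _ (algebraMap K' F').injective).2 hAdet)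
        (Finset.prod_ne_zero_iff.2 fun i _ => hz0 i)) (Finset.prod_ne_zero_iff.2 fun i _ => hl i),
        E'.toQVal.mul ((map_ne_zero_iff _ (algebraMap K' F').injective).2 hAdet)
          (Finset.prod_ne_zero_iff.2 fun i _ => hz0 i), hconst',
        E'.toQVal.prod _ _ (fun i _ => hz0 i), E'.toQVal.prod _ _ (fun i _ => hl i), zero_add]
      simp_rw [hzv, hlv]
    have h3 := ordGE_smul E'.toQVal (Or.inr hgv.ge) h1
    rw [← h2] at h3
    have h4 := formT_toric y' hy2 (aff F' A) hT E' (fun i => v i.succ - v 0) hE'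
    have h5 := le_of_isOrd h4 h3
    have h6 : ∀ i, e * hv E 1 (X i : MvPolynomial (Fin (r + 1)) K) =
        e * E.toQVal (zz r K F i) - κ := by
      intro i
      have : e * hv E.toQVal 1 (X i : MvPolynomial (Fin (r + 1)) K) =
          e * (E.toQVal (zz r K F i) - ((1 : ℕ) : ℤ) * mu r K E) := by
        unfold hv
        rw [ev_X]
      rw [show e * hv E 1 (X i : MvPolynomial (Fin (r + 1)) K) = _ from this, mul_sub,
        Nat.cast_one, one_mul, hmu]
    simp_rw [h6]
    rw [Finset.sum_sub_distrib]
    rw [Finset.sum_add_distrib] at h5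
    linarith

end core

variable {c r : ℕ} {K F : Type} [Field K] [Algebra ℂ K] [Field F] [Algebra ℂ F]
    [Algebra K F] [IsScalarTower ℂ K F]
    [Algebra (MvPolynomial (Fin r) K) F] [IsScalarTower K (MvPolynomial (Fin r) K) F]
    [IsFractionRing (MvPolynomial (Fin r) K) F]

/-- The valuation of `F` defined by a one-parameter group `v` in a coordinate system `h` over a
finite extension `K'` of `K`, and the order of the canonical form along it. -/
theorem exists_monomial (hr : 0 < r) (y : Fin c → K) (hy : IsTranscendenceBasis ℂ y)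
    (K' : Type) [Field K'] [Algebra K K'] [Module.Finite K K']
    (h : Matrix (Fin (r + 1)) (Fin (r + 1)) K') (hh : h.det ≠ 0) (v : Fin (r + 1) → ℤ)
    (hv0 : ∀ i, 0 ≤ v i) (hv1 : ∃ i, v i = 0) (hv2 : ∃ u : Fin (r + 1) → ℤ, ∑ i, u i * v i = 1) :
    ∃ (E : DVal F) (e : ℤ), 0 < e ∧ (∀ a : K, E (algebraMap K F a) = 0) ∧
      (∀ (d : ℕ) (G : MvPolynomial (Fin (r + 1)) K), G.IsHomogeneous d → G ≠ 0 →
        ∃ α ∈ (sub G h).support, e * hv E d G = pr α v) ∧
      ∀ a : ℤ, OrdGE E (form r F y) a →
        e * (a + 1) ≤ ∑ i, v i -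
          ∑ i, e * hv E 1 (X i : MvPolynomial (Fin (r + 1)) K) := by
  let algK' : Algebra ℂ K' := ((algebraMap K K').comp (algebraMap ℂ K)).toAlgebra
  have htow1 : IsScalarTower ℂ K K' := IsScalarTower.of_algebraMap_eq fun x => rfl
  let F' := FractionRing (MvPolynomial (Fin r) K')
  let g : MvPolynomial (Fin r) K →+* F' :=
    (algebraMap (MvPolynomial (Fin r) K') F').comp (MvPolynomial.map (algebraMap K K'))
  have hg : Function.Injective g := by
    intro p q hpq
    exact MvPolynomial.map_injective _ (algebraMap K K').injective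
      (IsFractionRing.injective (MvPolynomial (Fin r) K') F' hpq)
  let algF : Algebra F F' := (IsFractionRing.lift hg : F →+* F').toAlgebra
  have hlift : ∀ p : MvPolynomial (Fin r) K, algebraMap F F' (algebraMap _ F p) = g p := fun p =>
    IsFractionRing.lift_algebraMap hg p
  have hKK : ∀ a : K, algebraMap F F' (algebraMap K F a) =
      algebraMap K' F' (algebraMap K K' a) := by
    intro a
    rw [IsScalarTower.algebraMap_apply K (MvPolynomial (Fin r) K) F, hlift,
      MvPolynomial.algebraMap_eq]
    simp only [g, RingHom.comp_apply, map_C]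
    rw [IsScalarTower.algebraMap_apply K' (MvPolynomial (Fin r) K') F']
    rfl
  have htt : ∀ i, algebraMap F F' (tt r K F i) = tt r K' F' i := by
    intro i
    unfold tt
    rw [hlift]
    simp only [g, RingHom.comp_apply, map_X]
  have htow2 : IsScalarTower ℂ F F' := by
    refine IsScalarTower.of_algebraMap_eq fun x => ?_
    rw [IsScalarTower.algebraMap_apply ℂ K F, hKK,
      ← IsScalarTower.algebraMap_apply ℂ K K', ← IsScalarTower.algebraMap_apply ℂ K' F']
  exact mon_core (F' := F') hKK htt y hy h hh v hv0 hv1 hv2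

end WPB
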