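import Pool.Agent.WPB.LVF
import Pool.Agent.WPB.MON
import Pool.Agent.WPB.FRO
import Pool.Agent.WNV.NOE
import Pool.Agent.WNV.LGW

open MvPolynomial WNV

set_option linter.unusedSectionVars false

namespace WPB

variable {c r N : ℕ} {K F : Type} [Field K] [Algebra ℂ K] [Field F] [Algebra ℂ F]
    [Algebra K F] [IsScalarTower ℂ K F]
    [Algebra (MvPolynomial (Fin r) K) F] [IsScalarTower K (MvPolynomial (Fin r) K) F]
    [IsFractionRing (MvPolynomial (Fin r) K) F]

/-- The exact order of a form exists if its orders are bounded above. -/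
private theorem LCS_exists_isOrd {n : ℕ} {E : F → ℤ}
    {ω : ⋀[F]^n (KaehlerDifferential ℂ F)} {a₀ M : ℤ} (h : OrdGE E ω a₀)
    (hM : ∀ a, OrdGE E ω a → a ≤ M) : ∃ a, IsOrd E ω a := by
  obtain ⟨a, ha, ha'⟩ := Int.exists_greatest_of_bdd (P := fun a => OrdGE E ω a) ⟨M, hM⟩ ⟨a₀, h⟩
  refine ⟨a, ha, fun h1 => ?_⟩
  have := ha' _ h1
  omega

/-- The canonical form has at most simple poles at valuations which are trivial on `K`. -/
private theorem LCS_form_ge (y : Fin c → K) (E : DVal F)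
    (hE : ∀ a : K, E (algebraMap K F a) = 0) : OrdGE E (form r F y) (-1) := by
  refine ordGE_log E _ fun j => ?_
  refine Fin.addCases (fun j => ?_) (fun j => ?_) j
  · left
    rw [Fin.append_left]
    exact regDiff_D (E := E.toQVal) (Or.inr (le_of_eq (hE _).symm))
  · right
    refine ⟨tt r K F j, ?_, ?_⟩
    · have := zz_ne_zero (r := r) (K := K) (F := F) j.succ
      simpa [zz] using this
    · rw [Fin.append_right]

/-- Log canonicity on the generic fibre gives an inequality for every one-parameter group over a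
finite extension. -/
theorem lc_monomial (hr : 0 < r) (y : Fin c → K) (hy : IsTranscendenceBasis ℂ y)
    {x : Fin (N + 1) → F} (hx : IsProjModel r K x)
    (hfib : ∀ E : DVal F, IsFibrePrime r K E → ∃ i, IsPrimeOf (chart x i) E)
    (D : DVal F → ℝ) (hC : IsRCartier x D)
    (hlc : ∀ E : DVal F, (∀ a : K, E (algebraMap K F a) = 0) → LcAt x (form r F y) D E)
    (S : Finset (DVal F)) (hS : ∀ E' ∈ S, IsFibrePrime r K E')
    (hD : ∀ E' : DVal F, IsFibrePrime r K E' → D E' ≠ 0 → E' ∈ S)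
    (hcor : ∀ E' : DVal F, IsFibrePrime r K E' → cor r K E' ≠ 0 → E' ∈ S)
    (K' : Type) [Field K'] [Algebra K K'] [Module.Finite K K']
    (h : Matrix (Fin (r + 1)) (Fin (r + 1)) K') (hh : h.det ≠ 0) (v : Fin (r + 1) → ℤ)
    (hv0 : ∀ i, 0 ≤ v i) (hv1 : ∃ i, v i = 0) (hv2 : ∃ u : Fin (r + 1) → ℤ, ∑ i, u i * v i = 1) :
    ∃ (E : DVal F) (e : ℤ), 0 < e ∧ (∀ a : K, E (algebraMap K F a) = 0) ∧
      (∀ (d : ℕ) (G : MvPolynomial (Fin (r + 1)) K), G.IsHomogeneous d → G ≠ 0 →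
        ∃ α ∈ (sub G h).support, e * hv E d G = pr α v) ∧
      ∑ E' ∈ S, (D E' + cor r K E') * (e * hv E (dg r K E') (Pf r K E') : ℝ) ≤
        ((∑ i, v i : ℤ) : ℝ) := by
  obtain ⟨E, e, he, hE, hG, hord⟩ := exists_monomial (F := F) hr y hy K' h hh v hv0 hv1 hv2
  refine ⟨E, e, he, hE, hG, ?_⟩
  obtain ⟨i, hi⟩ := exists_chart x hx.1 E.toQVal
  obtain ⟨P, hPp, hP⟩ := exists_centre (chart x i) E.toQVal hi
  obtain ⟨ψ, hψ⟩ := hC i P hPp
  have hψ' : ∀ E' : DVal F, IsPrimeOf (chart x i) E' →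
      (∀ a ∈ chart x i, a ≠ 0 → E a = 0 → E' a = 0) → D E' = val ψ E' := by
    intro E' h1 h2
    refine hψ E' h1 fun a ha => ?_
    obtain ⟨h3, h4⟩ := (hP a).1 ha
    exact h2 a a.2 h3 h4
  set B : ℤ := ∑ i, v i - ∑ i, e * hv E 1 (X i : MvPolynomial (Fin (r + 1)) K) with hB
  obtain ⟨a, ha⟩ : ∃ a, IsOrd E (form r F y) a := by
    refine LCS_exists_isOrd (M := max B 0) (LCS_form_ge y E hE) fun a ha => ?_
    have h1 := hord a ha
    rcases le_or_gt (a + 1) 0 with h2 | h2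
    · have := le_max_right B 0
      omega
    · have h3 : a + 1 ≤ e * (a + 1) := le_mul_of_one_le_left h2.le (by omega)
      have := le_max_left B 0
      omega
  have h1 : val ψ E ≤ a + 1 := hlc E hE i hi ψ hψ' a ha
  have h2 := hord a ha.1
  rw [local_val hr hx hfib D E hE i hi ψ hψ' S hS hD] at h1
  have h3 := sum_cor_hv hr S hS hcor E.toQVal hE
  have h4 : ∑ E' ∈ S, (cor r K E' : ℝ) * (hv E (dg r K E') (Pf r K E') : ℝ) =
      ((∑ i, hv E 1 (X i : MvPolynomial (Fin (r + 1)) K) : ℤ) : ℝ) := by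
    rw [← h3]
    push_cast
    rfl
  have h5 : ∑ E' ∈ S, (D E' + cor r K E') * (e * hv E (dg r K E') (Pf r K E') : ℝ) =
      e * (∑ E' ∈ S, D E' * (hv E (dg r K E') (Pf r K E') : ℝ) +
        ∑ E' ∈ S, (cor r K E' : ℝ) * (hv E (dg r K E') (Pf r K E') : ℝ)) := by
    rw [← Finset.sum_add_distrib, Finset.mul_sum]
    refine Finset.sum_congr rfl fun E' _ => ?_
    ring
  rw [h5, h4]
  have he' : (0 : ℝ) < e := by exact_mod_cast he
  have h6 : (e : ℝ) * (a + 1) ≤ ((∑ i, v i : ℤ) : ℝ) -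
      e * ((∑ i, hv E 1 (X i : MvPolynomial (Fin (r + 1)) K) : ℤ) : ℝ) := by
    rw [hB, ← Finset.mul_sum] at h2
    exact_mod_cast h2
  nlinarith [mul_le_mul_of_nonneg_left h1 he'.le]

theorem semi_of_lc (hr : 0 < r) (y : Fin c → K) (hy : IsTranscendenceBasis ℂ y)
    {x : Fin (N + 1) → F} (hx : IsProjModel r K x)
    (hfib : ∀ E : DVal F, IsFibrePrime r K E → ∃ i, IsPrimeOf (chart x i) E)
    (D : DVal F → ℝ) (hC : IsRCartier x D)
    (hlc : ∀ E : DVal F, (∀ a : K, E (algebraMap K F a) = 0) → LcAt x (form r F y) D E)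
    {s : ℕ} (E₀ : Fin s → DVal F) (hinj : Function.Injective E₀)
    (hE₀ : ∀ j, IsFibrePrime r K (E₀ j)) (δ : Fin s → ℝ) (hδ : ∀ j, 0 ≤ δ j)
    (hD : ∀ j, D (E₀ j) = δ j - cor r K (E₀ j))
    (hcor : ∀ E' : DVal F, IsFibrePrime r K E' → cor r K E' ≠ 0 → ∃ j, E' = E₀ j)
    (hD0 : ∀ E' : DVal F, IsFibrePrime r K E' → D E' ≠ 0 → ∃ j, E' = E₀ j)
    (τ : ℝ) (hτ0 : 0 ≤ τ) (hτ1 : τ ≤ 1) (hdeg : ∑ j, τ * δ j * (dg r K (E₀ j) : ℝ) = r + 1) :
    SemiR (fun j => Pf r K (E₀ j)) (fun j => τ * δ j) := by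
  intro K' _ _ _ h hh v
  have hPf : ∀ j, (Pf r K (E₀ j)).IsHomogeneous (dg r K (E₀ j)) ∧ Pf r K (E₀ j) ≠ 0 := by
    intro j
    have h1 := Pf_spec (E := (E₀ j).toQVal) (hE₀ j)
    exact ⟨h1.1, h1.2.2.1.ne_zero⟩
  have hdegree : ∀ (j : Fin s) (α : Fin (r + 1) →₀ ℕ), α ∈ (sub (Pf r K (E₀ j)) h).support →
      ∑ i, (α i : ℤ) = dg r K (E₀ j) := by
    intro j α hα
    have h1 := sub_homog (hPf j).1 h
    have h2 : α.degree = dg r K (E₀ j) := by
      by_contra h3
      exact (mem_support_iff.1 hα) (h1.coeff_eq_zero h3)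
    rw [← h2, Finsupp.degree_eq_sum]
    push_cast
    rfl
  -- the least entry of `v`
  obtain ⟨i₀, hi₀⟩ := Finite.exists_min v
  set m : ℤ := v i₀ with hm
  have hpr : ∀ (j : Fin s) (α : Fin (r + 1) →₀ ℕ), α ∈ (sub (Pf r K (E₀ j)) h).support →
      ∀ (g : ℤ) (w : Fin (r + 1) → ℤ), (∀ i, v i = g * w i + m) →
      pr α v = g * pr α w + m * dg r K (E₀ j) := by
    intro j α hα g w hw
    rw [← hdegree j α hα]
    unfold pr
    rw [Finset.mul_sum, Finset.mul_sum, ← Finset.sum_add_distrib]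
    refine Finset.sum_congr rfl fun i _ => ?_
    rw [hw i]
    ring
  have hsumdeg : ∀ (g : ℤ) (w : Fin (r + 1) → ℤ), (∀ i, v i = g * w i + m) →
      ((∑ i, v i : ℤ) : ℝ) = g * ((∑ i, w i : ℤ) : ℝ) + m * (r + 1) := by
    intro g w hw
    have h1 : ∑ i, v i = g * ∑ i, w i + m * (r + 1) := by
      simp only [hw]
      rw [Finset.sum_add_distrib, ← Finset.mul_sum, Finset.sum_const, Finset.card_univ,
        Fintype.card_fin]
      simp only [nsmul_eq_mul]
      push_cast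
      ring
    rw [h1]
    push_cast
    ring
  by_cases hconst : ∀ i, v i = m
  · -- `v` is constant
    have hne : ∀ j, ∃ α, α ∈ (sub (Pf r K (E₀ j)) h).support := by
      intro j
      have h1 := sub_ne_zero (hPf j).2 hh
      rw [Ne, ← support_eq_empty, ← Ne, ← Finset.nonempty_iff_ne_empty] at h1
      exact h1
    choose α hα using hne
    refine ⟨α, hα, ?_⟩
    have hw : ∀ i, v i = (0 : ℤ) * (fun _ => (0 : ℤ)) i + m := by
      intro i
      rw [hconst i]
      ring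
    rw [hsumdeg 0 (fun _ => 0) hw]
    have h1 : ∀ j, (pr (α j) v : ℝ) = m * (dg r K (E₀ j) : ℝ) := by
      intro j
      rw [hpr j (α j) (hα j) 0 (fun _ => 0) hw]
      push_cast
      ring
    simp only [h1]
    rw [← hdeg, Finset.mul_sum]
    refine le_of_eq ?_
    rw [Int.cast_zero, zero_mul, zero_add]
    refine Finset.sum_congr rfl fun j _ => ?_
    ring
  · -- the gcd of the `v i - m`
    push Not at hconst
    obtain ⟨i₁, hi₁⟩ := hconst
    obtain ⟨g, hgpos, hgdvd, u, hu⟩ : ∃ g : ℤ, 0 < g ∧ (∀ i, g ∣ v i - m) ∧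
        ∃ u : Fin (r + 1) → ℤ, ∑ i, u i * (v i - m) = g := by
      set I : Ideal ℤ := Ideal.span (Set.range fun i => v i - m) with hI
      obtain ⟨g₀, hg₀⟩ := (IsPrincipalIdealRing.principal I).principal
      have hd : ∀ i, g₀ ∣ v i - m := by
        intro i
        rw [← Ideal.mem_span_singleton, ← Ideal.submodule_span_eq, ← hg₀, hI]
        exact Ideal.subset_span ⟨i, rfl⟩
      have hg₁ : g₀ ≠ 0 := by
        rintro rfl
        have h2 := hd i₁
        rw [zero_dvd_iff] at h2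
        exact hi₁ (by omega)
      have hmem : |g₀| ∈ I := by
        have h1 : g₀ ∈ I := by
          rw [hg₀]
          exact Submodule.mem_span_singleton_self g₀
        rcases abs_choice g₀ with h2 | h2
        · rw [h2]
          exact h1
        · rw [h2]
          exact I.neg_mem h1
      refine ⟨|g₀|, abs_pos.2 hg₁, fun i => (abs_dvd _ _).2 (hd i), ?_⟩
      rw [hI, Ideal.span, Submodule.mem_span_range_iff_exists_fun] at hmem
      obtain ⟨u, hu⟩ := hmem
      exact ⟨u, by simpa [smul_eq_mul] using hu⟩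
    choose w hw using hgdvd
    have hw' : ∀ i, v i = g * w i + m := by
      intro i
      have := hw i
      omega
    have hw0 : ∀ i, 0 ≤ w i := by
      intro i
      have h1 : 0 ≤ g * w i := by
        have := hi₀ i
        have := hw i
        omega
      exact nonneg_of_mul_nonneg_right h1 hgpos
    have hw1 : ∃ i, w i = 0 := by
      refine ⟨i₀, ?_⟩
      have h1 : g * w i₀ = 0 := by
        have := hw i₀
        omega
      exact (mul_eq_zero.1 h1).resolve_left hgpos.ne'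
    have hw2 : ∃ u : Fin (r + 1) → ℤ, ∑ i, u i * w i = 1 := by
      refine ⟨u, ?_⟩
      have h1 : g * ∑ i, u i * w i = ∑ i, u i * (v i - m) := by
        rw [Finset.mul_sum]
        refine Finset.sum_congr rfl fun i _ => ?_
        rw [hw i]
        ring
      rw [hu] at h1
      exact mul_left_cancel₀ hgpos.ne' (h1.trans (mul_one g).symm)
    classical
    obtain ⟨E, e, he, hE, hG, hle⟩ := lc_monomial hr y hy hx hfib D hC hlc
      (Finset.univ.image E₀) (by
        intro E' hE'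
        obtain ⟨j, -, rfl⟩ := Finset.mem_image.1 hE'
        exact hE₀ j) (by
        intro E' h1 h2
        obtain ⟨j, rfl⟩ := hD0 E' h1 h2
        exact Finset.mem_image_of_mem _ (Finset.mem_univ j)) (by
        intro E' h1 h2
        obtain ⟨j, rfl⟩ := hcor E' h1 h2
        exact Finset.mem_image_of_mem _ (Finset.mem_univ j)) K' h hh w hw0 hw1 hw2
    rw [Finset.sum_image fun a _ b _ hab => hinj hab] at hle
    choose α hα hα' using fun j => hG _ _ (hPf j).1 (hPf j).2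
    refine ⟨α, hα, ?_⟩
    have h1 : ∀ j, (pr (α j) v : ℝ) = g * (pr (α j) w : ℝ) + m * (dg r K (E₀ j) : ℝ) := by
      intro j
      rw [hpr j (α j) (hα j) g w hw']
      push_cast
      ring
    have h2 : ∀ j, (e : ℝ) * (hv E (dg r K (E₀ j)) (Pf r K (E₀ j)) : ℝ) = (pr (α j) w : ℝ) := by
      intro j
      rw [← hα' j]
      push_cast
      ring
    have h3 : ∑ j, δ j * (pr (α j) w : ℝ) ≤ ((∑ i, w i : ℤ) : ℝ) := by
      refine le_trans (le_of_eq ?_) hle
      refine Finset.sum_congr rfl fun j _ => ?_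
      rw [h2, hD]
      ring
    have h4 : (0 : ℝ) ≤ ((∑ i, w i : ℤ) : ℝ) := by
      exact_mod_cast Finset.sum_nonneg fun i _ => hw0 i
    have h5 : τ * ∑ j, δ j * (pr (α j) w : ℝ) ≤ ((∑ i, w i : ℤ) : ℝ) := by
      calc τ * ∑ j, δ j * (pr (α j) w : ℝ) ≤ τ * ((∑ i, w i : ℤ) : ℝ) :=
            mul_le_mul_of_nonneg_left h3 hτ0
        _ ≤ 1 * ((∑ i, w i : ℤ) : ℝ) := mul_le_mul_of_nonneg_right hτ1 h4
        _ = _ := one_mul _
    rw [hsumdeg g w hw', ← hdeg]
    have h6 : ∑ j, τ * δ j * (pr (α j) v : ℝ) = g * (τ * ∑ j, δ j * (pr (α j) w : ℝ)) +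
        m * ∑ j, τ * δ j * (dg r K (E₀ j) : ℝ) := by
      rw [Finset.mul_sum, Finset.mul_sum, Finset.mul_sum, ← Finset.sum_add_distrib]
      refine Finset.sum_congr rfl fun j _ => ?_
      rw [h1]
      ring
    rw [h6]
    have h7 : (0 : ℝ) ≤ g := by exact_mod_cast hgpos.le
    have := mul_le_mul_of_nonneg_left h5 h7
    linarith

end WPB
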