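import Pool.Agent.WPB.FIS
import Pool.Agent.WPB.SUB

open MvPolynomial

namespace WPB

variable {k s : ℕ} {R S : Type*} [CommRing R] [CommRing S]

private theorem LFT_leftSub_X (A : Matrix (Fin k) (Fin k) R) (i : Fin k × Fin k) :
    leftSub A (X i) = ∑ c, C (A i.1 c) * X (c, i.2) := by
  unfold leftSub
  rw [aeval_X]

private theorem LFT_leftSub_C (A : Matrix (Fin k) (Fin k) R) (r : R) :
    leftSub A (C r) = C r := by
  unfold leftSub
  rw [aeval_C]
  rfl

private theorem LFT_map_gen (A : Matrix (Fin k) (Fin k) R) :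
    (gen k R).map (leftSub A) = A.map C * gen k R := by
  refine Matrix.ext fun i j => ?_
  rw [Matrix.map_apply, Matrix.mul_apply]
  have h1 : gen k R i j = X (i, j) := rfl
  rw [h1, LFT_leftSub_X]
  rfl

/-- `det (S T) = det S · det T`. -/
theorem leftSub_det (A : Matrix (Fin k) (Fin k) R) :
    leftSub A (gen k R).det = C A.det * (gen k R).det := by
  have h1 : leftSub A (gen k R).det = ((gen k R).map (leftSub A)).det := by
    rw [← AlgHom.coe_toRingHom, RingHom.map_det, RingHom.mapMatrix_apply]
  rw [h1, LFT_map_gen, Matrix.det_mul]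
  congr 1
  rw [← RingHom.mapMatrix_apply, ← RingHom.map_det]

private noncomputable def LFT_blk (A : Matrix (Fin k) (Fin k) R) :
    Matrix (Fin k × Fin k) (Fin k × Fin k) R :=
  fun x y => if x.2 = y.2 then A x.1 y.1 else 0

private theorem LFT_blk_transpose (A : Matrix (Fin k) (Fin k) R) :
    (LFT_blk A).transpose = LFT_blk A.transpose := by
  ext x y
  unfold LFT_blk
  rw [Matrix.transpose_apply, Matrix.transpose_apply]
  by_cases h : x.2 = y.2
  · rw [if_pos h, if_pos h.symm]
  · rw [if_neg h, if_neg (fun h' => h h'.symm)]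

private theorem LFT_linSub (A : Matrix (Fin k) (Fin k) R) : linSub (LFT_blk A) = leftSub A := by
  refine MvPolynomial.algHom_ext fun i => ?_
  rw [LFT_leftSub_X]
  unfold linSub
  rw [aeval_X, Fintype.sum_prod_type]
  refine Finset.sum_congr rfl fun c _ => ?_
  rw [Finset.sum_eq_single i.2]
  · unfold LFT_blk
    rw [if_pos rfl]
  · intro b _ hb
    unfold LFT_blk
    rw [if_neg (fun h => hb h.symm), C_0, zero_mul]
  · intro h
    exact absurd (Finset.mem_univ _) h

/-- The functional `⟨det^n, ·⟩` is `det^n`-covariant. -/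
theorem fis_leftSub (A : Matrix (Fin k) (Fin k) R) (n : ℕ)
    (q : MvPolynomial (Fin k × Fin k) R) :
    fis ((gen k R).det ^ n) (leftSub A q) = A.det ^ n * fis ((gen k R).det ^ n) q := by
  rw [← LFT_linSub, fis_linSub, LFT_blk_transpose, LFT_linSub, map_pow, leftSub_det,
    Matrix.det_transpose, mul_pow, ← C_pow, fis_C_mul_left]

theorem leftSub_gco (A : Matrix (Fin k) (Fin k) R) (f : Fin s → MvPolynomial (Fin k) R)
    (j : Fin s) (a : Fin k →₀ ℕ) :
    leftSub A (gco f j a) = gco (fun j => sub (f j) A) j a := by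
  unfold gco
  have h1 := map_sub (leftSub A) (f j) (gen k R)
  have h2 := congrArg (coeff a) h1
  rw [coeff_map] at h2
  rw [sub_sub]
  have h3 : (gen k R).map (leftSub A) = A.map (algebraMap R (MvPolynomial (Fin k × Fin k) R))
      * gen k R := by
    rw [LFT_map_gen]
    rfl
  rw [← h3]
  exact h2

theorem map_gco (φ : R →+* S) (f : Fin s → MvPolynomial (Fin k) R) (j : Fin s)
    (a : Fin k →₀ ℕ) : map φ (gco f j a) = gco (fun j => map φ (f j)) j a := by
  unfold gco
  rw [← coeff_map]
  congr 1
  show map (map φ) (sub (f j) (gen k R)) = sub (map φ (f j)) (gen k S)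
  generalize f j = p
  unfold sub
  induction p using MvPolynomial.induction_on with
  | C r =>
    rw [aeval_C, map_C, aeval_C]
    have h1 : algebraMap R (MvPolynomial (Fin k) (MvPolynomial (Fin k × Fin k) R)) r
        = C (C r) := rfl
    have h2 : algebraMap S (MvPolynomial (Fin k) (MvPolynomial (Fin k × Fin k) S)) (φ r)
        = C (C (φ r)) := rfl
    rw [h1, h2, map_C, map_C]
  | add p q hp hq => rw [_root_.map_add, _root_.map_add, _root_.map_add, _root_.map_add, hp, hq]
  | mul_X p i hp =>
    rw [_root_.map_mul, _root_.map_mul, _root_.map_mul, _root_.map_mul, hp, aeval_X, map_X,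
      aeval_X, map_sum]
    congr 1
    refine Finset.sum_congr rfl fun b _ => ?_
    have h1 : gen k R i b = X (i, b) := rfl
    have h2 : gen k S i b = X (i, b) := rfl
    rw [_root_.map_mul, map_C, map_X, h1, h2, map_X]

theorem gco_homog {f : Fin s → MvPolynomial (Fin k) R} {d : Fin s → ℕ}
    (hf : ∀ j, (f j).IsHomogeneous (d j)) (j : Fin s) (a : Fin k →₀ ℕ) :
    (gco f j a).IsHomogeneous (d j) := by
  classical
  unfold gco
  -- all coefficients of the transform of a monomial of degree `n` are homogeneous of degree `n`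
  have hprod : ∀ (t : Multiset (Fin k)) (a : Fin k →₀ ℕ),
      (coeff a ((t.map fun i => ∑ b, (C (gen k R i b) :
        MvPolynomial (Fin k) (MvPolynomial (Fin k × Fin k) R)) * X b).prod)).IsHomogeneous
        (Multiset.card t) := by
    intro t
    induction t using Multiset.induction_on with
    | empty =>
      intro a
      rw [Multiset.map_zero, Multiset.prod_zero, Multiset.card_zero, coeff_one]
      split_ifs
      · exact isHomogeneous_one _ _
      · exact isHomogeneous_zero _ _ _
    | cons i t ih =>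
      intro a
      rw [Multiset.map_cons, Multiset.prod_cons, Multiset.card_cons, Finset.sum_mul, coeff_sum]
      refine IsHomogeneous.sum _ _ _ fun b _ => ?_
      rw [mul_assoc, coeff_C_mul, coeff_X_mul', Nat.add_comm]
      refine IsHomogeneous.mul ?_ ?_
      · exact isHomogeneous_X _ (i, b)
      · split_ifs
        · exact ih _
        · exact isHomogeneous_zero _ _ _
  have hf' := hf j
  generalize f j = p at hf'
  unfold sub
  rw [aeval_def, eval₂_eq', coeff_sum]
  refine IsHomogeneous.sum _ _ _ fun u hu => ?_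
  have hdeg : ∑ i, u i = d j := by
    have := hf' (mem_support_iff.1 hu)
    rw [← this, Finsupp.weight_apply, Finsupp.sum_fintype]
    · simp
    · simp
  have h1 : (∏ i, (∑ b, (C (gen k R i b) :
        MvPolynomial (Fin k) (MvPolynomial (Fin k × Fin k) R)) * X b) ^ u i)
      = ((Finsupp.toMultiset u).map fun i => ∑ b, (C (gen k R i b) :
        MvPolynomial (Fin k) (MvPolynomial (Fin k × Fin k) R)) * X b).prod := by
    rw [Finset.prod_multiset_map_count, Finsupp.toFinset_toMultiset]
    refine (Finset.prod_subset (Finset.subset_univ u.support) fun i _ hi => ?_).symm.trans ?_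
    · rw [Finsupp.notMem_support_iff.1 hi, pow_zero]
    · refine Finset.prod_congr rfl fun i _ => ?_
      rw [Finsupp.count_toMultiset]
  have h2 : algebraMap R (MvPolynomial (Fin k) (MvPolynomial (Fin k × Fin k) R)) (coeff u p)
      = C (C (coeff u p)) := rfl
  rw [h2, coeff_C_mul, h1]
  have h3 : d j = 0 + Multiset.card (Finsupp.toMultiset u) := by
    rw [zero_add, Finsupp.card_toMultiset, Finsupp.sum_fintype _ _ (fun _ => rfl)]
    exact hdeg.symm
  rw [h3]
  exact (isHomogeneous_C _ _).mul (hprod _ _)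

theorem det_homog : (gen k R).det.IsHomogeneous k := by
  rw [Matrix.det_apply']
  refine IsHomogeneous.sum _ _ _ fun σ _ => ?_
  have h1 : (((Equiv.Perm.sign σ : ℤˣ) : ℤ) : MvPolynomial (Fin k × Fin k) R)
      = C (((Equiv.Perm.sign σ : ℤˣ) : ℤ) : R) := by
    rw [← map_intCast (C (σ := Fin k × Fin k) (R := R))]
  rw [h1]
  have h2 := (isHomogeneous_C (Fin k × Fin k) (((Equiv.Perm.sign σ : ℤˣ) : ℤ) : R)).mul
    (IsHomogeneous.prod Finset.univ (fun i => gen k R (σ i) i) (fun _ => 1)
      fun i _ => isHomogeneous_X R (σ i, i))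
  rw [Finset.sum_const, Finset.card_univ, Fintype.card_fin, smul_eq_mul, mul_one, zero_add] at h2
  exact h2

/-- `⟨det^n, det^n⟩ ≠ 0` in characteristic zero. -/
theorem fis_det_ne_zero {K : Type*} [Field K] [CharZero K] (n : ℕ) :
    fis ((gen k K).det ^ n) ((gen k K).det ^ n) ≠ 0 := by
  have h1 : map (Int.castRingHom K) (gen k ℤ).det = (gen k K).det := by
    rw [RingHom.map_det, RingHom.mapMatrix_apply]
    congr 1
    refine Matrix.ext fun i j => ?_
    rw [Matrix.map_apply]
    have h1 : gen k ℤ i j = X (i, j) := rfl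
    have h2 : gen k K i j = X (i, j) := rfl
    rw [h1, h2, map_X]
  have h2 : (gen k ℤ).det ^ n ≠ 0 := pow_ne_zero _ (Matrix.det_mvPolynomialX_ne_zero _ _)
  have h3 := fis_self_pos _ h2
  rw [← h1, ← map_pow, fis_map]
  intro h4
  have h5 : (Int.castRingHom K) (fis ((gen k ℤ).det ^ n) ((gen k ℤ).det ^ n)) = 0 := h4
  rw [eq_intCast, Int.cast_eq_zero] at h5
  omega

end WPB
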