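import Pool.Agent.WPB.EVA
import Pool.Agent.WNV.TOR
import Pool.Agent.WNV.ORP

open MvPolynomial WNV

set_option linter.unusedSectionVars false
set_option linter.unusedVariables false

namespace WPB

/-- An irreducible form has positive degree. -/
theorem prm_deg_pos {k e : ℕ} {K : Type} [Field K] {P : MvPolynomial (Fin k) K}
    (hP : P.IsHomogeneous e) (hi : Irreducible P) : 0 < e := by
  rcases Nat.eq_zero_or_pos e with h | h
  · subst h
    exfalso
    have h1 : P.totalDegree = 0 := hP.totalDegree hi.ne_zero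
    rw [totalDegree_eq_zero_iff_eq_C] at h1
    have h2 : P.coeff 0 ≠ 0 := by
      intro h3
      rw [h3, C_0] at h1
      exact hi.ne_zero h1
    apply hi.not_isUnit
    rw [h1]
    exact (isUnit_iff_ne_zero.2 h2).map (C : K →+* MvPolynomial (Fin k) K)
  · exact h

/-- Extraction of the powers of an irreducible form. -/
theorem prm_exists_pow_mul {k : ℕ} {K : Type} [Field K] {P : MvPolynomial (Fin k) K}
    (hi : Irreducible P) {G : MvPolynomial (Fin k) K} (hG : G ≠ 0) :
    ∃ (n : ℕ) (G' : MvPolynomial (Fin k) K), ¬ P ∣ G' ∧ G = P ^ n * G' := by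
  obtain ⟨n, c, hc, rfl⟩ := WfDvdMonoid.max_power_factor hG hi
  exact ⟨n, c, hc, rfl⟩

theorem prm_ne_zero {k : ℕ} {K : Type} [Field K] {P G : MvPolynomial (Fin k) K}
    (h : ¬ P ∣ G) : G ≠ 0 := by
  rintro rfl
  exact h (dvd_zero P)

theorem prm_X_irr {k : ℕ} {K : Type} [Field K] (i : Fin k) :
    Irreducible (X i : MvPolynomial (Fin k) K) :=
  (X_prime (R := K) (i := i)).irreducible

theorem prm_not_assoc_X {k : ℕ} {K : Type} [Field K] {i j : Fin k} (h : i ≠ j) :
    ¬ Associated (X i : MvPolynomial (Fin k) K) (X j) := by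
  intro ha
  have h1 := ha.dvd
  rw [X_dvd_X] at h1
  exact h h1

variable {r : ℕ} {K F : Type} [Field K] [Algebra ℂ K] [Field F] [Algebra ℂ F]
    [Algebra K F] [IsScalarTower ℂ K F]
    [Algebra (MvPolynomial (Fin r) K) F] [IsScalarTower K (MvPolynomial (Fin r) K) F]
    [IsFractionRing (MvPolynomial (Fin r) K) F]

/-- The dehomogenisation of a form. -/
noncomputable def prmDeh (G : MvPolynomial (Fin (r + 1)) K) : MvPolynomial (Fin r) K :=
  aeval (Fin.cons 1 X : Fin (r + 1) → MvPolynomial (Fin r) K) G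

theorem prm_ev_deh (G : MvPolynomial (Fin (r + 1)) K) :
    ev F G = algebraMap (MvPolynomial (Fin r) K) F (prmDeh G) := by
  have h : zz r K F = (algebraMap (MvPolynomial (Fin r) K) F) ∘
      (Fin.cons 1 X : Fin (r + 1) → MvPolynomial (Fin r) K) := by
    funext i
    refine Fin.cases ?_ (fun i => ?_) i
    · simp [zz]
    · simp [zz, tt]
  unfold ev prmDeh
  rw [h]
  exact MvPolynomial.aeval_algebraMap_apply F _ G

/-- The value along the Gauss valuation with the vector `(-1,…,-1)`. -/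
theorem prm_gauss_neg {E : QVal F} (h : IsGauss (F := F) E (QVal.triv K) (fun _ : Fin r => -1))
    (p : MvPolynomial (Fin r) K) (hp : p ≠ 0) :
    E (algebraMap _ F p) = - (p.totalDegree : ℤ) := by
  have hsum : ∀ s : Fin r →₀ ℕ, ∑ i, (s i : ℤ) * (-1) = - ((s.sum fun _ e => e : ℕ) : ℤ) := by
    intro s
    rw [Finsupp.sum_fintype _ _ (fun _ => rfl)]
    push_cast
    rw [← Finset.sum_neg_distrib]
    exact Finset.sum_congr rfl fun i _ => by ring
  obtain ⟨h1, s, hs, h2⟩ := h p hp
  apply le_antisymm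
  · obtain ⟨t, ht, ht2⟩ := Finset.exists_mem_eq_sup p.support
      (Finset.nonempty_of_ne_empty fun h => hp (support_eq_empty.1 h)) (fun s => s.sum fun _ e => e)
    have h3 := h1 t ht
    rw [QVal.triv_apply, zero_add, hsum] at h3
    have h4 : p.totalDegree = t.sum fun _ e => e := ht2
    rw [h4]
    exact h3
  · rw [h2, QVal.triv_apply, zero_add, hsum]
    have h3 : (s.sum fun _ e => e) ≤ p.totalDegree := le_totalDegree hs
    omega

/-- Every irreducible form defines a prime divisor. For `z_0` it is the Gauss valuation with the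
vector `(-1,…,-1)`, otherwise it is the order along the dehomogenisation. -/
theorem exists_ordH (hr : 0 < r) {P : MvPolynomial (Fin (r + 1)) K} {e : ℕ}
    (hP : P.IsHomogeneous e) (hi : Irreducible P) :
    ∃ E : DVal F, IsOrdH E P ∧
      (Associated P (X 0) → IsGauss (F := F) E (QVal.triv K) (fun _ : Fin r => -1)) ∧
      (¬ Associated P (X 0) → ∃ p : MvPolynomial (Fin r) K, Irreducible p ∧
        IsOrdP (F := F) E p ∧ ∀ i, Associated p (X i) → Associated P (X i.succ)) := by
  by_cases hX : Associated P (X 0)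
  · obtain ⟨E, hE⟩ := exists_toric (r := r) K F (fun _ => -1)
      (fun i => if i = ⟨0, hr⟩ then -1 else 0) (by simp)
    refine ⟨E, ?_, fun _ => hE, fun h => absurd hX h⟩
    -- the equation
    obtain ⟨w, hw⟩ := hX.symm
    obtain ⟨c, hc, hc2⟩ := MvPolynomial.isUnit_iff_eq_C_of_isReduced.1 w.isUnit
    rw [hc2] at hw
    have hc0 : c ≠ 0 := hc.ne_zero
    have he : e = 1 := by
      have h1 : (X 0 * C c : MvPolynomial (Fin (r + 1)) K).IsHomogeneous (1 + 0) :=
        (isHomogeneous_X K 0).mul (isHomogeneous_C _ c)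
      rw [hw] at h1
      exact hP.inj_right h1 hi.ne_zero
    have hevP : ev F P = algebraMap K F c := by
      rw [← hw, ev_mul, ev_X, ev_C]
      simp [zz]
    have hEP : E (ev F P) = 0 := by
      rw [hevP]
      exact gauss_const (G := E.toQVal) hE c
    have hP0 : ev F P ≠ 0 := ev_ne_zero hP hi.ne_zero
    -- the value of a form
    have key : ∀ (m d : ℕ) (G : MvPolynomial (Fin (r + 1)) K), (P ^ m * G).IsHomogeneous d →
        ¬ P ∣ G → E (ev F (P ^ m * G)) = (m : ℤ) - d := by
      intro m d G hG hPG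
      have hG0 := prm_ne_zero hPG
      have hne : P ^ m * G ≠ 0 := mul_ne_zero (pow_ne_zero m hi.ne_zero) hG0
      obtain ⟨e', -, hGe⟩ := homog_of_dvd hG hne (Dvd.intro_left _ rfl)
      have hd : d = m + e' := by
        have h1 := (hP.pow m).mul hGe
        rw [he] at h1
        have := hG.inj_right h1 hne
        omega
      have hX0 : ¬ X 0 ∣ G := fun h => hPG (hX.dvd.trans h)
      obtain ⟨p, hp0, hpd, hevG, -⟩ := exists_dehomogenize (F := F) hGe hG0 hX0
      have hG1 : ev F G ≠ 0 := ev_ne_zero hGe hG0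
      rw [ev_mul, ev_pow, E.toQVal.mul (pow_ne_zero m hP0) hG1, E.toQVal.pow hP0, hEP, hevG,
        prm_gauss_neg (E := E.toQVal) hE p hp0, hpd]
      omega
    intro m n d G H hG hH hPG hPH
    have hG1 : ev F (P ^ m * G) ≠ 0 := ev_ne_zero hG
      (mul_ne_zero (pow_ne_zero m hi.ne_zero) (prm_ne_zero hPG))
    have hH1 : ev F (P ^ n * H) ≠ 0 := ev_ne_zero hH
      (mul_ne_zero (pow_ne_zero n hi.ne_zero) (prm_ne_zero hPH))
    rw [E.toQVal.div hG1 hH1, key m d G hG hPG, key n d H hH hPH]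
    ring
  · have hX0 : ¬ (X 0 : MvPolynomial (Fin (r + 1)) K) ∣ P := by
      intro h
      exact hX (((prm_X_irr 0).dvd_irreducible_iff_associated hi).1 h).symm
    have he : 0 < e := prm_deg_pos hP hi
    obtain ⟨p, hp0, hpd, hevP, hpi, hpX, hpdvd⟩ := exists_dehomogenize (F := F) hP hi.ne_zero hX0
    obtain ⟨E, hE⟩ := exists_ordP F p (hpi hi he)
    refine ⟨E, ?_, fun h => absurd h hX, fun _ => ⟨p, hpi hi he, hE, fun i hi' => hpX i hi' he⟩⟩
    have key : ∀ (m d : ℕ) (G : MvPolynomial (Fin (r + 1)) K), (P ^ m * G).IsHomogeneous d →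
        ¬ P ∣ G → E (ev F (P ^ m * G)) = (m : ℤ) := by
      intro m d G hG hPG
      have hG0 := prm_ne_zero hPG
      have hne : P ^ m * G ≠ 0 := mul_ne_zero (pow_ne_zero m hi.ne_zero) hG0
      obtain ⟨e', -, hGe⟩ := homog_of_dvd hG hne (Dvd.intro_left _ rfl)
      have hG1 : ev F G ≠ 0 := ev_ne_zero hGe hG0
      have hq := prm_ev_deh (F := F) G
      have hq0 : prmDeh G ≠ 0 := by
        intro h
        rw [h, map_zero] at hq
        exact hG1 hq
      have hpq : ¬ p ∣ prmDeh G := by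
        rw [hpdvd G e' (prmDeh G) hGe hq]
        exact hPG
      rw [ev_mul, ev_pow, hevP, hq, ← map_pow, ← map_mul]
      exact hE m (prmDeh G) hq0 hpq
    intro m n d G H hG hH hPG hPH
    have hG1 : ev F (P ^ m * G) ≠ 0 := ev_ne_zero hG
      (mul_ne_zero (pow_ne_zero m hi.ne_zero) (prm_ne_zero hPG))
    have hH1 : ev F (P ^ n * H) ≠ 0 := ev_ne_zero hH
      (mul_ne_zero (pow_ne_zero n hi.ne_zero) (prm_ne_zero hPH))
    rw [E.toQVal.div hG1 hH1, key m d G hG hPG, key n d H hH hPH]

theorem ordH_unique {E E' : QVal F} {P : MvPolynomial (Fin (r + 1)) K} {e : ℕ}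
    (hP : P.IsHomogeneous e) (hi : Irreducible P) (h : IsOrdH E P) (h' : IsOrdH E' P) (f : F) :
    E f = E' f := by
  obtain ⟨d, G, H, hG, hH, hH0, rfl⟩ := exists_forms (r := r) (K := K) f
  by_cases hG0 : G = 0
  · subst hG0
    have h0 : ev F (0 : MvPolynomial (Fin (r + 1)) K) = 0 := map_zero _
    rw [h0, zero_div, E.zero, E'.zero]
  · obtain ⟨m, G', hG', rfl⟩ := prm_exists_pow_mul hi hG0
    obtain ⟨n, H', hH', rfl⟩ := prm_exists_pow_mul hi hH0
    rw [h m n d G' H' hG hH hG' hH', h' m n d G' H' hG hH hG' hH']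

theorem prm_not_dvd_one {P : MvPolynomial (Fin (r + 1)) K} (hi : Irreducible P) : ¬ P ∣ 1 :=
  fun h => hi.not_isUnit (isUnit_of_dvd_one h)

theorem ordH_const {E : QVal F} {P : MvPolynomial (Fin (r + 1)) K} {e : ℕ}
    (hP : P.IsHomogeneous e) (hi : Irreducible P) (h : IsOrdH E P) (a : K) :
    E (algebraMap K F a) = 0 := by
  by_cases ha : a = 0
  · rw [ha, map_zero, E.zero]
  · have h1 := h 0 0 0 (C a) 1
      (by rw [pow_zero, one_mul]; exact isHomogeneous_C _ a)
      (by rw [pow_zero, one_mul]; exact isHomogeneous_one _ _)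
      (fun hd => hi.not_isUnit (isUnit_of_dvd_unit hd
        ((isUnit_iff_ne_zero.2 ha).map (C : K →+* MvPolynomial (Fin (r + 1)) K))))
      (prm_not_dvd_one hi)
    have h2 : ev F (1 : MvPolynomial (Fin (r + 1)) K) = 1 := map_one _
    rw [pow_zero, one_mul, one_mul, ev_C, h2, div_one] at h1
    simpa using h1

theorem ordH_assoc {E : QVal F} {P Q : MvPolynomial (Fin (r + 1)) K} {e e' : ℕ}
    (hP : P.IsHomogeneous e) (hi : Irreducible P) (h : IsOrdH E P)
    (hQ : Q.IsHomogeneous e') (hi' : Irreducible Q) (h' : IsOrdH E Q) : Associated P Q := by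
  by_contra hna
  have hPQ : ¬ P ∣ Q ^ e := by
    intro hd
    exact hna ((hi.dvd_irreducible_iff_associated hi').1 (hi.prime.dvd_of_dvd_pow hd))
  have hQP : ¬ Q ∣ P ^ e' := by
    intro hd
    exact hna ((hi'.dvd_irreducible_iff_associated hi).1 (hi'.prime.dvd_of_dvd_pow hd)).symm
  have h1 := h e' 0 (e * e') 1 (Q ^ e)
    (by rw [mul_one]; exact hP.pow e')
    (by rw [pow_zero, one_mul, mul_comm e e']; exact hQ.pow e)
    (prm_not_dvd_one hi) hPQ
  have h2 := h' 0 e (e * e') (P ^ e') 1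
    (by rw [pow_zero, one_mul]; exact hP.pow e')
    (by rw [mul_one, mul_comm e e']; exact hQ.pow e)
    hQP (prm_not_dvd_one hi')
  rw [mul_one, pow_zero, one_mul] at h1 h2
  rw [h1] at h2
  have h3 := prm_deg_pos hP hi
  have h4 := prm_deg_pos hQ hi'
  omega

/-- The choice of the equation. -/
theorem Pf_spec {E : QVal F} (h : IsFibrePrime r K E) :
    (Pf r K E).IsHomogeneous (dg r K E) ∧ 0 < dg r K E ∧ Irreducible (Pf r K E) ∧
      IsOrdH E (Pf r K E) := by
  have h0 : Pf r K E = h.choose := by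
    unfold Pf
    rw [dif_pos h]
  obtain ⟨d, h1, h2, h3⟩ := h.choose_spec
  rw [← h0] at h1 h2 h3
  have hd : dg r K E = d := h1.totalDegree h2.ne_zero
  rw [hd]
  exact ⟨h1, prm_deg_pos h1 h2, h2, h3⟩

/-- The normalised value of a form along a prime divisor is the multiplicity of its equation. -/
theorem hv_ordH (hr : 0 < r) {E : QVal F} {P : MvPolynomial (Fin (r + 1)) K} {e : ℕ}
    (hP : P.IsHomogeneous e) (hi : Irreducible P) (h : IsOrdH E P) (m d : ℕ)
    (G : MvPolynomial (Fin (r + 1)) K) (hd : (P ^ m * G).IsHomogeneous d) (hG : ¬ P ∣ G) :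
    hv E d (P ^ m * G) = m := by
  -- a coordinate which is not divisible by `P`
  obtain ⟨i, hPi⟩ : ∃ i : Fin (r + 1), ¬ P ∣ (X i : MvPolynomial (Fin (r + 1)) K) := by
    by_contra hcon
    push Not at hcon
    have h0 := (hi.dvd_irreducible_iff_associated (prm_X_irr 0)).1 (hcon 0)
    have h1 := (hi.dvd_irreducible_iff_associated (prm_X_irr ⟨1, by omega⟩)).1 (hcon ⟨1, by omega⟩)
    exact prm_not_assoc_X (K := K) (i := (0 : Fin (r + 1))) (j := ⟨1, by omega⟩)
      (by intro h; simp [Fin.ext_iff] at h) (h0.symm.trans h1)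
  have hz : ∀ j : Fin (r + 1), zz r K F j ≠ 0 := fun j => zz_ne_zero j
  have hge : ∀ j, E (zz r K F i) ≤ E (zz r K F j) := by
    intro j
    obtain ⟨n, G', hG', hj⟩ := prm_exists_pow_mul hi (X_ne_zero (R := K) j)
    have h1 := h n 0 1 G' (X i) (by rw [← hj]; exact isHomogeneous_X K j)
      (by rw [pow_zero, one_mul]; exact isHomogeneous_X K i) hG' hPi
    rw [← hj, pow_zero, one_mul, ev_X, ev_X, E.div (hz j) (hz i)] at h1
    push_cast at h1
    omega
  have hmu : mu r K E = E (zz r K F i) := by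
    unfold mu
    apply le_antisymm
    · exact Finset.inf'_le _ (Finset.mem_univ i)
    · exact Finset.le_inf' _ _ fun j _ => hge j
  have hXd : ¬ P ∣ (X i ^ d : MvPolynomial (Fin (r + 1)) K) := fun hd' =>
    hPi (hi.prime.dvd_of_dvd_pow hd')
  have h1 := h m 0 d G (X i ^ d) hd
    (by
      rw [pow_zero, one_mul]
      have := (isHomogeneous_X K i).pow d
      rwa [one_mul] at this) hG hXd
  have hG1 : ev F (P ^ m * G) ≠ 0 := ev_ne_zero hd
      (mul_ne_zero (pow_ne_zero m hi.ne_zero) (prm_ne_zero hG))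
  rw [pow_zero, one_mul, ev_pow, ev_X, E.div hG1 (pow_ne_zero d (hz i)), E.pow (hz i)] at h1
  unfold hv
  rw [hmu, h1]
  simp

end WPB
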