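import Pool.Agent.WPB.HVF
import Pool.Agent.WPB.PRM
import Pool.Agent.WNV.FNP
import Pool.Agent.WNV.NOE

open MvPolynomial WNV

set_option linter.unusedSectionVars false

namespace WPB

variable {r N : ℕ} {K F : Type} [Field K] [Algebra ℂ K] [Field F] [Algebra ℂ F]
    [Algebra K F] [IsScalarTower ℂ K F]
    [Algebra (MvPolynomial (Fin r) K) F] [IsScalarTower K (MvPolynomial (Fin r) K) F]
    [IsFractionRing (MvPolynomial (Fin r) K) F]

private theorem MDL_gen_mem (x : Fin (N + 1) → F) (i j : Fin (N + 1)) : x j / x i ∈ chart x i :=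
  Algebra.subset_adjoin ⟨j, rfl⟩

/-- nonnegativity on a chart can be checked on the generators -/
private theorem MDL_nonneg (x : Fin (N + 1) → F) (i : Fin (N + 1)) (E : QVal F)
    (h : ∀ j, Ge E 0 (x j / x i)) : ∀ a ∈ chart x i, a ≠ 0 → 0 ≤ E a := by
  have key : ∀ a ∈ chart x i, Ge E 0 a := by
    intro a ha
    induction ha using Algebra.adjoin_induction with
    | mem y hy =>
      obtain ⟨j, rfl⟩ := hy
      exact h j
    | algebraMap c => exact E.ge_const c
    | add a b _ _ ha hb => exact E.ge_add ha hb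
    | mul a b _ _ ha hb =>
      have := E.ge_mul ha hb
      rwa [zero_add] at this
  intro a ha ha0
  rcases key a ha with h | h
  · exact absurd h ha0
  · exact h

private theorem MDL_shift (x : Fin (N + 1) → F) (hx : ∀ j, x j ≠ 0) (i i' : Fin (N + 1)) (a : F)
    (ha : a ∈ chart x i') : ∃ M : ℕ, a * (x i' / x i) ^ M ∈ chart x i := by
  have hw : x i' / x i ∈ chart x i := MDL_gen_mem x i i'
  induction ha using Algebra.adjoin_induction with
  | mem y hy =>
    obtain ⟨j, rfl⟩ := hy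
    refine ⟨1, ?_⟩
    have : x j / x i' * (x i' / x i) ^ 1 = x j / x i := by
      rw [pow_one]
      field_simp [hx i, hx i']
    simp only
    rw [this]
    exact MDL_gen_mem x i j
  | algebraMap c => exact ⟨0, by rw [pow_zero, mul_one]; exact Subalgebra.algebraMap_mem _ c⟩
  | add a b _ _ ha hb =>
    obtain ⟨M, hM⟩ := ha
    obtain ⟨M', hM'⟩ := hb
    refine ⟨M + M', ?_⟩
    have : (a + b) * (x i' / x i) ^ (M + M') = a * (x i' / x i) ^ M * (x i' / x i) ^ M'
        + b * (x i' / x i) ^ M' * (x i' / x i) ^ M := by ring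
    rw [this]
    exact add_mem (mul_mem hM (pow_mem hw _)) (mul_mem hM' (pow_mem hw _))
  | mul a b _ _ ha hb =>
    obtain ⟨M, hM⟩ := ha
    obtain ⟨M', hM'⟩ := hb
    refine ⟨M + M', ?_⟩
    have : (a * b) * (x i' / x i) ^ (M + M') = (a * (x i' / x i) ^ M)
        * (b * (x i' / x i) ^ M') := by ring
    rw [this]
    exact mul_mem hM hM'

/-- Charts which agree near the centre have the same prime. -/
theorem prime_change (x : Fin (N + 1) → F) (hx : ∀ j, x j ≠ 0) (i i' : Fin (N + 1)) (E : DVal F)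
    (h : IsPrimeOf (chart x i') E) (h0 : E (x i / x i') = 0) : IsPrimeOf (chart x i) E := by
  have hw0 : x i' / x i ≠ 0 := div_ne_zero (hx i') (hx i)
  have hw : E (x i' / x i) = 0 := by
    have h1 := E.toQVal.inv (x i / x i')
    rw [inv_div, h0] at h1
    simpa using h1
  refine ⟨?_, ?_⟩
  · refine MDL_nonneg x i E.toQVal fun j => Or.inr ?_
    have h1 := h.1 _ (MDL_gen_mem x i' j) (div_ne_zero (hx j) (hx i'))
    have h2 : x j / x i = (x j / x i') * (x i' / x i) := by field_simp [hx i, hx i']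
    rw [h2, E.toQVal.mul (div_ne_zero (hx j) (hx i')) hw0, hw, add_zero]
    exact h1
  · intro f hf hfE
    obtain ⟨a, ha, b, hb, hb0, hEb, hab⟩ := h.2 f hf hfE
    obtain ⟨M, hM⟩ := MDL_shift x hx i i' a ha
    obtain ⟨M', hM'⟩ := MDL_shift x hx i i' b hb
    have hmem : x i' / x i ∈ chart x i := MDL_gen_mem x i i'
    refine ⟨a * (x i' / x i) ^ M * (x i' / x i) ^ M', mul_mem hM (pow_mem hmem _),
      b * (x i' / x i) ^ M' * (x i' / x i) ^ M, mul_mem hM' (pow_mem hmem _),
      mul_ne_zero (mul_ne_zero hb0 (pow_ne_zero _ hw0)) (pow_ne_zero _ hw0), ?_, ?_⟩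
    · rw [E.toQVal.mul (mul_ne_zero hb0 (pow_ne_zero _ hw0)) (pow_ne_zero _ hw0),
        E.toQVal.mul hb0 (pow_ne_zero _ hw0), E.toQVal.pow hw0, E.toQVal.pow hw0, hw, hEb]
      ring
    · rw [hab]
      have e1 : a * (x i' / x i) ^ M * (x i' / x i) ^ M'
          = a * ((x i' / x i) ^ M * (x i' / x i) ^ M') := by ring
      have e2 : b * (x i' / x i) ^ M' * (x i' / x i) ^ M
          = b * ((x i' / x i) ^ M * (x i' / x i) ^ M') := by ring
      rw [e1, e2, mul_div_mul_right _ _ (mul_ne_zero (pow_ne_zero _ hw0) (pow_ne_zero _ hw0))]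

private theorem MDL_ne {x : Fin (N + 1) → F} (hx0 : ∀ j, x j ≠ 0) {h : F}
    {G : Fin (N + 1) → MvPolynomial (Fin (r + 1)) K}
    (hxG : ∀ j, x j = h * ev F (G j)) (j : Fin (N + 1)) :
    h ≠ 0 ∧ ev F (G j) ≠ 0 ∧ G j ≠ 0 := by
  have h1 := hx0 j
  rw [hxG j] at h1
  refine ⟨left_ne_zero_of_mul h1, right_ne_zero_of_mul h1, ?_⟩
  intro h2
  apply right_ne_zero_of_mul h1
  rw [h2]
  simp [ev]

private theorem MDL_div {x : Fin (N + 1) → F} (hx0 : ∀ j, x j ≠ 0) {h : F}
    {G : Fin (N + 1) → MvPolynomial (Fin (r + 1)) K}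
    (hxG : ∀ j, x j = h * ev F (G j)) (j i : Fin (N + 1)) :
    x j / x i = ev F (G j) / ev F (G i) := by
  rw [hxG j, hxG i, mul_div_mul_left _ _ (MDL_ne hx0 hxG j).1]

private theorem MDL_ev_add (G H : MvPolynomial (Fin (r + 1)) K) :
    ev F (G + H) = ev F G + ev F H := by
  simp [ev]

/-- An element of a chart is a quotient of forms. -/
theorem chart_forms {x : Fin (N + 1) → F} (hx0 : ∀ j, x j ≠ 0) {h : F} {d : ℕ}
    {G : Fin (N + 1) → MvPolynomial (Fin (r + 1)) K} (hG : ∀ j, (G j).IsHomogeneous d)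
    (hxG : ∀ j, x j = h * ev F (G j)) (i : Fin (N + 1)) (b : F) (hb : b ∈ chart x i) :
    ∃ (M : ℕ) (B : MvPolynomial (Fin (r + 1)) K), B.IsHomogeneous (d * M) ∧
      b = ev F B / ev F (G i) ^ M := by
  have hi := (MDL_ne hx0 hxG i).2.1
  induction hb using Algebra.adjoin_induction with
  | mem y hy =>
    obtain ⟨j, rfl⟩ := hy
    refine ⟨1, G j, by simpa using hG j, ?_⟩
    rw [pow_one]
    exact MDL_div hx0 hxG j i
  | algebraMap c =>
    refine ⟨0, C (algebraMap ℂ K c), by simpa using isHomogeneous_C _ _, ?_⟩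
    rw [ev_C, pow_zero, div_one, ← IsScalarTower.algebraMap_apply ℂ K F]
  | add a b _ _ ha hb =>
    obtain ⟨M, A, hA, hA'⟩ := ha
    obtain ⟨M', B, hB, hB'⟩ := hb
    refine ⟨M + M', A * G i ^ M' + B * G i ^ M, ?_, ?_⟩
    · have h1 := hA.mul ((hG i).pow M')
      have h2 := hB.mul ((hG i).pow M)
      have e1 : d * (M + M') = d * M + d * M' := by ring
      have e2 : d * (M + M') = d * M' + d * M := by ring
      exact (e1 ▸ h1).add (e2 ▸ h2)
    · rw [MDL_ev_add, ev_mul, ev_mul, ev_pow, ev_pow, hA', hB', pow_add]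
      have h1 : ev F (G i) ^ M ≠ 0 := pow_ne_zero _ hi
      have h2 : ev F (G i) ^ M' ≠ 0 := pow_ne_zero _ hi
      field_simp
  | mul a b _ _ ha hb =>
    obtain ⟨M, A, hA, hA'⟩ := ha
    obtain ⟨M', B, hB, hB'⟩ := hb
    refine ⟨M + M', A * B, ?_, ?_⟩
    · have e1 : d * (M + M') = d * M + d * M' := by ring
      exact e1 ▸ hA.mul hB
    · rw [ev_mul, hA', hB', pow_add, div_mul_div_comm]

/-- the component of degree `M` of a relation -/
private theorem MDL_comp {d M : ℕ} (G : Fin (N + 1) → MvPolynomial (Fin (r + 1)) K)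
    (hG : ∀ j, (G j).IsHomogeneous d) (P : MvPolynomial (Fin (r + 1)) K) (hP : P.IsHomogeneous M)
    (hP0 : P ≠ 0) (hmem : P ∈ Ideal.span (Set.range G)) :
    ∃ (e : ℕ) (c : Fin (N + 1) → MvPolynomial (Fin (r + 1)) K), e + d = M ∧
      (∀ j, (c j).IsHomogeneous e) ∧ P = ∑ j, c j * G j := by
  obtain ⟨c, hc⟩ := (Ideal.mem_span_range_iff_exists_fun).1 hmem
  have key : ∀ (p : MvPolynomial (Fin (r + 1)) K) (j : Fin (N + 1)),
      homogeneousComponent M (p * G j)
        = if d ≤ M then homogeneousComponent (M - d) p * G j else 0 := by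
    intro p j
    have h1 : p * G j = ∑ k ∈ Finset.range (p.totalDegree + 1), homogeneousComponent k p * G j := by
      rw [← Finset.sum_mul, sum_homogeneousComponent]
    have h2 : ∀ k, homogeneousComponent M (homogeneousComponent k p * G j)
        = if k + d = M then homogeneousComponent k p * G j else 0 := by
      intro k
      have h3 : (homogeneousComponent k p * G j).IsHomogeneous (k + d) :=
        (homogeneousComponent_isHomogeneous k p).mul (hG j)
      rw [homogeneousComponent_of_mem ((mem_homogeneousSubmodule _ _).2 h3)]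
      simp only [eq_comm]
    conv_lhs => rw [h1]
    rw [map_sum, Finset.sum_congr rfl fun k _ => h2 k]
    by_cases hd : d ≤ M
    · rw [if_pos hd]
      by_cases hM : M - d ∈ Finset.range (p.totalDegree + 1)
      · rw [Finset.sum_eq_single (M - d)]
        · rw [if_pos (by omega)]
        · intro k _ hk
          rw [if_neg (by omega)]
        · intro h
          exact absurd hM h
      · rw [Finset.sum_eq_zero]
        · have h4 : homogeneousComponent (M - d) p = 0 := by
            apply homogeneousComponent_eq_zero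
            rw [Finset.mem_range] at hM
            omega
          rw [h4, zero_mul]
        · intro k hk
          rw [if_neg]
          rintro h5
          apply hM
          have : M - d = k := by omega
          rw [this]
          exact hk
    · rw [if_neg hd, Finset.sum_eq_zero]
      intro k _
      rw [if_neg (by omega)]
  have h1 : P = ∑ j, homogeneousComponent M (c j * G j) := by
    rw [← map_sum, hc, homogeneousComponent_of_mem ((mem_homogeneousSubmodule _ _).2 hP)]
    simp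
  by_cases hd : d ≤ M
  · refine ⟨M - d, fun j => homogeneousComponent (M - d) (c j), by omega,
      fun j => homogeneousComponent_isHomogeneous _ _, ?_⟩
    rw [h1]
    exact Finset.sum_congr rfl fun j _ => by rw [key, if_pos hd]
  · exfalso
    apply hP0
    rw [h1]
    exact Finset.sum_eq_zero fun j _ => by rw [key, if_neg hd]

/-- A valuation which is trivial on `K` has its centre on the chart `i` if and only if the form
`G i` has the normalised value `0`; some chart has this property. -/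
theorem chart_centre {x : Fin (N + 1) → F} (hx0 : ∀ j, x j ≠ 0) {h : F} {d : ℕ}
    {G : Fin (N + 1) → MvPolynomial (Fin (r + 1)) K} (hG : ∀ j, (G j).IsHomogeneous d)
    (hxG : ∀ j, x j = h * ev F (G j))
    (hbp : ∀ i, ∃ M : ℕ, X i ^ M ∈ Ideal.span (Set.range G))
    (E : QVal F) (hE : ∀ a : K, E (algebraMap K F a) = 0) :
    (∃ i, hv E d (G i) = 0) ∧
      ∀ i, (∀ a ∈ chart x i, a ≠ 0 → 0 ≤ E a) ↔ hv E d (G i) = 0 := by
  have hnn : ∀ j, 0 ≤ hv E d (G j) := fun j => hv_nonneg hE (hG j) (MDL_ne hx0 hxG j).2.2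
  have hdiv : ∀ i j, E (x j / x i) = hv E d (G j) - hv E d (G i) := by
    intro i j
    rw [MDL_div hx0 hxG j i, E.div (MDL_ne hx0 hxG j).2.1 (MDL_ne hx0 hxG i).2.1]
    unfold hv
    ring
  have hex : ∃ i, hv E d (G i) = 0 := by
    by_contra hcon
    push Not at hcon
    have hpos : ∀ j, 1 ≤ hv E d (G j) := fun j => by
      have h1 := hnn j
      have h2 := hcon j
      omega
    obtain ⟨a, ha, -⟩ := exists_mu (r := r) (K := K) (F := F) E
    obtain ⟨M, hM⟩ := hbp a
    have hXh : (X a ^ M : MvPolynomial (Fin (r + 1)) K).IsHomogeneous M := by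
      simpa using (isHomogeneous_X K a).pow M
    obtain ⟨e, c, heM, hc, hs⟩ := MDL_comp G hG _ hXh (pow_ne_zero _ (X_ne_zero a)) hM
    have hz : zz r K F a ≠ 0 := zz_ne_zero a
    have h1 : zz r K F a ^ M = ∑ j, ev F (c j * G j) := by
      have := congrArg (ev F) hs
      rw [ev_pow, ev_X] at this
      rw [this]
      simp only [ev, map_sum]
    have h2 : Ge E (M * mu r K E + 1) (zz r K F a ^ M) := by
      rw [h1]
      refine E.ge_sum _ _ fun j _ => ?_
      by_cases hcj : c j = 0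
      · left
        rw [hcj, zero_mul]
        simp [ev]
      · right
        have h3 := hv_mul (E := E) (F := F) (hc j) (hG j) hcj (MDL_ne hx0 hxG j).2.2
        have h4 := hv_nonneg hE (hc j) hcj
        have h5 := hpos j
        rw [heM] at h3
        have h6 : hv E M (c j * G j) = E (ev F (c j * G j)) - M * mu r K E := rfl
        omega
    rcases h2 with h2 | h2
    · exact pow_ne_zero _ hz h2
    · rw [E.pow hz, ha] at h2
      omega
  refine ⟨hex, fun i => ⟨fun hi => ?_, fun hi => ?_⟩⟩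
  · obtain ⟨i0, hi0⟩ := hex
    have h1 := hi _ (MDL_gen_mem x i i0) (div_ne_zero (hx0 i0) (hx0 i))
    rw [hdiv, hi0] at h1
    have h2 := hnn i
    omega
  · refine MDL_nonneg x i E fun j => Or.inr ?_
    rw [hdiv, hi, sub_zero]
    exact hnn j

/-- the order along `P` of a quotient of forms whose denominator is not divisible by `P` -/
private theorem MDL_ord {E : F → ℤ} {P : MvPolynomial (Fin (r + 1)) K} (hi : Irreducible P)
    (h : IsOrdH E P) {n : ℕ} {A B : MvPolynomial (Fin (r + 1)) K} (hA : A.IsHomogeneous n)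
    (hB : B.IsHomogeneous n) (hA0 : A ≠ 0) (hPB : ¬ P ∣ B) :
    0 ≤ E (ev F A / ev F B) ∧ (¬ P ∣ A → E (ev F A / ev F B) = 0) := by
  refine ⟨?_, fun hPA => ?_⟩
  · obtain ⟨m, A', hA', hAA⟩ := WfDvdMonoid.max_power_factor hA0 hi
    have h1 := h m 0 n A' B (hAA ▸ hA) (by simpa using hB) hA' hPB
    rw [← hAA, pow_zero, one_mul] at h1
    rw [h1]
    simp
  · have h1 := h 0 0 n A B (by simpa using hA) (by simpa using hB) hPA hPB
    rw [pow_zero, one_mul, one_mul] at h1
    rw [h1]
    simp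

/-- forms of value `0` are not divisible by forms of positive value -/
private theorem MDL_ndvd {E : QVal F} (hE : ∀ a : K, E (algebraMap K F a) = 0) {e d : ℕ}
    {P G : MvPolynomial (Fin (r + 1)) K} (hP : P.IsHomogeneous e) (hG : G.IsHomogeneous d)
    (hG0 : G ≠ 0) (hpos : 0 < hv E e P) (h0 : hv E d G = 0) : ¬ P ∣ G := by
  rintro ⟨Q, hQ⟩
  have hP0 : P ≠ 0 := by
    rintro rfl
    exact hG0 (by rw [hQ, zero_mul])
  have hQ0 : Q ≠ 0 := by
    rintro rfl
    exact hG0 (by rw [hQ, mul_zero])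
  obtain ⟨q, -, hq⟩ := homog_of_dvd hG hG0 (Dvd.intro_left P hQ.symm)
  have h1 : d = e + q := by
    have h2 := hP.mul hq
    rw [← hQ] at h2
    exact hG.inj_right h2 hG0
  have h3 := hv_mul (E := E) (F := F) hP hq hP0 hQ0
  rw [← hQ, ← h1, h0] at h3
  have h4 := hv_nonneg hE hq hQ0
  omega

/-- the key comparison of a valuation and a prime divisor through its centre -/
private theorem MDL_key {x : Fin (N + 1) → F} (hx0 : ∀ j, x j ≠ 0) {h : F} {d : ℕ}
    {G : Fin (N + 1) → MvPolynomial (Fin (r + 1)) K} (hG : ∀ j, (G j).IsHomogeneous d)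
    (hxG : ∀ j, x j = h * ev F (G j)) (i : Fin (N + 1))
    {E : QVal F} (hE : ∀ a : K, E (algebraMap K F a) = 0) (hi : hv E d (G i) = 0)
    {P : MvPolynomial (Fin (r + 1)) K} {e : ℕ} (hP : P.IsHomogeneous e) (hPi : Irreducible P)
    (hpos : 0 < hv E e P) {E' : F → ℤ} (hE' : IsOrdH E' P) :
    ∀ a ∈ chart x i, a ≠ 0 → 0 ≤ E' a ∧ (E a = 0 → E' a = 0) := by
  intro a ha ha0
  obtain ⟨M, A, hA, hA'⟩ := chart_forms hx0 hG hxG i a ha
  have hGi := MDL_ne hx0 hxG i
  have hA0 : A ≠ 0 := by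
    rintro rfl
    apply ha0
    rw [hA']
    simp [ev]
  have hevA : ev F A ≠ 0 := ev_ne_zero hA hA0
  have hPG : ¬ P ∣ G i := MDL_ndvd hE hP (hG i) hGi.2.2 hpos hi
  have hPGM : ¬ P ∣ G i ^ M := fun hd => hPG (hPi.prime.dvd_of_dvd_pow hd)
  have h1 := MDL_ord hPi hE' hA ((hG i).pow M) hA0 hPGM
  rw [ev_pow, ← hA'] at h1
  refine ⟨h1.1, fun hEa => h1.2 ?_⟩
  refine MDL_ndvd hE hP hA hA0 hpos ?_
  have h2 : E a = hv E (d * M) A := by
    rw [hA', E.div hevA (pow_ne_zero _ hGi.2.1), E.pow hGi.2.1]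
    have h3 : E (ev F (G i)) = d * mu r K E := by
      have : hv E d (G i) = E (ev F (G i)) - d * mu r K E := rfl
      omega
    rw [h3]
    unfold hv
    push_cast
    ring
  rw [← h2, hEa]

/-- a form of positive value has an irreducible factor of positive value -/
private theorem MDL_factor {E : QVal F}
    (s : Multiset (MvPolynomial (Fin (r + 1)) K))
    (hs : ∀ P ∈ s, Irreducible P ∧ ∃ e, 0 < e ∧ P.IsHomogeneous e) :
    ∃ d, s.prod.IsHomogeneous d ∧ s.prod ≠ 0 ∧ (0 < hv E d s.prod →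
      ∃ P ∈ s, ∃ e, P.IsHomogeneous e ∧ 0 < hv E e P) := by
  induction s using Multiset.induction_on with
  | empty =>
    refine ⟨0, by simpa using isHomogeneous_one _ _, by simp, fun h => ?_⟩
    exfalso
    have h1 : hv E 0 (1 : MvPolynomial (Fin (r + 1)) K) = 0 := by
      simp [hv, ev]
    rw [Multiset.prod_zero, h1] at h
    exact lt_irrefl _ h
  | cons Q s ih =>
    obtain ⟨d, hd, hs0, hd'⟩ := ih fun P hP => hs P (Multiset.mem_cons_of_mem hP)
    obtain ⟨hi, e, -, he⟩ := hs Q (Multiset.mem_cons_self Q s)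
    refine ⟨e + d, by rw [Multiset.prod_cons]; exact he.mul hd,
      by rw [Multiset.prod_cons]; exact mul_ne_zero hi.ne_zero hs0, fun hpos => ?_⟩
    rw [Multiset.prod_cons, hv_mul he hd hi.ne_zero hs0] at hpos
    by_cases hQ : 0 < hv E e Q
    · exact ⟨Q, Multiset.mem_cons_self Q s, e, he, hQ⟩
    · obtain ⟨P, hP, e', he', hpe⟩ := hd' (by omega)
      exact ⟨P, Multiset.mem_cons_of_mem hP, e', he', hpe⟩

/-- The prime divisors of the model which are trivial on `K` are those of `P^r`. -/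
theorem trivial_prime (hr : 0 < r) {x : Fin (N + 1) → F} (hx : IsProjModel r K x)
    (i : Fin (N + 1)) (E : DVal F) (hp : IsPrimeOf (chart x i) E)
    (hE : ∀ a : K, E (algebraMap K F a) = 0) : IsFibrePrime r K E := by
  obtain ⟨hx0, h, d, G, hG, hxG, hbp⟩ := hx
  have hi : hv E.toQVal d (G i) = 0 :=
    ((chart_centre hx0 hG hxG hbp E.toQVal hE).2 i).1 hp.1
  obtain ⟨f, hf0, hf⟩ := DVal.exists_unif E
  obtain ⟨n, A, B, hA, hB, hB0, hAB⟩ := exists_forms (r := r) (K := K) f
  have hA0 : A ≠ 0 := by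
    rintro rfl
    apply hf0
    rw [hAB]
    simp [ev]
  have hEf : hv E.toQVal n A - hv E.toQVal n B = 1 := by
    rw [← hf, hAB, E.toQVal.div (ev_ne_zero hA hA0) (ev_ne_zero hB hB0)]
    unfold hv
    ring
  have hBn := hv_nonneg (E := E.toQVal) hE hB hB0
  have hApos : 0 < hv E.toQVal n A := by omega
  obtain ⟨u, s, hu, hs, hAs⟩ := form_factor hA hA0
  obtain ⟨m, hm, hs0, hm'⟩ := MDL_factor (E := E.toQVal) s hs
  have hCu : (C u : MvPolynomial (Fin (r + 1)) K).IsHomogeneous 0 := isHomogeneous_C _ _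
  have hCu0 : (C u : MvPolynomial (Fin (r + 1)) K) ≠ 0 := by simpa using hu
  have hnm : n = 0 + m := by
    have h1 := hCu.mul hm
    rw [← hAs] at h1
    exact hA.inj_right h1 hA0
  have h2 := hv_mul (E := E.toQVal) (F := F) hCu hm hCu0 hs0
  rw [← hAs, ← hnm] at h2
  have h3 : hv E.toQVal 0 (C u : MvPolynomial (Fin (r + 1)) K) = 0 := by
    have h4 : hv E.toQVal 0 (C u : MvPolynomial (Fin (r + 1)) K)
        = E (ev F (C u : MvPolynomial (Fin (r + 1)) K)) - (0 : ℕ) * mu r K E := rfl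
    rw [h4, ev_C, hE]
    simp
  obtain ⟨P, hPs, e, he, hpos⟩ := hm' (by omega)
  have hPi := (hs P hPs).1
  obtain ⟨E', hE', -, -⟩ := exists_ordH (F := F) hr he hPi
  have hkey := MDL_key hx0 hG hxG i (E := E.toQVal) hE hi he hPi hpos hE'
  have hEE : E = E' := by
    refine dval_eq_of_ring E E' fun g hg0 hg => ?_
    obtain ⟨a, ha, b, hb, hb0, hEb, hab⟩ := hp.2 g hg0 hg
    have ha0 : a ≠ 0 := by
      rintro rfl
      rw [zero_div] at hab
      exact hg0 hab
    rw [hab, E'.toQVal.div ha0 hb0]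
    have h5 := (hkey a ha ha0).1
    have h6 := (hkey b hb hb0).2 hEb
    have h7 : E'.toQVal.v b = 0 := h6
    have h8 : 0 ≤ E'.toQVal.v a := h5
    omega
  exact ⟨P, e, he, hPi, hEE ▸ hE'⟩

/-- If `E` is trivial on `K` with centre on the chart `i` and the prime divisor `E'` passes through
the centre of `E`, then `E'` is a prime of the chart `i` through the centre of `E`. -/
theorem through_centre (hr : 0 < r) {x : Fin (N + 1) → F} (hx : IsProjModel r K x)
    (hfib : ∀ E : DVal F, IsFibrePrime r K E → ∃ i, IsPrimeOf (chart x i) E)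
    (E : QVal F) (hE : ∀ a : K, E (algebraMap K F a) = 0) (i : Fin (N + 1))
    (hi : ∀ a ∈ chart x i, a ≠ 0 → 0 ≤ E a) (E' : DVal F) (hE' : IsFibrePrime r K E')
    (hpos : 0 < hv E (dg r K E') (Pf r K E')) :
    IsPrimeOf (chart x i) E' ∧ ∀ a ∈ chart x i, a ≠ 0 → E a = 0 → E' a = 0 := by
  obtain ⟨hx0, h, d, G, hG, hxG, hbp⟩ := hx
  have hGi : hv E d (G i) = 0 := ((chart_centre hx0 hG hxG hbp E hE).2 i).1 hi
  obtain ⟨h1, h2, h3, h4⟩ := Pf_spec (E := E'.toQVal) hE'
  have hkey := MDL_key hx0 hG hxG i hE hGi h1 h3 hpos h4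
  obtain ⟨i', hi'⟩ := hfib E' hE'
  refine ⟨?_, fun a ha ha0 hEa => (hkey a ha ha0).2 hEa⟩
  refine prime_change x hx0 i i' E' hi' ?_
  have h5 := hi'.1 _ (MDL_gen_mem x i' i) (div_ne_zero (hx0 i) (hx0 i'))
  have h6 := (hkey _ (MDL_gen_mem x i i') (div_ne_zero (hx0 i') (hx0 i))).1
  have h7 := E'.toQVal.inv (x i / x i')
  rw [inv_div] at h7
  have h8 : 0 ≤ E'.toQVal.v (x i' / x i) := h6
  have h9 : 0 ≤ E'.toQVal.v (x i / x i') := h5
  change E'.toQVal.v (x i / x i') = 0
  omega

end WPB
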