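import Pool.Agent.WPB.VFO
import Pool.Agent.WPB.MDL

open MvPolynomial WNV

set_option linter.unusedSectionVars false

namespace WPB

variable {r N : ℕ} {K F : Type} [Field K] [Algebra ℂ K] [Field F] [Algebra ℂ F]
    [Algebra K F] [IsScalarTower ℂ K F]
    [Algebra (MvPolynomial (Fin r) K) F] [IsScalarTower K (MvPolynomial (Fin r) K) F]
    [IsFractionRing (MvPolynomial (Fin r) K) F]

open Classical in
/-- A finite set of fibre primes containing `S` and the primes of `ψ`. -/
theorem lvf_exists_primes (hr : 0 < r) (ψ : F →₀ ℝ) (S : Finset (DVal F))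
    (hS : ∀ E' ∈ S, IsFibrePrime r K E') :
    ∃ S' : Finset (DVal F), S ⊆ S' ∧ (∀ E' ∈ S', IsFibrePrime r K E') ∧
      (∀ E' : DVal F, IsFibrePrime r K E' → (∃ f ∈ ψ.support, E' f ≠ 0) → E' ∈ S') := by
  have hfin : (⋃ f ∈ (ψ.support : Set F), {E : DVal F | IsFibrePrime r K E ∧ E f ≠ 0}).Finite := by
    refine Set.Finite.biUnion ψ.support.finite_toSet fun f _ => ?_
    by_cases hf : f = 0
    · have : {E : DVal F | IsFibrePrime r K E ∧ E f ≠ 0} = ∅ := by
        ext E
        simp only [Set.mem_ofPred_eq, Set.mem_empty_iff_false, iff_false, not_and, not_not]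
        intro _
        subst hf
        exact E.toQVal.zero
      rw [this]
      exact Set.finite_empty
    · exact finite_fibre (K := K) hr f hf
  refine ⟨S ∪ hfin.toFinset, Finset.subset_union_left, ?_, ?_⟩
  · intro E' hE'
    rcases Finset.mem_union.1 hE' with h | h
    · exact hS E' h
    · rw [Set.Finite.mem_toFinset] at h
      simp only [Set.mem_iUnion, Set.mem_ofPred_eq] at h
      obtain ⟨f, _, h1, _⟩ := h
      exact h1
  · rintro E' h1 ⟨f, hf, hne⟩
    refine Finset.mem_union_right _ ?_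
    rw [Set.Finite.mem_toFinset]
    simp only [Set.mem_iUnion, Set.mem_ofPred_eq]
    exact ⟨f, hf, h1, hne⟩

/-- The value of a local equation at a valuation which is trivial on `K`. -/
theorem local_val (hr : 0 < r) {x : Fin (N + 1) → F} (hx : IsProjModel r K x)
    (hfib : ∀ E : DVal F, IsFibrePrime r K E → ∃ i, IsPrimeOf (chart x i) E)
    (D : DVal F → ℝ) (E : DVal F) (hE : ∀ a : K, E (algebraMap K F a) = 0) (i : Fin (N + 1))
    (hi : ∀ a ∈ chart x i, a ≠ 0 → 0 ≤ E a) (ψ : F →₀ ℝ)
    (hψ : ∀ E' : DVal F, IsPrimeOf (chart x i) E' →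
      (∀ a ∈ chart x i, a ≠ 0 → E a = 0 → E' a = 0) → D E' = val ψ E')
    (S : Finset (DVal F)) (hS : ∀ E' ∈ S, IsFibrePrime r K E')
    (hD : ∀ E' : DVal F, IsFibrePrime r K E' → D E' ≠ 0 → E' ∈ S) :
    val ψ E = ∑ E' ∈ S, D E' * (hv E (dg r K E') (Pf r K E') : ℝ) := by
  obtain ⟨S', hSS, hS', hψS⟩ := lvf_exists_primes (K := K) hr ψ S hS
  rw [val_formula hr ψ S' hS' hψS E.toQVal hE]
  have h1 : ∑ E' ∈ S', val ψ E' * (hv E (dg r K E') (Pf r K E') : ℝ) =
      ∑ E' ∈ S', D E' * (hv E (dg r K E') (Pf r K E') : ℝ) := by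
    refine Finset.sum_congr rfl fun E' hE' => ?_
    have hf := hS' E' hE'
    obtain ⟨hh, _, hirr, _⟩ := Pf_spec (E := E'.toQVal) hf
    have h0 : 0 ≤ hv E (dg r K E') (Pf r K E') :=
      hv_nonneg (E := E.toQVal) hE hh hirr.ne_zero
    rcases h0.eq_or_lt with h0 | h0
    · rw [← h0]; simp
    · obtain ⟨h2, h3⟩ := through_centre hr hx hfib E.toQVal hE i hi E' hf h0
      rw [hψ E' h2 h3]
  rw [h1]
  symm
  refine Finset.sum_subset hSS fun E' hE' hn => ?_
  have : D E' = 0 := by
    by_contra hne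
    exact hn (hD E' (hS' E' hE') hne)
  rw [this, zero_mul]

theorem lvf_ordH_assoc {E : F → ℤ} {P Q : MvPolynomial (Fin (r + 1)) K} (h : Associated P Q)
    (hE : IsOrdH E P) : IsOrdH E Q := by
  obtain ⟨u, rfl⟩ := h
  intro m n d G H hG hH hPG hPH
  have e1 : (P * ↑u) ^ m * G = P ^ m * (↑(u ^ m) * G) := by
    rw [mul_pow]; push_cast; ring
  have e2 : (P * ↑u) ^ n * H = P ^ n * (↑(u ^ n) * H) := by
    rw [mul_pow]; push_cast; ring
  rw [e1, e2]
  rw [e1] at hG
  rw [e2] at hH
  refine hE m n d _ _ hG hH ?_ ?_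
  · intro hd
    apply hPG
    rw [Units.mul_right_dvd]
    exact (Units.dvd_mul_left (u := u ^ m)).1 hd
  · intro hd
    apply hPH
    rw [Units.mul_right_dvd]
    exact (Units.dvd_mul_left (u := u ^ n)).1 hd

/-- The value `mu` along a prime of the fibre. -/
theorem lvf_mu (hr : 0 < r) {E : QVal F} (h : IsFibrePrime r K E) :
    (Associated (Pf r K E) (X 0) → mu r K E = -1) ∧
      (¬ Associated (Pf r K E) (X 0) → mu r K E = 0) := by
  obtain ⟨hh, hd, hirr, hord⟩ := Pf_spec (E := E) h
  have hX : Irreducible (X 0 : MvPolynomial (Fin (r + 1)) K) := prm_X_irr 0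
  have hz : E (ev F (X 0 : MvPolynomial (Fin (r + 1)) K)) = 0 := by
    rw [ev_X]
    simp [zz]
  constructor
  · intro ha
    obtain ⟨u, hu⟩ := ha
    have e1 : (X 0 : MvPolynomial (Fin (r + 1)) K) = (Pf r K E) ^ 1 * (↑u) := by
      rw [pow_one, hu]
    have h2 := hv_ordH hr hh hirr hord 1 1 (↑u) (by rw [← e1]; exact isHomogeneous_X K 0)
      (fun hdv => hirr.not_isUnit (isUnit_of_dvd_unit hdv u.isUnit))
    rw [← e1] at h2
    unfold hv at h2
    rw [hz] at h2
    push_cast at h2
    omega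
  · intro ha
    have h2 := hv_ordH hr hh hirr hord 0 1 (X 0) (by
      rw [pow_zero, one_mul]; exact isHomogeneous_X K 0)
      (fun hdv => ha (hirr.associated_of_dvd hX hdv))
    rw [pow_zero, one_mul] at h2
    unfold hv at h2
    rw [hz] at h2
    push_cast at h2
    omega

/-- A pseudo-effective divisor has nonnegative degree on the generic fibre. -/
theorem degree_nonneg (hr : 0 < r) {x : Fin (N + 1) → F} (hx : IsProjModel r K x)
    (hfib : ∀ E : DVal F, IsFibrePrime r K E → ∃ i, IsPrimeOf (chart x i) E)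
    (D : DVal F → ℝ) (hps : IsPsef x D)
    (S : Finset (DVal F)) (hS : ∀ E' ∈ S, IsFibrePrime r K E')
    (hD : ∀ E' : DVal F, IsFibrePrime r K E' → D E' ≠ 0 → E' ∈ S) :
    0 ≤ ∑ E' ∈ S, (dg r K E' : ℝ) * D E' := by
  classical
  obtain ⟨hx0, h, d, G, hG, hxG, hbp⟩ := hx
  have hG0 : ∀ j, G j ≠ 0 := by
    intro j hj
    apply hx0 j
    rw [hxG j, hj]
    simp [ev]
  have hev : ∀ j, ev F (G j) ≠ 0 := fun j => ev_ne_zero (hG j) (hG0 j)
  have hh0 : h ≠ 0 := by
    intro hh
    apply hx0 0
    rw [hxG 0, hh, zero_mul]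
  -- the prime at infinity
  obtain ⟨Einf, hinf, -, -⟩ := exists_ordH (F := F) hr (isHomogeneous_X K (0 : Fin (r + 1)))
    (prm_X_irr (K := K) (0 : Fin (r + 1)))
  have key : ∀ ε : ℝ, 0 < ε → 0 ≤ (∑ E' ∈ S, (dg r K E' : ℝ) * D E') + ε * d := by
    intro ε hε
    obtain ⟨φ, hφ⟩ := hps ε hε
    obtain ⟨S', hSS, hS', hφS⟩ := lvf_exists_primes (K := K) hr
      (φ + Finsupp.single (ev F (G 0)) (1 + |φ (ev F (G 0))|)) S hS
    obtain ⟨S'', hSS'', hS'', hφS''⟩ := lvf_exists_primes (K := K) hr φ S' hS'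
    have hdeg := val_degree (K := K) hr φ S'' hS'' hφS''
    have hSsub : S ⊆ S'' := hSS.trans hSS''
    have hsup : ev F (G 0) ∈ (φ + Finsupp.single (ev F (G 0)) (1 + |φ (ev F (G 0))|)).support := by
      rw [Finsupp.mem_support_iff, Finsupp.add_apply, Finsupp.single_eq_same]
      have := neg_abs_le (φ (ev F (G 0)))
      intro hc
      linarith
    have hfac := (factor_of (K := K) hr (ev F (G 0)) (hev 0) S'' hS'' (fun E hE hne =>
      hSS'' (hφS E hE ⟨_, hsup, hne⟩))).2
    -- the inequality at every prime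
    have hineq : ∀ E' ∈ S'', 0 ≤ D E' + ε * ((E' (ev F (G 0)) : ℝ) - d * (mu r K E' : ℝ))
        + val φ E' := by
      intro E' hE'
      obtain ⟨i, hi⟩ := hfib E' (hS'' E' hE')
      have h1 := hφ i E' hi
      obtain ⟨hh, hdp, hirr, hord⟩ := Pf_spec (E := E'.toQVal) (hS'' E' hE')
      have htriv : ∀ a : K, E' (algebraMap K F a) = 0 :=
        fun a => ordH_const (E := E'.toQVal) hh hirr hord a
      have hc := ((chart_centre hx0 hG hxG hbp E'.toQVal htriv).2 i).1 hi.1
      have h2 : (E' (x 0 / x i) : ℝ) = (E' (ev F (G 0)) : ℝ) - d * (mu r K E' : ℝ) := by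
        have h3 : x 0 / x i = ev F (G 0) / ev F (G i) := by
          rw [hxG 0, hxG i, mul_div_mul_left _ _ hh0]
        rw [h3, E'.toQVal.div (hev 0) (hev i)]
        unfold hv at hc
        have : E'.toQVal (ev F (G i)) = d * mu r K E' := by
          have hc' : E'.toQVal (ev F (G i)) - (d : ℤ) * mu r K E'.toQVal = 0 := hc
          linarith
        rw [this]
        push_cast
        ring
      rw [h2] at h1
      exact h1
    -- sum
    have hsum : 0 ≤ ∑ E' ∈ S'', (dg r K E' : ℝ) *
        (D E' + ε * ((E' (ev F (G 0)) : ℝ) - d * (mu r K E' : ℝ)) + val φ E') :=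
      Finset.sum_nonneg fun E' hE' => mul_nonneg (Nat.cast_nonneg _) (hineq E' hE')
    have hfacR : ∑ E' ∈ S'', (dg r K E' : ℝ) * (E' (ev F (G 0)) : ℝ) = 0 := by
      have := congrArg (Int.cast (R := ℝ)) hfac
      push_cast at this
      exact this
    have hmu : ∑ E' ∈ S'', (dg r K E' : ℝ) * (-(mu r K E' : ℝ)) ≤ 1 := by
      have h3 : ∀ E' ∈ S'', (dg r K E' : ℝ) * (-(mu r K E' : ℝ)) = if E' = Einf then 1 else 0 := by
        intro E' hE'
        have hf := hS'' E' hE'
        obtain ⟨hh, hdp, hirr, hord⟩ := Pf_spec (E := E'.toQVal) hf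
        obtain ⟨hm1, hm2⟩ := lvf_mu (E := E'.toQVal) hr hf
        by_cases ha : Associated (Pf r K E') (X 0)
        · have h4 : E' = Einf := by
            have h5 : ∀ f, E'.toQVal f = Einf.toQVal f := fun f =>
              ordH_unique (E := E'.toQVal) (E' := Einf.toQVal) (isHomogeneous_X K (0 : Fin (r + 1)))
                (prm_X_irr (K := K) (0 : Fin (r + 1))) (lvf_ordH_assoc ha hord) hinf f
            have h6 : E'.toQVal.v = Einf.toQVal.v := funext h5
            cases E' with
            | mk q hq =>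
              cases Einf with
              | mk q' hq' =>
                cases q
                cases q'
                simp only at h6
                subst h6
                rfl
          have h7 : dg r K E' = 1 := by
            unfold dg
            obtain ⟨u, hu⟩ := ha
            have hdd : (Pf r K E').totalDegree + (u : MvPolynomial (Fin (r + 1)) K).totalDegree
                = 1 := by
              rw [← totalDegree_mul_of_isDomain hirr.ne_zero u.ne_zero]
              exact (congrArg totalDegree hu).trans (totalDegree_X 0)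
            have h8 : 0 < (Pf r K E').totalDegree := hdp
            omega
          rw [if_pos h4, h7]
          have h9 : mu r K E' = -1 := hm1 ha
          rw [h9]; norm_num
        · have h4 : E' ≠ Einf := by
            intro h4
            apply ha
            have hord' : IsOrdH Einf.toQVal (Pf r K E') := by
              rw [h4] at hord ⊢
              exact hord
            exact ordH_assoc (E := Einf.toQVal) hh hirr hord'
              (isHomogeneous_X K (0 : Fin (r + 1))) (prm_X_irr (K := K) (0 : Fin (r + 1))) hinf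
          rw [if_neg h4]
          have h9 : mu r K E' = 0 := hm2 ha
          rw [h9]; norm_num
      rw [Finset.sum_congr rfl h3, Finset.sum_ite_eq']
      split_ifs <;> norm_num
    have hDS : ∑ E' ∈ S'', (dg r K E' : ℝ) * D E' = ∑ E' ∈ S, (dg r K E' : ℝ) * D E' := by
      symm
      refine Finset.sum_subset hSsub fun E' hE' hn => ?_
      have : D E' = 0 := by
        by_contra hne
        exact hn (hD E' (hS'' E' hE') hne)
      rw [this, mul_zero]
    have hexp : ∑ E' ∈ S'', (dg r K E' : ℝ) *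
        (D E' + ε * ((E' (ev F (G 0)) : ℝ) - d * (mu r K E' : ℝ)) + val φ E') =
        (∑ E' ∈ S'', (dg r K E' : ℝ) * D E') +
          ε * (∑ E' ∈ S'', (dg r K E' : ℝ) * (E' (ev F (G 0)) : ℝ)) +
          ε * d * (∑ E' ∈ S'', (dg r K E' : ℝ) * (-(mu r K E' : ℝ))) +
          ∑ E' ∈ S'', (dg r K E' : ℝ) * val φ E' := by
      rw [Finset.mul_sum, Finset.mul_sum, ← Finset.sum_add_distrib, ← Finset.sum_add_distrib,
        ← Finset.sum_add_distrib]
      refine Finset.sum_congr rfl fun E' _ => ?_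
      ring
    rw [hexp, hDS, hfacR, hdeg] at hsum
    have hd0 : (0 : ℝ) ≤ ε * d := mul_nonneg hε.le (Nat.cast_nonneg _)
    have := mul_le_mul_of_nonneg_left hmu hd0
    linarith
  by_contra hneg
  push Not at hneg
  set T := ∑ E' ∈ S, (dg r K E' : ℝ) * D E' with hT
  have hd1 : (0 : ℝ) < (d : ℝ) + 1 := by positivity
  have h1 := key (-T / (2 * ((d : ℝ) + 1))) (by apply div_pos <;> linarith)
  have h2 : -T / (2 * ((d : ℝ) + 1)) * d ≤ -T / 2 := by
    rw [div_mul_eq_mul_div, div_le_div_iff₀ (by positivity) (by norm_num)]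
    nlinarith
  linarith

end WPB
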