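import Pool.Agent.WPB.PRM
import Pool.Agent.WPB.HVF

open MvPolynomial WNV

set_option linter.unusedSectionVars false

namespace WPB

variable {r : ℕ} {K F : Type} [Field K] [Algebra ℂ K] [Field F] [Algebra ℂ F]
    [Algebra K F] [IsScalarTower ℂ K F]
    [Algebra (MvPolynomial (Fin r) K) F] [IsScalarTower K (MvPolynomial (Fin r) K) F]
    [IsFractionRing (MvPolynomial (Fin r) K) F]

private theorem VFO_ordH_assoc {E : F → ℤ} {P Q : MvPolynomial (Fin (r + 1)) K}
    (h : Associated P Q) (hQ : IsOrdH E Q) : IsOrdH E P := by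
  obtain ⟨u, hu⟩ := h
  have hu' : P = Q * ((u⁻¹ : (MvPolynomial (Fin (r + 1)) K)ˣ) : MvPolynomial (Fin (r + 1)) K) := by
    rw [← hu, mul_assoc, Units.mul_inv, mul_one]
  intro m n d G H hG hH hPG hPH
  have key : ∀ (m : ℕ) (G : MvPolynomial (Fin (r + 1)) K), P ^ m * G
      = Q ^ m * (((u⁻¹ : (MvPolynomial (Fin (r + 1)) K)ˣ) :
        MvPolynomial (Fin (r + 1)) K) ^ m * G) := by
    intro m G
    rw [hu', mul_pow, mul_assoc]
  have key2 : ∀ (m : ℕ) (G : MvPolynomial (Fin (r + 1)) K), ¬ P ∣ G →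
      ¬ Q ∣ (((u⁻¹ : (MvPolynomial (Fin (r + 1)) K)ˣ) :
        MvPolynomial (Fin (r + 1)) K) ^ m * G) := by
    intro m G hn hd
    apply hn
    have h1 : Q ∣ G := by
      have h2 : IsUnit (((u⁻¹ : (MvPolynomial (Fin (r + 1)) K)ˣ) :
        MvPolynomial (Fin (r + 1)) K) ^ m) := (Units.isUnit _).pow m
      exact h2.dvd_mul_left.1 hd
    exact (Associated.dvd ⟨u, hu⟩).trans h1
  rw [key m G, key n H] at *
  exact hQ m n d _ _ hG hH (key2 m G hPG) (key2 n H hPH)

private theorem VFO_unique {E E' : DVal F} (hE : IsFibrePrime r K E) (hE' : IsFibrePrime r K E')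
    (h : Associated (Pf r K E) (Pf r K E')) : E = E' := by
  obtain ⟨h1, h2, h3, h4⟩ := Pf_spec hE
  obtain ⟨h1', h2', h3', h4'⟩ := Pf_spec hE'
  exact DVal.ext_of fun f _ => ordH_unique h1 h3 h4 (VFO_ordH_assoc h h4') f

private theorem VFO_exists (hr : 0 < r) {P : MvPolynomial (Fin (r + 1)) K} {e : ℕ}
    (hP : P.IsHomogeneous e) (hi : Irreducible P) :
    ∃ E : DVal F, IsFibrePrime r K E ∧ Associated (Pf r K E) P := by
  obtain ⟨E, hE, -, -⟩ := exists_ordH (F := F) hr hP hi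
  have hf : IsFibrePrime r K E := ⟨P, e, hP, hi, hE⟩
  obtain ⟨h1, h2, h3, h4⟩ := Pf_spec hf
  exact ⟨E, hf, ordH_assoc h1 h3 h4 hP hi hE⟩

/-- products of irreducible forms as products of the chosen equations -/
private theorem VFO_mult (T : Finset (DVal F))
    (s : Multiset (MvPolynomial (Fin (r + 1)) K))
    (hs : ∀ Q ∈ s, ∃ E ∈ T, Associated (Pf r K E) Q) :
    ∃ (u : K) (n : DVal F → ℕ), u ≠ 0 ∧ s.prod = C u * ∏ E ∈ T, (Pf r K E) ^ n E := by
  classical
  induction s using Multiset.induction_on with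
  | empty => exact ⟨1, fun _ => 0, one_ne_zero, by simp⟩
  | cons Q s ih =>
    obtain ⟨u, n, hu, hp⟩ := ih fun P hP => hs P (Multiset.mem_cons_of_mem hP)
    obtain ⟨E, hE, w, hw⟩ := hs Q (Multiset.mem_cons_self Q s)
    have hwu : IsUnit (w : MvPolynomial (Fin (r + 1)) K) := w.isUnit
    obtain ⟨c, hc, hcw⟩ := MvPolynomial.isUnit_iff_eq_C_of_isReduced.1 hwu
    refine ⟨c * u, Function.update n E (n E + 1), mul_ne_zero hc.ne_zero hu, ?_⟩
    rw [Multiset.prod_cons, hp, ← hw, hcw, ← Finset.mul_prod_erase T _ hE,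
      ← Finset.mul_prod_erase T (fun x => Pf r K x ^ Function.update n E (n E + 1) x) hE]
    have h2 : ∏ x ∈ T.erase E, Pf r K x ^ Function.update n E (n E + 1) x
        = ∏ x ∈ T.erase E, Pf r K x ^ n x := by
      refine Finset.prod_congr rfl fun x hx => ?_
      rw [Function.update_of_ne (Finset.ne_of_mem_erase hx)]
    rw [h2, Function.update_self, map_mul, pow_succ]
    ring

private theorem VFO_exists_T (hr : 0 < r) (s : Multiset (MvPolynomial (Fin (r + 1)) K))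
    (hs : ∀ P ∈ s, Irreducible P ∧ ∃ e, 0 < e ∧ P.IsHomogeneous e) :
    ∃ T : Finset (DVal F), (∀ E ∈ T, IsFibrePrime r K E) ∧
      ∀ Q ∈ s, ∃ E ∈ T, Associated (Pf r K E) Q := by
  classical
  induction s using Multiset.induction_on with
  | empty => exact ⟨∅, by simp, by simp⟩
  | cons Q s ih =>
    obtain ⟨T, hT, hs'⟩ := ih fun P hP => hs P (Multiset.mem_cons_of_mem hP)
    obtain ⟨hi, e, -, he⟩ := hs Q (Multiset.mem_cons_self Q s)
    obtain ⟨E, hE, hEQ⟩ := VFO_exists (F := F) hr he hi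
    refine ⟨insert E T, ?_, ?_⟩
    · intro x hx
      rcases Finset.mem_insert.1 hx with rfl | hx
      · exact hE
      · exact hT x hx
    · intro P hP
      rcases Multiset.mem_cons.1 hP with rfl | hP
      · exact ⟨E, Finset.mem_insert_self _ _, hEQ⟩
      · obtain ⟨x, hx, hxP⟩ := hs' P hP
        exact ⟨x, Finset.mem_insert_of_mem hx, hxP⟩

private theorem VFO_ndvd (T : Finset (DVal F)) (hT : ∀ E ∈ T, IsFibrePrime r K E) (n : DVal F → ℕ)
    {a : K} (ha : a ≠ 0) {E : DVal F} (hE : IsFibrePrime r K E) (hET : E ∉ T) :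
    ¬ Pf r K E ∣ C a * ∏ x ∈ T, (Pf r K x) ^ n x := by
  obtain ⟨h1, h2, h3, h4⟩ := Pf_spec hE
  have hp : Prime (Pf r K E) := h3.prime
  intro hd
  rcases hp.dvd_or_dvd hd with hd | hd
  · apply h3.not_isUnit
    refine isUnit_of_dvd_unit hd ?_
    exact (Ne.isUnit ha).map C
  · obtain ⟨x, hx, hxd⟩ := (Prime.dvd_finsetProd_iff hp _).1 hd
    have hx2 := hp.dvd_of_dvd_pow hxd
    obtain ⟨-, -, h3', -⟩ := Pf_spec (hT x hx)
    have := VFO_unique hE (hT x hx) (h3.associated_of_dvd h3' hx2)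
    exact hET (this ▸ hx)

private theorem VFO_homog (T : Finset (DVal F)) (hT : ∀ E ∈ T, IsFibrePrime r K E) (n : DVal F → ℕ)
    (a : K) :
    (C a * ∏ x ∈ T, (Pf r K x) ^ n x).IsHomogeneous (∑ x ∈ T, dg r K x * n x) := by
  have h := (MvPolynomial.isHomogeneous_C (Fin (r + 1)) a).mul
    (MvPolynomial.IsHomogeneous.prod T (fun x => (Pf r K x) ^ n x) (fun x => dg r K x * n x)
      fun x hx => (Pf_spec (hT x hx)).1.pow (n x))
  rwa [zero_add] at h

private theorem VFO_struct (hr : 0 < r) (f : F) (hf : f ≠ 0) :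
    ∃ (T : Finset (DVal F)) (u : K) (m : DVal F → ℤ), u ≠ 0 ∧ (∀ E ∈ T, IsFibrePrime r K E) ∧
      (∀ E : DVal F, E ∉ T → m E = 0) ∧
      (∀ E : DVal F, IsFibrePrime r K E → E f = m E) ∧
      f = algebraMap K F u * ∏ E ∈ T, ev F (Pf r K E) ^ (m E) ∧
      ∑ E ∈ T, (dg r K E : ℤ) * m E = 0 := by
  classical
  obtain ⟨d, G, H, hG, hH, hH0, hfe⟩ := exists_forms (r := r) (K := K) f
  have hG0 : G ≠ 0 := by
    rintro rfl
    apply hf
    rw [hfe]
    simp [ev]
  obtain ⟨u, s, hu, hs, hGs⟩ := form_factor hG hG0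
  obtain ⟨u', s', hu', hs', hHs⟩ := form_factor hH hH0
  obtain ⟨T, hT, hTs⟩ := VFO_exists_T (F := F) hr (s + s') (by
    intro P hP
    rcases Multiset.mem_add.1 hP with hP | hP
    · exact hs P hP
    · exact hs' P hP)
  obtain ⟨v, n, hv, hsn⟩ := VFO_mult T s fun Q hQ => hTs Q (Multiset.mem_add.2 (Or.inl hQ))
  obtain ⟨v', n', hv', hsn'⟩ := VFO_mult T s' fun Q hQ => hTs Q (Multiset.mem_add.2 (Or.inr hQ))
  have hG1 : G = C (u * v) * ∏ E ∈ T, (Pf r K E) ^ n E := by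
    rw [hGs, hsn, map_mul, mul_assoc]
  have hH1 : H = C (u' * v') * ∏ E ∈ T, (Pf r K E) ^ n' E := by
    rw [hHs, hsn', map_mul, mul_assoc]
  have huv : u * v ≠ 0 := mul_ne_zero hu hv
  have huv' : u' * v' ≠ 0 := mul_ne_zero hu' hv'
  have hdn : ∑ x ∈ T, dg r K x * n x = d := by
    have h1 := VFO_homog T hT n (u * v)
    rw [← hG1] at h1
    exact h1.inj_right hG hG0
  have hdn' : ∑ x ∈ T, dg r K x * n' x = d := by
    have h1 := VFO_homog T hT n' (u' * v')
    rw [← hH1] at h1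
    exact h1.inj_right hH hH0
  have hevne : ∀ x ∈ T, ev F (Pf r K x) ≠ 0 := fun x hx =>
    ev_ne_zero (Pf_spec (hT x hx)).1 (Pf_spec (hT x hx)).2.2.1.ne_zero
  have hevG : ∀ (a : K) (k : DVal F → ℕ), ev F (C a * ∏ E ∈ T, (Pf r K E) ^ k E)
      = algebraMap K F a * ∏ E ∈ T, ev F (Pf r K E) ^ k E := by
    intro a k
    rw [ev_mul, ev_C]
    congr 1
    simp only [ev, map_prod, map_pow]
  refine ⟨T, (u * v) / (u' * v'), fun E => if E ∈ T then (n E : ℤ) - n' E else 0,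
    div_ne_zero huv huv', hT, ?_, ?_, ?_, ?_⟩
  · intro E hE
    simp [hE]
  · intro E hE
    obtain ⟨h1, h2, h3, h4⟩ := Pf_spec hE
    by_cases hET : E ∈ T
    · have hnd := VFO_ndvd (T.erase E) (fun x hx => hT x (Finset.mem_of_mem_erase hx)) n huv hE
        (Finset.notMem_erase E T)
      have hnd' := VFO_ndvd (T.erase E) (fun x hx => hT x (Finset.mem_of_mem_erase hx)) n' huv' hE
        (Finset.notMem_erase E T)
      have hG2 : G = Pf r K E ^ n E * (C (u * v) * ∏ x ∈ T.erase E, (Pf r K x) ^ n x) := by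
        rw [hG1, ← Finset.mul_prod_erase T _ hET]; ring
      have hH2 : H = Pf r K E ^ n' E * (C (u' * v') * ∏ x ∈ T.erase E, (Pf r K x) ^ n' x) := by
        rw [hH1, ← Finset.mul_prod_erase T _ hET]; ring
      have := h4 (n E) (n' E) d _ _ (hG2 ▸ hG) (hH2 ▸ hH) hnd hnd'
      rw [← hG2, ← hH2, ← hfe] at this
      simpa [hET] using this
    · have hnd := VFO_ndvd T hT n huv hE hET
      have hnd' := VFO_ndvd T hT n' huv' hE hET
      rw [← hG1] at hnd
      rw [← hH1] at hnd'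
      have := h4 0 0 d G H (by simpa using hG) (by simpa using hH) hnd hnd'
      rw [pow_zero, one_mul, one_mul, ← hfe] at this
      simpa [hET] using this
  · rw [hfe, hG1, hH1, hevG, hevG, map_div₀, mul_div_mul_comm, ← Finset.prod_div_distrib]
    congr 1
    refine Finset.prod_congr rfl fun x hx => ?_
    simp only [hx, if_true]
    rw [zpow_sub₀ (hevne x hx), zpow_natCast, zpow_natCast]
  · have : ∀ x ∈ T, (dg r K x : ℤ) * (if x ∈ T then (n x : ℤ) - n' x else 0)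
        = ((dg r K x * n x : ℕ) : ℤ) - ((dg r K x * n' x : ℕ) : ℤ) := by
      intro x hx
      simp only [hx, if_true]
      push_cast
      ring
    rw [Finset.sum_congr rfl this, Finset.sum_sub_distrib, ← Nat.cast_sum, ← Nat.cast_sum, hdn,
      hdn', sub_self]

/-- Only finitely many prime divisors of `P^r` occur in a rational function. -/
theorem finite_fibre (hr : 0 < r) (f : F) (hf : f ≠ 0) :
    {E : DVal F | IsFibrePrime r K E ∧ E f ≠ 0}.Finite := by
  obtain ⟨T, u, m, hu, hT, hm, hEm, hfe, hd⟩ := VFO_struct (K := K) hr f hf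
  refine T.finite_toSet.subset ?_
  rintro E ⟨hE, hne⟩
  by_contra hn
  exact hne ((hEm E hE).trans (hm E hn))

/-- A rational function is the product of the equations of its prime divisors. -/
theorem factor_of (hr : 0 < r) (f : F) (hf : f ≠ 0) (S : Finset (DVal F))
    (hS : ∀ E ∈ S, IsFibrePrime r K E)
    (hfS : ∀ E : DVal F, IsFibrePrime r K E → E f ≠ 0 → E ∈ S) :
    (∃ u : K, u ≠ 0 ∧ f = algebraMap K F u * ∏ E ∈ S, ev F (Pf r K E) ^ (E f)) ∧
      ∑ E ∈ S, (dg r K E : ℤ) * E f = 0 := by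
  classical
  obtain ⟨T, u, m, hu, hT, hm, hEm, hfe, hd⟩ := VFO_struct (K := K) hr f hf
  have h1 : ∀ x ∈ T ∪ S, x ∉ T → x f = 0 := by
    intro x hx hxT
    have hxS : x ∈ S := (Finset.mem_union.1 hx).resolve_left hxT
    rw [hEm x (hS x hxS), hm x hxT]
  have h2 : ∀ x ∈ T ∪ S, x ∉ S → x f = 0 := by
    intro x hx hxS
    have hxT : x ∈ T := (Finset.mem_union.1 hx).resolve_right hxS
    by_contra hne
    exact hxS (hfS x (hT x hxT) hne)
  refine ⟨⟨u, hu, ?_⟩, ?_⟩
  · have e1 : ∏ E ∈ T, ev F (Pf r K E) ^ (m E) = ∏ E ∈ T, ev F (Pf r K E) ^ (E f) :=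
      Finset.prod_congr rfl fun x hx => by rw [hEm x (hT x hx)]
    have e2 : ∏ E ∈ T, ev F (Pf r K E) ^ (E f) = ∏ E ∈ T ∪ S, ev F (Pf r K E) ^ (E f) :=
      Finset.prod_subset Finset.subset_union_left fun x hx hxT => by rw [h1 x hx hxT, zpow_zero]
    have e3 : ∏ E ∈ S, ev F (Pf r K E) ^ (E f) = ∏ E ∈ T ∪ S, ev F (Pf r K E) ^ (E f) :=
      Finset.prod_subset Finset.subset_union_right fun x hx hxT => by rw [h2 x hx hxT, zpow_zero]
    rw [e3, ← e2, ← e1]
    exact hfe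
  · have e1 : ∑ E ∈ T, (dg r K E : ℤ) * m E = ∑ E ∈ T, (dg r K E : ℤ) * E f :=
      Finset.sum_congr rfl fun x hx => by rw [hEm x (hT x hx)]
    have e2 : ∑ E ∈ T, (dg r K E : ℤ) * E f = ∑ E ∈ T ∪ S, (dg r K E : ℤ) * E f :=
      Finset.sum_subset Finset.subset_union_left fun x hx hxT => by rw [h1 x hx hxT, mul_zero]
    have e3 : ∑ E ∈ S, (dg r K E : ℤ) * E f = ∑ E ∈ T ∪ S, (dg r K E : ℤ) * E f :=
      Finset.sum_subset Finset.subset_union_right fun x hx hxT => by rw [h2 x hx hxT, mul_zero]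
    rw [e3, ← e2, ← e1]
    exact hd

/-- The product formula for real combinations. -/
theorem val_degree (hr : 0 < r) (ψ : F →₀ ℝ) (S : Finset (DVal F))
    (hS : ∀ E ∈ S, IsFibrePrime r K E)
    (hfS : ∀ E : DVal F, IsFibrePrime r K E → (∃ f ∈ ψ.support, E f ≠ 0) → E ∈ S) :
    ∑ E ∈ S, (dg r K E : ℝ) * val ψ E = 0 := by
  have h1 : ∀ E ∈ S, (dg r K E : ℝ) * val ψ E
      = ∑ f ∈ ψ.support, ψ f * ((dg r K E : ℝ) * (E f : ℝ)) := by
    intro E hE
    rw [val_eq_sum, Finset.mul_sum]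
    exact Finset.sum_congr rfl fun f _ => by ring
  rw [Finset.sum_congr rfl h1, Finset.sum_comm]
  refine Finset.sum_eq_zero fun f hf => ?_
  rw [← Finset.mul_sum]
  by_cases hf0 : f = 0
  · have : ∑ E ∈ S, (dg r K E : ℝ) * (E f : ℝ) = 0 := by
      refine Finset.sum_eq_zero fun E _ => ?_
      rw [hf0, E.toQVal.zero, Int.cast_zero, mul_zero]
    rw [this, mul_zero]
  · have h2 := (factor_of hr f hf0 S hS fun E hE hne => hfS E hE ⟨f, hf, hne⟩).2
    have h3 : ∑ E ∈ S, (dg r K E : ℝ) * (E f : ℝ) = 0 := by exact_mod_cast h2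
    rw [h3, mul_zero]

/-- The value of a real combination at a valuation which is trivial on `K`. -/
theorem val_formula (hr : 0 < r) (ψ : F →₀ ℝ) (S : Finset (DVal F))
    (hS : ∀ E ∈ S, IsFibrePrime r K E)
    (hfS : ∀ E : DVal F, IsFibrePrime r K E → (∃ f ∈ ψ.support, E f ≠ 0) → E ∈ S)
    (G : QVal F) (hG : ∀ a : K, G (algebraMap K F a) = 0) :
    val ψ G = ∑ E ∈ S, val ψ E * (hv G (dg r K E) (Pf r K E) : ℝ) := by
  have h1 : ∀ E ∈ S, val ψ E * (hv G (dg r K E) (Pf r K E) : ℝ)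
      = ∑ f ∈ ψ.support, ψ f * ((E f : ℝ) * (hv G (dg r K E) (Pf r K E) : ℝ)) := by
    intro E hE
    rw [val_eq_sum, Finset.sum_mul]
    exact Finset.sum_congr rfl fun f _ => by ring
  rw [Finset.sum_congr rfl h1, Finset.sum_comm, val_eq_sum]
  refine Finset.sum_congr rfl fun f hf => ?_
  rw [← Finset.mul_sum]
  congr 1
  by_cases hf0 : f = 0
  · rw [hf0, G.zero, Int.cast_zero]
    symm
    refine Finset.sum_eq_zero fun E _ => ?_
    rw [E.toQVal.zero, Int.cast_zero, zero_mul]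
  · obtain ⟨⟨u, hu, hfu⟩, hdeg⟩ :=
      factor_of hr f hf0 S hS fun E hE hne => hfS E hE ⟨f, hf, hne⟩
    have hevne : ∀ x ∈ S, ev F (Pf r K x) ≠ 0 := fun x hx =>
      ev_ne_zero (Pf_spec (hS x hx)).1 (Pf_spec (hS x hx)).2.2.1.ne_zero
    have hun : algebraMap K F u ≠ 0 := by simpa using hu
    have h2 : G f = ∑ E ∈ S, E f * G (ev F (Pf r K E)) := by
      conv_lhs => rw [hfu]
      rw [G.mul hun (Finset.prod_ne_zero_iff.2 fun x hx => zpow_ne_zero _ (hevne x hx)), hG,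
        zero_add, G.prod _ _ fun x hx => zpow_ne_zero _ (hevne x hx)]
      exact Finset.sum_congr rfl fun x hx => G.zpow (hevne x hx) _
    have h3 : G f = ∑ E ∈ S, E f * hv G (dg r K E) (Pf r K E) := by
      have h4 : ∀ E ∈ S, E f * G (ev F (Pf r K E))
          = E f * hv G (dg r K E) (Pf r K E) + mu r K G * ((dg r K E : ℤ) * E f) := by
        intro E _
        unfold hv
        ring
      rw [h2, Finset.sum_congr rfl h4, Finset.sum_add_distrib, ← Finset.mul_sum, hdeg, mul_zero,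
        add_zero]
    rw [h3]
    push_cast
    rfl

end WPB
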